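import Pool.Agent.Helper71.FreeTrace

namespace Pool.Agent.Helper71.FreeTri

open Module Pool.Agent.Helper71.FreeCore Pool.Agent.Helper71.FreeCrit Pool.Agent.Helper71.FreeApp
  Pool.Agent.Helper71.FreeTrace

universe u v

variable {k : Type u} [Field k] {X : Type v}

/-- Power sums of distinct elements do not all vanish. -/
theorem exists_pow_sum_ne {J : Type*} [Fintype J] [Nonempty J] (lam : J → k)
    (hinj : Function.Injective lam) : ∃ j, j < Fintype.card J ∧ ∑ q, lam q ^ j ≠ 0 := by
  by_contra hcon
  push Not at hcon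
  let e := (Fintype.equivFin J).symm
  have h := Matrix.eq_zero_of_forall_pow_sum_mul_pow_eq_zero
    (f := fun i => lam (e i)) (v := fun _ => (1 : k)) (hinj.comp e.injective) ?_
  · have h1 := congrFun h (Fintype.equivFin J (Classical.arbitrary J))
    exact one_ne_zero h1
  · intro i
    simp only [one_mul]
    rw [Equiv.sum_comp e (fun q => lam q ^ (i : ℕ))]
    exact hcon i i.2

section Step

variable (w : X → ℕ)

/-- Comparison of an automorphism with a translation of one variable. -/
theorem compare {g τ : FreeAlgebra k X →ₐ[k] FreeAlgebra k X} (B : ℕ)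
    (hg : ∀ x, g (FreeAlgebra.ι k x) ∈ fl w (w x + 1))
    (hτ : ∀ x, τ (FreeAlgebra.ι k x) ∈ fl w (w x + 1))
    (hd : ∀ x, g (FreeAlgebra.ι k x) = τ (FreeAlgebra.ι k x) ∨
      ∃ m, g (FreeAlgebra.ι k x) - τ (FreeAlgebra.ι k x) ∈ fl w (m + 1) ∧ m + B ≤ w x) :
    ∀ (l : List X) (m : ℕ), wt w l < m + B → g (mon l) - τ (mon l) ∈ fl w m := by
  intro l
  induction l with
  | nil => intro m _; rw [mon_nil, map_one, map_one, sub_self]; exact Submodule.zero_mem _
  | cons x l ih =>
    intro m hm
    rw [wt_cons] at hm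
    have h1 : g (mon (x :: l)) - τ (mon (x :: l)) =
        (g (FreeAlgebra.ι k x) - τ (FreeAlgebra.ι k x)) * g (mon l) +
        τ (FreeAlgebra.ι k x) * (g (mon l) - τ (mon l)) := by
      rw [mon_cons, map_mul, map_mul]
      noncomm_ring
    rw [h1]
    refine Submodule.add_mem _ ?_ ?_
    · rcases hd x with h2 | ⟨m', h2, h3⟩
      · rw [h2, sub_self, zero_mul]; exact Submodule.zero_mem _
      · have h4 : g (mon l) ∈ fl w (wt w l + 1) :=
          map_fl_of_filt w hg (mon_mem_fl w (Nat.lt_succ_self _))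
        exact fl_mono w (by omega) (mul_mem_fl w h2 h4)
    · by_cases h5 : w x ≤ m
      · have h6 := ih (m - w x) (by omega)
        have := mul_mem_fl'' w (hτ x) h6
        rwa [show w x + (m - w x) = m by omega] at this
      · have h6 := ih 0 (by omega)
        rw [fl_zero, Submodule.mem_bot] at h6
        rw [h6, mul_zero]; exact Submodule.zero_mem _

theorem sum_low [DecidableEq X] {J : Type*} [Fintype J] (x0 : X) (lam : J → k) (e : ℕ)
    (he : ∀ j, j < e → ∑ q, lam q ^ j = 0)
    (r : J → (FreeAlgebra k X →ₐ[k] FreeAlgebra k X))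
    (hr : ∀ q x, r q (FreeAlgebra.ι k x) ∈ fl w (w x + 1))
    (hd : ∀ q x, r q (FreeAlgebra.ι k x) = tra (Pi.single x0 (lam q)) (FreeAlgebra.ι k x) ∨
      ∃ m, r q (FreeAlgebra.ι k x) - tra (Pi.single x0 (lam q)) (FreeAlgebra.ι k x) ∈ fl w (m + 1)
        ∧ m + e * w x0 ≤ w x) (n : ℕ) {f : FreeAlgebra k X} (hf : f ∈ fl w (n + e * w x0)) :
    ∑ q, r q f ∈ fl w n := by
  have hτ : ∀ (q : J) (x : X), tra (Pi.single x0 (lam q)) (FreeAlgebra.ι k x) ∈ fl w (w x + 1) := by
    intro q x
    rw [tra, FreeAlgebra.lift_ι_apply]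
    refine Submodule.add_mem _ ?_ ?_
    · have : FreeAlgebra.ι k x = mon [x] := by rw [mon_cons, mon_nil, mul_one]
      rw [this]
      exact mon_mem_fl w (by rw [wt_cons, wt_nil]; omega)
    · rw [Algebra.algebraMap_eq_smul_one, ← mon_nil]
      exact Submodule.smul_mem _ _ (mon_mem_fl w (by rw [wt_nil]; omega))
  have h1 : ∑ q, (r q f - tra (Pi.single x0 (lam q)) f) ∈ fl w n := by
    refine fl_ind w (p := fun f => ∑ q, (r q f - tra (Pi.single x0 (lam q)) f) ∈ fl w n)
      hf ?_ ?_ ?_ ?_
    · intro l hl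
      exact Submodule.sum_mem _ (fun q _ => compare w (e * w x0) (hr q) (hτ q) (hd q) l n hl)
    · simp only [map_zero, sub_zero, Finset.sum_const_zero]; exact Submodule.zero_mem _
    · intro a b ha hb
      have : ∑ q, (r q (a + b) - tra (Pi.single x0 (lam q)) (a + b)) =
        ∑ q, (r q a - tra (Pi.single x0 (lam q)) a) +
        ∑ q, (r q b - tra (Pi.single x0 (lam q)) b) := by
        rw [← Finset.sum_add_distrib]
        exact Finset.sum_congr rfl (fun q _ => by rw [map_add, map_add]; abel)
      rw [this]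
      exact Submodule.add_mem _ ha hb
    · intro c a ha
      simp only [map_smul, ← smul_sub]
      rw [← Finset.smul_sum]
      exact Submodule.smul_mem _ _ ha
  have h2 : ∑ q, tra (Pi.single x0 (lam q)) f ∈ fl w n := by
    refine sum_tra_mem w Finset.univ (fun q => Pi.single x0 (lam q)) (e * w x0) ?_ n hf
    intro a ha
    by_cases h3 : ∀ y ∈ a, y = x0
    · have h4 : a = List.replicate a.length x0 := List.eq_replicate_iff.2 ⟨rfl, h3⟩
      have h5 : ∀ q : J, (a.map (Pi.single x0 (lam q) : X → k)).prod = lam q ^ a.length := by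
        intro q
        conv_lhs => rw [h4]
        rw [List.map_replicate, List.prod_replicate, Pi.single_eq_same]
      simp only [h5]
      apply he
      have h6 : wt w a = a.length * w x0 := by
        conv_lhs => rw [h4]
        rw [wt, List.map_replicate, List.sum_replicate, smul_eq_mul]
      rw [h6] at ha
      exact lt_of_mul_lt_mul_right ha (Nat.zero_le _)
    · push Not at h3
      obtain ⟨y, hy, hne⟩ := h3
      refine Finset.sum_eq_zero (fun q _ => ?_)
      refine List.prod_eq_zero ?_
      rw [List.mem_map]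
      exact ⟨y, hy, Pi.single_eq_of_ne hne _⟩
  have h3 := Submodule.add_mem _ h1 h2
  rw [← Finset.sum_add_distrib] at h3
  simpa using h3

end Step

section Induct

variable [LinearOrder X] [WellFoundedLT X] (w : X → ℕ)

theorem TD_of_free (A : ℕ) (I : Finset X) :
    ∀ (n : ℕ) (Q : Subgroup (Au k X)) [Finite Q], Nat.card Q ≤ n → Nat.card Q ≤ A →
    (∀ g ∈ Q, ∀ x, g (FreeAlgebra.ι k x) - FreeAlgebra.ι k x ∈ fl w (w x)) →
    (∀ g ∈ Q, ∀ x, ∀ z ∈ I, z < x → ∃ m, g (FreeAlgebra.ι k x) - FreeAlgebra.ι k x ∈ fl w (m + 1)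
      ∧ m + A * w z ≤ w x) →
    (∀ g ∈ Q, g ≠ 1 → ∃ x ∈ I, (∀ y, y < x → g (FreeAlgebra.ι k y) = FreeAlgebra.ι k y) ∧
      ∃ c : k, c ≠ 0 ∧ g (FreeAlgebra.ι k x) = FreeAlgebra.ι k x + algebraMap k _ c) →
    TD w Q := by
  classical
  intro n
  induction n with
  | zero =>
    intro Q _ h _ _ _ _
    have : 0 < Nat.card Q := Nat.card_pos
    omega
  | succ n ih =>
    intro Q _ hcard hcardA H1 H2 H3
    by_cases hbot : Q = ⊥
    · subst hbot
      have ht : ∀ f : FreeAlgebra k X, trc (⊥ : Subgroup (Au k X)) f = f := by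
        intro f
        rw [trc_eq]
        simp only [Finset.univ_unique, Finset.sum_singleton]
        rfl
      refine ⟨0, 1, 1, one_ne_zero, ?_, ?_, ?_⟩
      · rw [← mon_nil]; exact mon_mem_fl w (by rw [wt_nil]; omega)
      · rw [ht]; simp
      · intro n f hf; rw [ht]; exact hf
    · -- least moved variable
      obtain ⟨g0, hg0, hg0ne⟩ : ∃ g : Au k X, g ∈ Q ∧ g ≠ 1 := by
        by_contra hcon
        push Not at hcon
        exact hbot ((Subgroup.eq_bot_iff_forall Q).2 hcon)
      let Mv : Set X := {x | ∃ g ∈ Q, g (FreeAlgebra.ι k x) ≠ FreeAlgebra.ι k x}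
      have hmoved : ∀ (g : Au k X) (x : X) (c : k), c ≠ 0 →
          g (FreeAlgebra.ι k x) = FreeAlgebra.ι k x + algebraMap k _ c →
          g (FreeAlgebra.ι k x) ≠ FreeAlgebra.ι k x := by
        intro g x c hc h1 h2
        rw [h1] at h2
        have h3 : algebraMap k (FreeAlgebra k X) c = 0 := by
          simpa using h2
        exact hc ((FreeAlgebra.algebraMap_eq_zero_iff c).1 h3)
      have hMv : Mv.Nonempty := by
        obtain ⟨x, _, _, c, hc, hx⟩ := H3 g0 hg0 hg0ne
        exact ⟨x, g0, hg0, hmoved g0 x c hc hx⟩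
      let x0 : X := WellFounded.min wellFounded_lt Mv hMv
      have hx0 : x0 ∈ Mv := WellFounded.min_mem _ _ _
      have hx0min : ∀ y, y < x0 → ∀ g ∈ Q, g (FreeAlgebra.ι k y) = FreeAlgebra.ι k y := by
        intro y hy g hg
        by_contra hne
        exact WellFounded.not_lt_min wellFounded_lt Mv (show y ∈ Mv from ⟨g, hg, hne⟩) hy
      have hx0eq : ∀ g ∈ Q, g (FreeAlgebra.ι k x0) ≠ FreeAlgebra.ι k x0 →
          x0 ∈ I ∧ ∃ c : k, g (FreeAlgebra.ι k x0) = FreeAlgebra.ι k x0 + algebraMap k _ c := by
        intro g hg hne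
        have hg1 : g ≠ 1 := by rintro rfl; exact hne rfl
        obtain ⟨x, hxI, hx1, c, hc, hx2⟩ := H3 g hg hg1
        have hxx : x = x0 := by
          rcases lt_trichotomy x x0 with h | h | h
          · exact absurd (hx0min x h g hg) (hmoved g x c hc hx2)
          · exact h
          · exact absurd (hx1 x0 h) hne
        subst hxx
        exact ⟨hxI, c, hx2⟩
      have hx0I : x0 ∈ I := by
        obtain ⟨g, hg, hne⟩ := hx0
        exact (hx0eq g hg hne).1
      have hlam : ∀ g : Q, ∃ c : k, (g : Au k X) (FreeAlgebra.ι k x0) =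
          FreeAlgebra.ι k x0 + algebraMap k _ c := by
        intro g
        by_cases h : (g : Au k X) (FreeAlgebra.ι k x0) = FreeAlgebra.ι k x0
        · exact ⟨0, by simpa using h⟩
        · exact (hx0eq g g.2 h).2
      choose lam hlam using hlam
      -- the stabiliser
      let Q' : Subgroup (Au k X) := Q ⊓ MulAction.stabilizer (Au k X) (FreeAlgebra.ι k x0)
      have hle : Q' ≤ Q := inf_le_left
      have hmemQ' : ∀ g, g ∈ Q' ↔ g ∈ Q ∧ g (FreeAlgebra.ι k x0) = FreeAlgebra.ι k x0 := by
        intro g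
        exact Iff.rfl
      have hfinQ' : Finite Q' := Finite.of_injective _ (Subgroup.inclusion_injective hle)
      have hlt : Nat.card Q' < Nat.card Q := by
        refine lt_of_le_of_ne (Subgroup.card_le_of_le hle) (fun h => ?_)
        have : Q' = Q := Subgroup.eq_of_le_of_card_ge hle h.ge
        obtain ⟨g, hg, hne⟩ := hx0
        rw [← this] at hg
        exact hne ((hmemQ' g).1 hg).2
      obtain ⟨N', c', κ', hκ', hc', htc', hlow'⟩ := ih Q' (by omega) (by omega)
        (fun g hg => H1 g (hle hg)) (fun g hg => H2 g (hle hg)) (fun g hg => H3 g (hle hg))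
      let _ : Fintype (Q ⧸ Q'.subgroupOf Q) := Fintype.ofFinite _
      -- distinct constants
      have hinj : Function.Injective (fun q : Q ⧸ Q'.subgroupOf Q => lam q.out) := by
        intro q q' hqq
        simp only at hqq
        have h1 : (q.out : Au k X) (FreeAlgebra.ι k x0) =
            (q'.out : Au k X) (FreeAlgebra.ι k x0) := by
          rw [hlam, hlam, hqq]
        have h2 : q.out⁻¹ * q'.out ∈ Q'.subgroupOf Q := by
          rw [Subgroup.mem_subgroupOf, hmemQ']
          refine ⟨(q.out⁻¹ * q'.out).2, ?_⟩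
          have : ((q.out⁻¹ * q'.out : Q) : Au k X) (FreeAlgebra.ι k x0) =
              ((q.out : Au k X))⁻¹ ((q'.out : Au k X) (FreeAlgebra.ι k x0)) := rfl
          rw [this, ← h1]
          exact AlgEquiv.symm_apply_apply _ _
        have h3 := QuotientGroup.eq.2 h2
        rw [QuotientGroup.out_eq', QuotientGroup.out_eq'] at h3
        exact h3
      have hex : ∃ j, ∑ q : Q ⧸ Q'.subgroupOf Q, lam q.out ^ j ≠ 0 := by
        obtain ⟨j, _, hj⟩ := exists_pow_sum_ne _ hinj
        exact ⟨j, hj⟩
      set e := Nat.find hex with he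
      have he1 : ∑ q : Q ⧸ Q'.subgroupOf Q, lam q.out ^ e ≠ 0 := Nat.find_spec hex
      have he2 : ∀ j, j < e → ∑ q : Q ⧸ Q'.subgroupOf Q, lam q.out ^ j = 0 := by
        intro j hj
        by_contra h
        exact Nat.find_min hex hj h
      have heA : e ≤ A := by
        obtain ⟨j, hj1, hj2⟩ := exists_pow_sum_ne _ hinj
        have h1 : e ≤ j := Nat.find_min' hex hj2
        have h2 : Fintype.card (Q ⧸ Q'.subgroupOf Q) ≤ Nat.card Q := by
          rw [← Nat.card_eq_fintype_card]
          exact Nat.card_le_card_of_surjective _ QuotientGroup.mk_surjective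
        omega
      -- filtered
      have hfilt : ∀ g ∈ Q, ∀ x, g (FreeAlgebra.ι k x) ∈ fl w (w x + 1) := by
        intro g hg x
        have h1 := fl_mono w (Nat.le_succ _) (H1 g hg x)
        have h2 : (FreeAlgebra.ι k x : FreeAlgebra k X) ∈ fl w (w x + 1) := by
          have : FreeAlgebra.ι k x = mon [x] := by rw [mon_cons, mon_nil, mul_one]
          rw [this]
          exact mon_mem_fl w (by rw [wt_cons, wt_nil]; omega)
        have h3 := Submodule.add_mem _ h1 h2
        rwa [sub_add_cancel] at h3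
      have hlow2 : ∀ (m : ℕ) (f : FreeAlgebra k X), f ∈ fl w (m + e * w x0) →
          ∑ q : Q ⧸ Q'.subgroupOf Q, ((q.out : Q) : Au k X) f ∈ fl w m := by
        intro m f hf
        refine sum_low w x0 (fun q : Q ⧸ Q'.subgroupOf Q => lam q.out) e he2
          (fun q => (((q.out : Q) : Au k X) : FreeAlgebra k X →ₐ[k] FreeAlgebra k X)) ?_ ?_ m hf
        · intro q x
          exact hfilt _ q.out.2 x
        · intro q x
          rcases lt_trichotomy x x0 with h | h | h
          · left
            change (q.out : Au k X) (FreeAlgebra.ι k x) = _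
            rw [hx0min x h _ q.out.2, tra, FreeAlgebra.lift_ι_apply, Pi.single_eq_of_ne h.ne]
            simp
          · left
            rw [h]
            change (q.out : Au k X) (FreeAlgebra.ι k x0) = _
            rw [hlam, tra, FreeAlgebra.lift_ι_apply, Pi.single_eq_same]
          · right
            obtain ⟨m, hm1, hm2⟩ := H2 _ q.out.2 x x0 hx0I h
            refine ⟨m, ?_, ?_⟩
            · rw [tra, FreeAlgebra.lift_ι_apply, Pi.single_eq_of_ne h.ne', map_zero, add_zero]
              exact hm1
            · have := Nat.mul_le_mul_right (w x0) heA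
              omega
      refine ⟨N' + e * w x0, FreeAlgebra.ι k x0 ^ e * c', κ' * ∑ q : Q ⧸ Q'.subgroupOf Q,
        lam q.out ^ e, mul_ne_zero hκ' he1, ?_, ?_, ?_⟩
      · have h1 : ∀ j : ℕ, (FreeAlgebra.ι k x0 ^ j : FreeAlgebra k X) ∈ fl w (j * w x0 + 1) := by
          intro j
          have : (FreeAlgebra.ι k x0 ^ j : FreeAlgebra k X) = mon (List.replicate j x0) := by
            rw [mon, List.map_replicate, List.prod_replicate]
          rw [this]
          refine mon_mem_fl w ?_
          rw [wt, List.map_replicate, List.sum_replicate, smul_eq_mul]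
          omega
        have h2 := mul_mem_fl w (h1 e) hc'
        rwa [show N' + e * w x0 + 1 = e * w x0 + N' + 1 by omega]
      · rw [trc_decomp Q' Q hle, trc_mul Q' _ _ (fun g hg => by rw [map_pow, ((hmemQ' g).1 hg).2]),
          htc']
        have h1 : ∀ q : Q ⧸ Q'.subgroupOf Q,
            (q.out : Au k X) (FreeAlgebra.ι k x0 ^ e * algebraMap k _ κ') =
            (∑ m ∈ Finset.range (e + 1), FreeAlgebra.ι k x0 ^ m *
              algebraMap k _ (lam q.out ^ (e - m)) * (e.choose m : FreeAlgebra k X)) *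
              algebraMap k _ κ' := by
          intro q
          rw [map_mul, AlgEquiv.commutes, map_pow, hlam]
          rw [Commute.add_pow (Algebra.commutes _ _).symm]
          simp only [map_pow]
        simp only [h1]
        rw [← Finset.sum_mul, Finset.sum_comm]
        have h2 : ∀ m ∈ Finset.range (e + 1), m ≠ 0 →
            ∑ q : Q ⧸ Q'.subgroupOf Q, (FreeAlgebra.ι k x0 ^ m *
              algebraMap k _ (lam q.out ^ (e - m)) * (e.choose m : FreeAlgebra k X)) = 0 := by
          intro m hm hm0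
          rw [← Finset.sum_mul, ← Finset.mul_sum, ← map_sum, he2 (e - m) (by
            rw [Finset.mem_range] at hm; omega)]
          simp
        rw [Finset.sum_eq_single_of_mem 0 (by simp) h2]
        simp only [pow_zero, one_mul, Nat.sub_zero, Nat.choose_zero_right, Nat.cast_one, mul_one]
        rw [← map_sum, ← map_mul, mul_comm]
      · intro m f hf
        rw [trc_decomp Q' Q hle]
        refine hlow2 m _ (hlow' _ f ?_)
        rwa [show m + e * w x0 + N' = m + (N' + e * w x0) by omega]

end Induct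

section Final

theorem letters {Z : Set X} {f : FreeAlgebra k X}
    (hf : f ∈ Algebra.adjoin k (FreeAlgebra.ι k '' Z)) :
    ∀ l, bs.repr f l ≠ 0 → ∀ y ∈ l, y ∈ Z := by
  have key : f ∈ Submodule.span k ((mon : List X → FreeAlgebra k X) '' {l | ∀ y ∈ l, y ∈ Z}) := by
    refine Algebra.adjoin_induction
      (p := fun f _ => f ∈ Submodule.span k
        ((mon : List X → FreeAlgebra k X) '' {l | ∀ y ∈ l, y ∈ Z})) ?_ ?_ ?_ ?_ hf
    · rintro _ ⟨y, hy, rfl⟩
      refine Submodule.subset_span ⟨[y], ?_, ?_⟩
      · simpa using hy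
      · rw [mon_cons, mon_nil, mul_one]
    · intro c
      rw [Algebra.algebraMap_eq_smul_one, ← mon_nil]
      exact Submodule.smul_mem _ _ (Submodule.subset_span ⟨[], by simp, rfl⟩)
    · intro a b _ _ ha hb
      exact Submodule.add_mem _ ha hb
    · intro a b _ _ ha hb
      refine Submodule.span_induction (p := fun a _ => a * b ∈ Submodule.span k
        ((mon : List X → FreeAlgebra k X) '' {l | ∀ y ∈ l, y ∈ Z})) ?_ ?_ ?_ ?_ ha
      · rintro _ ⟨l, hl, rfl⟩
        refine Submodule.span_induction (p := fun b _ => mon l * b ∈ Submodule.span k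
          ((mon : List X → FreeAlgebra k X) '' {l | ∀ y ∈ l, y ∈ Z})) ?_ ?_ ?_ ?_ hb
        · rintro _ ⟨l', hl', rfl⟩
          refine Submodule.subset_span ⟨l ++ l', ?_, mon_append _ _⟩
          intro y hy
          rcases List.mem_append.1 hy with h | h
          · exact hl y h
          · exact hl' y h
        · rw [mul_zero]; exact Submodule.zero_mem _
        · intro a b _ _ h1 h2; rw [mul_add]; exact Submodule.add_mem _ h1 h2
        · intro c a _ h1; rw [mul_smul_comm]; exact Submodule.smul_mem _ _ h1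
      · rw [zero_mul]; exact Submodule.zero_mem _
      · intro a b _ _ h1 h2; rw [add_mul]; exact Submodule.add_mem _ h1 h2
      · intro c a _ h1; rw [smul_mul_assoc]; exact Submodule.smul_mem _ _ h1
  rw [← coe_bs, Basis.mem_span_image] at key
  intro l hl
  exact key (by simpa using hl)

variable [LinearOrder X]

/-- Polynomials in the variables below `x`. -/
abbrev below (k : Type u) [Field k] {X : Type v} [LinearOrder X] (x : X) :
    Subalgebra k (FreeAlgebra k X) :=
  Algebra.adjoin k (FreeAlgebra.ι k '' Set.Iio x)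

theorem exists_weights [WellFoundedLT X] {J : Type*} (G' : Finset J)
    (f : J → X → FreeAlgebra k X) (hf : ∀ j ∈ G', ∀ x, f j x ∈ below k x) (I : Finset X) (A : ℕ) :
    ∃ w : X → ℕ, (∀ x, 0 < w x) ∧ (∀ j ∈ G', ∀ x, f j x ∈ fl w (w x)) ∧
      (∀ j ∈ G', ∀ x, ∀ z ∈ I, z < x → ∃ m, f j x ∈ fl w (m + 1) ∧ m + A * w z ≤ w x) := by
  let F : (x : X) → ((y : X) → y < x → ℕ) → ℕ := fun x rec =>
    1 + ∑ j ∈ G', (bs.repr (f j x)).support.sup
      (fun l => (l.map (fun y => if h : y < x then rec y h else 0)).sum) +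
    A * ∑ z ∈ I, (if h : z < x then rec z h else 0)
  let w : X → ℕ := (wellFounded_lt (α := X)).fix F
  have hwx : ∀ x, w x = F x (fun y _ => w y) := fun x => WellFounded.fix_eq _ F x
  have htop : ∀ j ∈ G', ∀ x, f j x ∈ fl w ((bs.repr (f j x)).support.sup
      (fun l => (l.map (fun y => if h : y < x then w y else 0)).sum) + 1) := by
    intro j hj x
    rw [mem_fl]
    intro l hl
    have h1 : (l.map (fun y => if h : y < x then w y else 0)).sum ≤
        (bs.repr (f j x)).support.sup
          (fun l => (l.map (fun y => if h : y < x then w y else 0)).sum) :=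
      Finset.le_sup (f := fun l : List X =>
        (l.map (fun y => if h : y < x then w y else 0)).sum) (by simpa using hl)
    have h2 : (l.map (fun y => if h : y < x then w y else 0)).sum = wt w l := by
      rw [wt]
      congr 1
      refine List.map_congr_left (fun y hy => ?_)
      exact dif_pos (Set.mem_Iio.1 (letters (hf j hj x) l hl y hy))
    omega
  have hle : ∀ j ∈ G', ∀ x, (bs.repr (f j x)).support.sup
      (fun l => (l.map (fun y => if h : y < x then w y else 0)).sum) ≤
      ∑ j ∈ G', (bs.repr (f j x)).support.sup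
      (fun l => (l.map (fun y => if h : y < x then w y else 0)).sum) := by
    intro j hj x
    exact Finset.single_le_sum (f := fun j => (bs.repr (f j x)).support.sup
      (fun l => (l.map (fun y => if h : y < x then w y else 0)).sum)) (fun _ _ => Nat.zero_le _) hj
  refine ⟨w, ?_, ?_, ?_⟩
  · intro x
    rw [hwx]
    simp only [F]
    omega
  · intro j hj x
    refine fl_mono w ?_ (htop j hj x)
    have h1 := hle j hj x
    have h2 := hwx x
    simp only [F] at h2
    omega
  · intro j hj x z hz hzx
    refine ⟨_, htop j hj x, ?_⟩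
    have h1 := hle j hj x
    have h2 := hwx x
    simp only [F] at h2
    have h3 : w z ≤ ∑ z ∈ I, (if h : z < x then w z else 0) := by
      have := Finset.single_le_sum (f := fun z => if h : z < x then w z else 0)
        (fun _ _ => Nat.zero_le _) hz
      simp only [dif_pos hzx] at this
      exact this
    have h4 := Nat.mul_le_mul_left A h3
    omega

theorem map_below {g : FreeAlgebra k X →ₐ[k] FreeAlgebra k X}
    (hg : ∀ x, ∃ a : k, g (FreeAlgebra.ι k x) - a • FreeAlgebra.ι k x ∈ below k x) {x : X}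
    {f : FreeAlgebra k X} (hf : f ∈ below k x) : g f ∈ below k x := by
  have h : Algebra.adjoin k (FreeAlgebra.ι k '' Set.Iio x) ≤ (below k x).comap g := by
    rw [Algebra.adjoin_le_iff]
    rintro _ ⟨y, hy, rfl⟩
    change g (FreeAlgebra.ι k y) ∈ below k x
    obtain ⟨a, ha⟩ := hg y
    have h1 : below k y ≤ below k x :=
      Algebra.adjoin_mono (Set.image_mono (Set.Iio_subset_Iio (le_of_lt hy)))
    have h2 : FreeAlgebra.ι k y ∈ below k x := Algebra.subset_adjoin ⟨y, hy, rfl⟩
    have h3 := Subalgebra.add_mem _ (h1 ha) (Subalgebra.smul_mem _ h2 a)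
    rwa [sub_add_cancel] at h3
  exact h hf

theorem ι_not_below {x : X} {a : k} (h : a • FreeAlgebra.ι k x ∈ below k x) : a = 0 := by
  by_contra ha
  have h1 : (bs.repr (a • FreeAlgebra.ι k x : FreeAlgebra k X)) [x] ≠ 0 := by
    have : FreeAlgebra.ι k x = mon [x] := by rw [mon_cons, mon_nil, mul_one]
    rw [this, map_smul, repr_mon]
    simpa using ha
  have h2 := letters h [x] h1 x (by simp)
  exact lt_irrefl x h2

variable [WellFoundedLT X]

/-- Finite triangular groups whose unipotent elements act freely have free fixed algebra. -/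
theorem triangular (G : Subgroup (Au k X)) [Finite G]
    (htri : ∀ g ∈ G, ∀ x, ∃ a : k, g (FreeAlgebra.ι k x) - a • FreeAlgebra.ι k x ∈ below k x)
    (hfree : ∀ g ∈ G, g ≠ 1 →
      (∀ x, g (FreeAlgebra.ι k x) - FreeAlgebra.ι k x ∈ below k x) →
      ∃ x, (∀ y, y < x → g (FreeAlgebra.ι k y) = FreeAlgebra.ι k y) ∧
        ∃ c : k, c ≠ 0 ∧ g (FreeAlgebra.ι k x) = FreeAlgebra.ι k x + algebraMap k _ c) :
    ∃ Y : Set (fixedG G), Function.Bijective
      (FreeAlgebra.lift k (fun y : Y => (y : fixedG G))) := by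
  classical
  let _ := Fintype.ofFinite G
  -- the unipotent part
  let P : Subgroup (Au k X) :=
    { carrier := {g | g ∈ G ∧ ∀ x, g (FreeAlgebra.ι k x) - FreeAlgebra.ι k x ∈ below k x}
      one_mem' := ⟨G.one_mem, fun x => by simp⟩
      mul_mem' := by
        rintro g h ⟨hg1, hg2⟩ ⟨hh1, hh2⟩
        refine ⟨G.mul_mem hg1 hh1, fun x => ?_⟩
        have h1 : (g * h) (FreeAlgebra.ι k x) - FreeAlgebra.ι k x =
            g (h (FreeAlgebra.ι k x) - FreeAlgebra.ι k x) +
            (g (FreeAlgebra.ι k x) - FreeAlgebra.ι k x) := by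
          rw [map_sub]
          change g (h (FreeAlgebra.ι k x)) - _ = _
          abel
        rw [h1]
        exact Subalgebra.add_mem _ (map_below (g := (g : FreeAlgebra k X →ₐ[k] FreeAlgebra k X))
          (fun x => htri g hg1 x) (hh2 x)) (hg2 x)
      inv_mem' := by
        rintro g ⟨hg1, hg2⟩
        refine ⟨G.inv_mem hg1, fun x => ?_⟩
        have h1 : g⁻¹ (FreeAlgebra.ι k x) - FreeAlgebra.ι k x =
            - g⁻¹ (g (FreeAlgebra.ι k x) - FreeAlgebra.ι k x) := by
          rw [map_sub]
          have : g⁻¹ (g (FreeAlgebra.ι k x)) = FreeAlgebra.ι k x := AlgEquiv.symm_apply_apply g _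
          rw [this]
          abel
        rw [h1]
        exact Subalgebra.neg_mem _ (map_below
          (g := ((g⁻¹ : Au k X) : FreeAlgebra k X →ₐ[k] FreeAlgebra k X))
          (fun x => htri _ (G.inv_mem hg1) x) (hg2 x)) }
  have hPG : P ≤ G := fun g hg => hg.1
  have hmemP : ∀ g, g ∈ P ↔ g ∈ G ∧
      ∀ x, g (FreeAlgebra.ι k x) - FreeAlgebra.ι k x ∈ below k x := fun g => Iff.rfl
  have hPfin : Finite P := Finite.of_injective _ (Subgroup.inclusion_injective hPG)
  -- index
  have hidx : (P.relIndex G : k) ≠ 0 := by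
    intro h0
    obtain ⟨p, hp⟩ := CharP.exists k
    rw [CharP.cast_eq_zero_iff k p] at h0
    have hidx0 : P.relIndex G ≠ 0 := Subgroup.index_ne_zero_of_finite
    rcases CharP.char_is_prime_or_zero k p with hp1 | hp1
    · have : Fact p.Prime := ⟨hp1⟩
      obtain ⟨S⟩ : Nonempty (Sylow p G) := inferInstance
      have hS : (S : Subgroup G) ≤ P.subgroupOf G := by
        intro g hg
        rw [Subgroup.mem_subgroupOf, hmemP]
        refine ⟨g.2, fun x => ?_⟩
        obtain ⟨m, hm⟩ := S.isPGroup' ⟨g, hg⟩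
        have hm' : (g : Au k X) ^ p ^ m = 1 := by
          have := congrArg (fun s : S => ((s : G) : Au k X)) hm
          simpa using this
        obtain ⟨a, ha⟩ := htri g g.2 x
        have h1 : ∀ n : ℕ, ((g : Au k X) ^ n) (FreeAlgebra.ι k x) - a ^ n • FreeAlgebra.ι k x ∈
            below k x := by
          intro n
          induction n with
          | zero => simp
          | succ n ih =>
            have h2 : ((g : Au k X) ^ (n + 1)) (FreeAlgebra.ι k x) -
                a ^ (n + 1) • FreeAlgebra.ι k x =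
                (g : Au k X) (((g : Au k X) ^ n) (FreeAlgebra.ι k x) -
                  a ^ n • FreeAlgebra.ι k x) +
                a ^ n • ((g : Au k X) (FreeAlgebra.ι k x) - a • FreeAlgebra.ι k x) := by
              rw [map_sub, map_smul, pow_succ' (g : Au k X), smul_sub, smul_smul, ← pow_succ]
              change (g : Au k X) (((g : Au k X) ^ n) (FreeAlgebra.ι k x)) - _ = _
              abel
            rw [h2]
            exact Subalgebra.add_mem _ (map_below
              (g := ((g : Au k X) : FreeAlgebra k X →ₐ[k] FreeAlgebra k X))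
              (fun x => htri g g.2 x) ih) (Subalgebra.smul_mem _ ha _)
        have h2 := h1 (p ^ m)
        rw [hm'] at h2
        have h3 : ((1 : k) - a ^ p ^ m) • FreeAlgebra.ι k x ∈ below k x := by
          rw [sub_smul, one_smul]
          exact h2
        have h4 := ι_not_below h3
        have h5 : (1 - a) ^ p ^ m = 0 := by
          rw [sub_pow_char_pow, one_pow]
          exact h4
        have h6 : a = 1 := (sub_eq_zero.1 (eq_zero_of_pow_eq_zero h5)).symm
        rw [h6, one_smul] at ha
        exact ha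
      have h1 : P.relIndex G ∣ (S : Subgroup G).index := Subgroup.index_dvd_of_le hS
      exact S.not_dvd_index (h0.trans h1)
    · rw [hp1] at h0
      exact hidx0 (Nat.eq_zero_of_zero_dvd h0)
  -- coefficients
  have hcoef : ∀ g : G, ∀ x, ∃ a : k,
      ((g : Au k X) (FreeAlgebra.ι k x) - a • FreeAlgebra.ι k x ∈ below k x) ∧
      ((g : Au k X) ∈ P → a = 1) := by
    intro g x
    by_cases hg : (g : Au k X) ∈ P
    · exact ⟨1, by rw [one_smul]; exact hg.2 x, fun _ => rfl⟩
    · obtain ⟨a, ha⟩ := htri g g.2 x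
      exact ⟨a, ha, fun h => absurd h hg⟩
  choose a ha1 ha2 using hcoef
  -- least moved variables
  have hlm : ∀ g : {g : G // (g : Au k X) ∈ P ∧ g ≠ 1}, ∃ x : X,
      (∀ y, y < x → (g.1 : Au k X) (FreeAlgebra.ι k y) = FreeAlgebra.ι k y) ∧
        ∃ c : k, c ≠ 0 ∧
          (g.1 : Au k X) (FreeAlgebra.ι k x) = FreeAlgebra.ι k x + algebraMap k _ c := by
    rintro ⟨g, hg1, hg2⟩
    exact hfree g g.2 (fun h => hg2 (Subtype.ext h)) hg1.2
  choose lm hlm1 hlm2 using hlm
  let I : Finset X := Finset.univ.image lm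
  obtain ⟨w, hw1, hw2, hw3⟩ := exists_weights (Finset.univ : Finset G)
    (fun g x => (g : Au k X) (FreeAlgebra.ι k x) - a g x • FreeAlgebra.ι k x)
    (fun g _ x => ha1 g x) I (Nat.card P)
  have hTD : TD w P := by
    refine TD_of_free w (Nat.card P) I (Nat.card P) P le_rfl le_rfl ?_ ?_ ?_
    · intro g hg x
      have h1 := hw2 ⟨g, hPG hg⟩ (Finset.mem_univ _) x
      simp only [ha2 ⟨g, hPG hg⟩ x hg, one_smul] at h1
      exact h1
    · intro g hg x z hz hzx
      have h1 := hw3 ⟨g, hPG hg⟩ (Finset.mem_univ _) x z hz hzx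
      simp only [ha2 ⟨g, hPG hg⟩ x hg, one_smul] at h1
      exact h1
    · intro g hg hg1
      let g' : {g : G // (g : Au k X) ∈ P ∧ g ≠ 1} :=
        ⟨⟨g, hPG hg⟩, hg, fun h => hg1 (congrArg Subtype.val h)⟩
      exact ⟨lm g', Finset.mem_image_of_mem _ (Finset.mem_univ _), hlm1 g', hlm2 g'⟩
  have hfilt : ∀ g ∈ G, Filt w g := by
    intro g hg x
    have h1 := fl_mono w (Nat.le_succ _) (hw2 ⟨g, hg⟩ (Finset.mem_univ _) x)
    have h2 : (FreeAlgebra.ι k x : FreeAlgebra k X) ∈ fl w (w x + 1) := by
      have : FreeAlgebra.ι k x = mon [x] := by rw [mon_cons, mon_nil, mul_one]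
      rw [this]
      exact mon_mem_fl w (by rw [wt_cons, wt_nil]; omega)
    have h3 := Submodule.add_mem _ h1 (Submodule.smul_mem _ (a ⟨g, hg⟩ x) h2)
    rwa [sub_add_cancel] at h3
  exact free_of_RC w hw1 _ (RC_of_TD w G (TD_of_index w P G hPG hfilt hidx hTD))

end Final

end Pool.Agent.Helper71.FreeTri
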