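import Pool.Agent.Helper71.Polar

set_option autoImplicit false

namespace Pool.Agent.Helper71

open Finset

/-- Artin-type lemma: more vectors than the dimension of a finite dimensional space `E`
stable under left multiplication by `a` admit a relation with coefficients commuting with `a`. -/
theorem exists_relation {F D : Type*} [Field F] [DivisionRing D] [Algebra F D] (a : D)
    (E : Submodule F D) [FiniteDimensional F E] (h1 : (1 : D) ∈ E) (haE : ∀ e ∈ E, a * e ∈ E)
    {ι : Type*} [Fintype ι] [DecidableEq ι] (v : ι → D)
    (hcard : Module.finrank F E < Fintype.card ι) :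
    ∃ d : ι → D, d ≠ 0 ∧ (∀ j, d j * a = a * d j) ∧ ∑ j, d j * v j = 0 := by
  classical
  -- the set of solutions
  let K : (ι → D) → Prop := fun d => ∀ e ∈ E, ∑ j, d j * e * v j = 0
  have hexist : ∃ d : ι → D, d ≠ 0 ∧ K d := by
    let b := Module.finBasis F E
    let Φ : (ι → D) →ₗ[D] (Fin (Module.finrank F E) → D) :=
      { toFun := fun d i => ∑ j, d j * (b i : D) * v j
        map_add' := by
          intro x y
          funext i
          simp only [Pi.add_apply, add_mul, Finset.sum_add_distrib]
        map_smul' := by
          intro r x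
          funext i
          simp only [Pi.smul_apply, smul_eq_mul, RingHom.id_apply, Finset.mul_sum, mul_assoc] }
    have hker : LinearMap.ker Φ ≠ ⊥ := by
      apply LinearMap.ker_ne_bot_of_finrank_lt
      simpa using hcard
    obtain ⟨d, hd, hd0⟩ := (Submodule.ne_bot_iff _).mp hker
    refine ⟨d, hd0, ?_⟩
    intro e he
    have hΦ : ∀ i, ∑ j, d j * (b i : D) * v j = 0 := fun i => congrFun (LinearMap.mem_ker.mp hd) i
    have he2 : e = ∑ i, b.repr ⟨e, he⟩ i • (b i : D) := by
      have h5 := congrArg (E.subtype) (b.sum_repr ⟨e, he⟩)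
      rw [map_sum] at h5
      simp only [map_smul, Submodule.subtype_apply] at h5
      exact h5.symm
    rw [he2]
    have : ∑ j, d j * (∑ i, b.repr ⟨e, he⟩ i • (b i : D)) * v j
        = ∑ i, b.repr ⟨e, he⟩ i • ∑ j, d j * (b i : D) * v j := by
      simp_rw [Finset.mul_sum, Finset.sum_mul, Finset.smul_sum]
      rw [Finset.sum_comm]
      refine Finset.sum_congr rfl fun i _ => Finset.sum_congr rfl fun j _ => ?_
      simp only [mul_smul_comm, smul_mul_assoc]
    rw [this]
    simp [hΦ]
  -- minimal support
  have hex : ∃ k, ∃ d : ι → D, d ≠ 0 ∧ K d ∧ (Finset.univ.filter (fun j => d j ≠ 0)).card = k := by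
    obtain ⟨d, h1, h2⟩ := hexist
    exact ⟨_, d, h1, h2, rfl⟩
  obtain ⟨d, hd0, hdK, hdk⟩ := Nat.find_spec hex
  have hmin : ∀ d' : ι → D, K d' → (Finset.univ.filter (fun j => d' j ≠ 0)).card <
      (Finset.univ.filter (fun j => d j ≠ 0)).card → d' = 0 := by
    intro d' h2 h3
    by_contra h4
    rw [hdk] at h3
    exact Nat.find_min hex h3 ⟨d', h4, h2, rfl⟩
  obtain ⟨j₀, hj₀⟩ : ∃ j₀, d j₀ ≠ 0 := Function.ne_iff.mp hd0
  set u : ι → D := fun j => (d j₀)⁻¹ * d j with hu
  have huK : K u := by
    intro e he
    have := congrArg (fun t => (d j₀)⁻¹ * t) (hdK e he)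
    simp only [mul_zero, Finset.mul_sum] at this
    rw [← this]
    refine Finset.sum_congr rfl fun j _ => ?_
    simp only [hu, mul_assoc]
  have hu1 : u j₀ = 1 := by simp [hu, hj₀]
  have hcomm : (fun j => u j * a - a * u j) = 0 := by
    apply hmin
    · intro e he
      have e1 := huK (a * e) (haE e he)
      have e2 := congrArg (fun t => a * t) (huK e he)
      simp only [mul_zero, Finset.mul_sum] at e2
      have : ∑ j, (u j * a - a * u j) * e * v j
          = ∑ j, u j * (a * e) * v j - ∑ j, a * (u j * e * v j) := by
        rw [← Finset.sum_sub_distrib]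
        refine Finset.sum_congr rfl fun j _ => ?_
        noncomm_ring
      rw [this, e1, e2, sub_zero]
    · apply Finset.card_lt_card
      rw [Finset.ssubset_iff_of_subset]
      · refine ⟨j₀, by simp [hj₀], ?_⟩
        simp [hu1]
      · intro j
        simp only [Finset.mem_filter, Finset.mem_univ, true_and]
        intro h2 h3
        apply h2
        simp [hu, h3]
  refine ⟨u, ?_, ?_, ?_⟩
  · intro h0
    have := congrFun h0 j₀
    rw [hu1] at this
    exact one_ne_zero this
  · intro j
    have := congrFun hcomm j
    exact sub_eq_zero.mp this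
  · have := huK 1 h1
    simpa using this

/-- The centralizer of an element, as a division subring. -/
def cent {D : Type*} [DivisionRing D] (a : D) : Subfield D where
  toSubring := Subring.centralizer {a}
  inv_mem' := by
    intro x hx
    have hx' : ∀ m ∈ ({a} : Set D), m * x = x * m := hx
    show ∀ m ∈ ({a} : Set D), m * x⁻¹ = x⁻¹ * m
    intro m hm
    by_cases h0 : x = 0
    · subst h0; simp
    · have h1 := hx' m hm
      rw [eq_inv_mul_iff_mul_eq₀ h0, ← mul_assoc, ← h1, mul_assoc, mul_inv_cancel₀ h0, mul_one]

theorem mem_cent {D : Type*} [DivisionRing D] (a x : D) : x ∈ cent a ↔ a * x = x * a := by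
  constructor
  · intro h
    have h' : ∀ m ∈ ({a} : Set D), m * x = x * m := h
    exact h' a rfl
  · intro h
    show ∀ m ∈ ({a} : Set D), m * x = x * m
    rintro m rfl
    exact h

/-- `D` is finite dimensional over the centralizer of an algebraic element. -/
theorem finite_over_cent {F D : Type*} [Field F] [DivisionRing D] [Algebra F D] (a : D)
    (ha : IsAlgebraic F a) : Module.Finite (cent a) D := by
  classical
  have hint : IsIntegral F a := ha.isIntegral
  have : FiniteDimensional F (Algebra.adjoin F {a}) :=
    Algebra.finite_adjoin_simple_of_isIntegral hint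
  let E : Submodule F D := Subalgebra.toSubmodule (Algebra.adjoin F {a})
  have : FiniteDimensional F E := ‹FiniteDimensional F (Algebra.adjoin F {a})›
  have h1 : (1 : D) ∈ E := (Algebra.adjoin F {a}).one_mem
  have haE : ∀ e ∈ E, a * e ∈ E := fun e he =>
    (Algebra.adjoin F {a}).mul_mem (Algebra.self_mem_adjoin_singleton F a) he
  have hr : Module.rank (cent a) D ≤ (Module.finrank F E : ℕ) := by
    apply rank_le
    intro s hs
    by_contra hcon
    push Not at hcon
    obtain ⟨d, hd0, hdc, hdv⟩ := exists_relation a E h1 haE (fun j : s => (j : D))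
      (by simpa using hcon)
    have h2 : ∀ j, d j ∈ cent a := fun j => (mem_cent a _).mpr (hdc j).symm
    have h3 := Fintype.linearIndependent_iff.mp hs (fun j => ⟨d j, h2 j⟩) (by
      simpa [Subfield.smul_def] using hdv)
    apply hd0
    funext j
    have := h3 j
    exact congrArg Subtype.val this
  rw [← Module.rank_lt_aleph0_iff]
  exact lt_of_le_of_lt hr (Cardinal.natCast_lt_aleph0)

/-- A ring that is finite dimensional as a left module over a commutative subfield satisfies a
multilinear identity. -/
theorem exists_mlid_of_finite {F L D : Type*} [Field F] [Field L] [DivisionRing D] [Algebra F D]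
    [Module L D] [IsScalarTower L D D] [Module.Finite L D] :
    ∃ (m : ℕ) (c : Equiv.Perm (Fin m) → F), c ≠ 0 ∧ MLId F D m c := by
  classical
  set N := Module.finrank L (Module.End L D) with hN
  let R : D → Module.End L D := fun z =>
    { toFun := fun y => y * z
      map_add' := fun x y => add_mul x y z
      map_smul' := fun r x => by simp [smul_mul_assoc] }
  have hRapply : ∀ z y, R z y = y * z := fun z y => rfl
  have hprod : ∀ (l : List D) (y : D), ((l.map R).prod) y = y * l.reverse.prod := by
    intro l
    induction l with
    | nil => intro y; simp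
    | cons x l ih =>
      intro y
      rw [List.map_cons, List.prod_cons, Module.End.mul_apply, ih, hRapply, List.reverse_cons,
        List.prod_append]
      simp [mul_assoc]
  let alt := MultilinearMap.alternatization (MultilinearMap.mkPiAlgebraFin L (N+1) (Module.End L D))
  have halt : ∀ z : Fin (N+1) → D, alt (fun i => R (z i)) = 0 := by
    intro z
    apply AlternatingMap.map_linearDependent
    intro hli
    have := hli.fintype_card_le_finrank
    simp at this
    omega
  have hrev : ∀ z : Fin (N+1) → D, (List.ofFn z).reverse = List.ofFn (fun i => z (Fin.rev i)) := by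
    intro z
    apply List.ext_getElem
    · simp
    · intro i h1 h2
      simp only [List.getElem_reverse, List.getElem_ofFn, List.length_ofFn]
      congr 1
      apply Fin.ext
      simp [Fin.val_rev]
  have hstd : ∀ z : Fin (N+1) → D, ∑ σ : Equiv.Perm (Fin (N+1)),
      ((Equiv.Perm.sign σ : ℤ) : F) • (List.ofFn (fun i => z (σ (Fin.rev i)))).prod = 0 := by
    intro z
    have h1 := halt z
    simp only [alt, MultilinearMap.alternatization_apply, MultilinearMap.domDomCongr_apply,
      MultilinearMap.mkPiAlgebraFin_apply] at h1
    have h2 := congrArg (fun f : Module.End L D => f 1) h1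
    simp only [LinearMap.sum_apply, LinearMap.zero_apply] at h2
    rw [← h2]
    refine Finset.sum_congr rfl fun σ _ => ?_
    have h3 : (List.ofFn (fun i => R (z (σ i)))) = (List.ofFn (fun i => z (σ i))).map R := by
      rw [List.map_ofFn]; rfl
    rw [h3]
    have h4 := hprod (List.ofFn (fun i => z (σ i))) 1
    rw [one_mul, hrev] at h4
    rw [← h4]
    have h5 : ∀ (s : ℤˣ) (f : Module.End L D), (s • f) 1 = ((s : ℤ) : F) • (f 1) := by
      intro s f
      rcases Int.units_eq_one_or s with h | h
      · subst h; simp
      · subst h; simp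
    rw [h5]
  refine ⟨N+1, fun τ => ((Equiv.Perm.sign (Fin.revPerm.trans τ) : ℤ) : F), ?_, ?_⟩
  · intro h0
    have := congrFun h0 1
    simp only [Pi.zero_apply] at this
    rcases Int.units_eq_one_or (Equiv.Perm.sign (Fin.revPerm.trans (1 : Equiv.Perm (Fin (N+1)))))
      with h | h
    · rw [h] at this; simp at this
    · rw [h] at this; simp at this
  · intro z
    have h1 := hstd z
    rw [← Equiv.sum_comp (Equiv.mulRight (Fin.revPerm (n := N+1)))] at h1
    rw [← h1]
    refine Finset.sum_congr rfl fun σ _ => ?_
    have h2 : (fun i => z (σ i)) =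
        fun i => z (((Equiv.mulRight (Fin.revPerm (n := N+1))) σ) (Fin.rev i)) := by
      funext i
      simp
    rw [h2]
    rfl

end Pool.Agent.Helper71
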