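import Pool.Agent.Helper71.FreeInf

namespace Pool.Agent.Helper71.FreeAff

open Module Pool.Agent.Helper71.FreeCore Pool.Agent.Helper71.FreeCrit Pool.Agent.Helper71.FreeApp
  Pool.Agent.Helper71.FreeTrace Pool.Agent.Helper71.FreeInf

universe u v

variable {k : Type u} [Field k] {X : Type v}

/-- Invariants of any group of translations are right closed on leading components. -/
theorem RC_trans (Λ : AddSubgroup (X → k)) : RC (fun _ => 1) (fixT (Λ : Set (X → k))) := by
  obtain ⟨p, hp⟩ := CharP.exists k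
  rcases CharP.char_is_prime_or_zero k p with h | h
  · have : Fact p.Prime := ⟨h⟩
    exact RC_charP _ p (fun _ => Nat.one_pos) Λ
  · subst h
    have : CharZero k := CharP.charP_to_charZero k
    exact RC_charZero Λ

/-- The additive group of a group of translations. -/
def lamOf (T : Subgroup (Au k X)) : AddSubgroup (X → k) where
  carrier := {lam | ∃ t ∈ T, ∀ x, t (FreeAlgebra.ι k x) =
    FreeAlgebra.ι k x + algebraMap k _ (lam x)}
  zero_mem' := ⟨1, T.one_mem, fun x => by simp⟩
  add_mem' := by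
    rintro lam mu ⟨t, ht, ht'⟩ ⟨s, hs, hs'⟩
    refine ⟨t * s, T.mul_mem ht hs, fun x => ?_⟩
    change t (s (FreeAlgebra.ι k x)) = _
    rw [hs', map_add, ht', AlgEquiv.commutes, Pi.add_apply, map_add, add_assoc]
  neg_mem' := by
    rintro lam ⟨t, ht, ht'⟩
    refine ⟨t⁻¹, T.inv_mem ht, fun x => ?_⟩
    have h1 : t⁻¹ (t (FreeAlgebra.ι k x)) = FreeAlgebra.ι k x := AlgEquiv.symm_apply_apply t _
    rw [ht', map_add, AlgEquiv.commutes] at h1
    rw [Pi.neg_apply, map_neg, ← sub_eq_add_neg, eq_sub_iff_add_eq]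
    exact h1

theorem fixT_lamOf (T : Subgroup (Au k X))
    (hT : ∀ t ∈ T, ∀ x, ∃ c : k, t (FreeAlgebra.ι k x) = FreeAlgebra.ι k x + algebraMap k _ c) :
    fixT (lamOf T : Set (X → k)) = fixedG T := by
  have key : ∀ (t : Au k X) (lam : X → k), (∀ x, t (FreeAlgebra.ι k x) =
      FreeAlgebra.ι k x + algebraMap k _ (lam x)) → ∀ f, t f = tra lam f := by
    intro t lam h f
    have : (t : FreeAlgebra k X →ₐ[k] FreeAlgebra k X) = tra lam := by
      apply FreeAlgebra.hom_ext
      funext x
      simp only [Function.comp_apply, tra_ι]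
      exact h x
    exact DFunLike.congr_fun this f
  ext f
  constructor
  · intro hf t ht
    choose lam hlam using hT t ht
    rw [key t lam hlam]
    exact hf lam ⟨t, ht, hlam⟩
  · rintro hf lam ⟨t, ht, ht'⟩
    rw [← key t lam ht']
    exact hf t ht

theorem affine (G T : Subgroup (Au k X)) (hTG : T ≤ G)
    (hT : ∀ t ∈ T, ∀ x, ∃ c : k, t (FreeAlgebra.ι k x) = FreeAlgebra.ι k x + algebraMap k _ c)
    (hG : ∀ g ∈ G, ∀ x, g (FreeAlgebra.ι k x) ∈
      Submodule.span k (insert 1 (Set.range (FreeAlgebra.ι k))))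
    (hidx : (T.relIndex G : k) ≠ 0) :
    ∃ Y : Set (fixedG G), Function.Bijective
      (FreeAlgebra.lift k (fun y : Y => (y : fixedG G))) := by
  classical
  have hfi : T.relIndex G ≠ 0 := by
    intro h
    rw [h] at hidx
    exact hidx (by simp)
  have hfin : Finite (G ⧸ T.subgroupOf G) := by
    have : (T.subgroupOf G).FiniteIndex := ⟨hfi⟩
    infer_instance
  let _ := Fintype.ofFinite (G ⧸ T.subgroupOf G)
  have hcard : Fintype.card (G ⧸ T.subgroupOf G) = T.relIndex G := by
    rw [← Nat.card_eq_fintype_card]; rfl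
  have hspan : Submodule.span k (insert 1 (Set.range (FreeAlgebra.ι k))) ≤
      (fl (fun _ => 1) 2 : Submodule k (FreeAlgebra k X)) := by
    rw [Submodule.span_le]
    intro z hz
    rcases hz with rfl | ⟨x, rfl⟩
    · rw [← mon_nil]; exact mon_mem_fl _ (by rw [wt_nil]; omega)
    · have : FreeAlgebra.ι k x = mon [x] := by rw [mon_cons, mon_nil, mul_one]
      rw [this]
      exact mon_mem_fl _ (by rw [wt_cons, wt_nil]; omega)
  refine free_of_RC (fun _ => 1) (fun _ => Nat.one_pos) (fixedG G) ?_
  refine RC_of_step (fun _ => 1) (fixedG G) (fixT (lamOf T : Set (X → k))) ?_ (RC_trans _)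
    (fun f => (T.relIndex G : k)⁻¹ • ∑ q : G ⧸ T.subgroupOf G, ((q.out : G) : Au k X) f)
    ?_ ?_ ?_ ?_ ?_
  · rw [fixT_lamOf T hT]
    intro f hf t ht
    exact hf t (hTG ht)
  · intro f hf
    rw [fixT_lamOf T hT] at hf
    refine Subalgebra.smul_mem _ ?_ _
    intro h hh
    rw [map_sum]
    let h' : G := ⟨h, hh⟩
    have h1 : ∀ q : G ⧸ T.subgroupOf G, h (((q.out : G) : Au k X) f) =
        (((h' • q).out : G) : Au k X) f := by
      intro q
      have h2 : (h' • q).out⁻¹ * (h' * q.out) ∈ T.subgroupOf G := by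
        rw [← QuotientGroup.eq, QuotientGroup.out_eq']
        conv_lhs => rw [← QuotientGroup.out_eq' q]
        rfl
      have h3 := hf _ (Subgroup.mem_subgroupOf.1 h2)
      have h4 : (((h' • q).out : G) : Au k X)
          ((((h' • q).out⁻¹ * (h' * q.out) : G) : Au k X) f) = h (((q.out : G) : Au k X) f) := by
        have h5 : (h' • q).out * ((h' • q).out⁻¹ * (h' * q.out)) = h' * q.out := by group
        have h6 := congrArg (fun g : G => (g : Au k X) f) h5
        exact h6
      rw [← h4, h3]
    simp only [h1]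
    exact Fintype.sum_bijective (fun q : G ⧸ T.subgroupOf G => h' • q)
      (MulAction.bijective h') _ _ (fun _ => rfl)
  · intro f g
    simp only [map_add, Finset.sum_add_distrib, smul_add]
  · intro s hs f
    have h1 : ∀ q : G ⧸ T.subgroupOf G, ((q.out : G) : Au k X) (s * f) =
        s * ((q.out : G) : Au k X) f := by
      intro q
      rw [map_mul, hs _ (q.out : G).2]
    simp only [h1]
    rw [← Finset.mul_sum, mul_smul_comm]
  · intro s hs
    have h1 : ∀ q : G ⧸ T.subgroupOf G, ((q.out : G) : Au k X) s = s := fun q =>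
      hs _ (q.out : G).2
    simp only [h1, Finset.sum_const, Finset.card_univ, hcard]
    rw [← Nat.cast_smul_eq_nsmul k, smul_smul, inv_mul_cancel₀ hidx, one_smul]
  · intro n f hf
    refine Submodule.smul_mem _ _ (Submodule.sum_mem _ (fun q _ => ?_))
    exact map_fl_of_filt (fun _ => 1)
      (g := (((q.out : G) : Au k X) : FreeAlgebra k X →ₐ[k] FreeAlgebra k X))
      (fun x => hspan (hG _ (q.out : G).2 x)) hf

end Pool.Agent.Helper71.FreeAff
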