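import Pool.Agent.Helper71.FreeCrit

namespace Pool.Agent.Helper71.FreeApp

open Module Pool.Agent.Helper71.FreeCore Pool.Agent.Helper71.FreeCrit

universe u v

variable {k : Type u} [Field k] {X : Type v} (w : X → ℕ)

theorem lead_of_mem {S : Subalgebra k (FreeAlgebra k X)} {n : ℕ} {s : FreeAlgebra k X}
    (h1 : s ∈ S) (h2 : s ∈ fl w (n + 1)) : cmp w n s ∈ lead w S n :=
  (mem_lead w).2 ⟨s, h1, h2, rfl⟩

/-- Two step form: `S ≤ S'`, `S'` is right closed on leading components, and there is a filtered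
left `S`-linear retraction of `S'` onto `S`. -/
theorem RC_of_step (S S' : Subalgebra k (FreeAlgebra k X)) (hle : S ≤ S') (hRC : RC w S')
    (E : FreeAlgebra k X → FreeAlgebra k X) (hE1 : ∀ f ∈ S', E f ∈ S)
    (hE2 : ∀ f g, E (f + g) = E f + E g) (hE3 : ∀ s ∈ S, ∀ f, E (s * f) = s * E f)
    (hE4 : ∀ s ∈ S, E s = s) (hE5 : ∀ n, ∀ f ∈ fl w n, E f ∈ fl w n) : RC w S := by
  classical
  intro I l d hl hld t n f hf hsum i hi
  have hmono : ∀ m, lead w S m ≤ lead w S' m := by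
    intro m z hz
    obtain ⟨s, h1, h2, h3⟩ := (mem_lead w).1 hz
    exact (mem_lead w).2 ⟨s, hle h1, h2, h3⟩
  have h1 : ∀ i ∈ t, f i ∈ lead w S' (n - d i) :=
    hRC I l d hl (fun i => hmono _ (hld i)) t n f hf (hmono _ hsum)
  have h2 : ∀ i, ∃ h, i ∈ t → h ∈ S' ∧ h ∈ fl w (n - d i + 1) ∧ cmp w (n - d i) h = f i := by
    intro i
    by_cases hi : i ∈ t
    · obtain ⟨h, h3⟩ := (mem_lead w).1 (h1 i hi)
      exact ⟨h, fun _ => h3⟩
    · exact ⟨0, fun h => absurd h hi⟩
  choose h hh using h2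
  choose s hs1 hs2 hs3 using fun i => (mem_lead w).1 (hld i)
  obtain ⟨z, hz1, hz2, hz3⟩ := (mem_lead w).1 hsum
  have hEsum : ∀ (t : Finset I) (φ : I → FreeAlgebra k X),
      E (∑ i ∈ t, φ i) = ∑ i ∈ t, E (φ i) := by
    intro t φ
    have h0 : E 0 = 0 := by
      have := hE2 0 0
      rw [add_zero] at this
      exact left_eq_add.1 this
    induction t using Finset.induction_on with
    | empty => simpa using h0
    | insert a t ha ih => rw [Finset.sum_insert ha, Finset.sum_insert ha, hE2, ih]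
  -- remainder
  set r := z - ∑ i ∈ t, s i * h i with hr
  have hr1 : r ∈ fl w n := by
    have h3 : ∑ i ∈ t, s i * h i ∈ fl w (n + 1) := by
      refine Submodule.sum_mem _ (fun i hi => ?_)
      have := mul_mem_fl w (hs2 i) (hh i hi).2.1
      have h4 := (hf i hi).1
      rwa [show d i + (n - d i) + 1 = n + 1 by omega] at this
    refine mem_fl_of_cmp w (Submodule.sub_mem _ hz2 h3) ?_
    rw [map_sub, hz3, map_sum, sub_eq_zero]
    refine Finset.sum_congr rfl (fun i hi => ?_)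
    have h4 := cmp_mul w (hs2 i) (hh i hi).2.1
    have h5 := (hf i hi).1
    rw [show d i + (n - d i) = n by omega, hs3, (hh i hi).2.2] at h4
    exact h4.symm
  have hz : z = ∑ i ∈ t, s i * h i + r := by rw [hr]; abel
  have h3 : z = ∑ i ∈ t, s i * E (h i) + E r := by
    conv_lhs => rw [← hE4 z hz1, hz, hE2, hEsum]
    congr 1
    exact Finset.sum_congr rfl (fun i _ => hE3 _ (hs1 i) _)
  have h4 : ∑ i ∈ t, s i * (h i - E (h i)) = E r - r := by
    have : ∑ i ∈ t, s i * (h i - E (h i)) = ∑ i ∈ t, s i * h i - ∑ i ∈ t, s i * E (h i) := by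
      rw [← Finset.sum_sub_distrib]
      exact Finset.sum_congr rfl (fun i _ => mul_sub _ _ _)
    rw [this]
    have h5 := hz.symm.trans h3
    have h6 : ∑ i ∈ t, s i * h i - ∑ i ∈ t, s i * E (h i) - (E r - r) =
      (∑ i ∈ t, s i * h i + r) - (∑ i ∈ t, s i * E (h i) + E r) := by abel
    rw [← sub_eq_zero, h6, h5, sub_self]
  have h5 : ∑ i ∈ t, l i * (if i ∈ t then cmp w (n - d i) (h i - E (h i)) else 0) = 0 := by
    have h6 := congrArg (cmp w n) h4
    rw [cmp_of_fl w (Submodule.sub_mem _ (hE5 n r hr1) hr1) le_rfl, map_sum] at h6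
    refine Eq.trans (Finset.sum_congr rfl (fun i hi => ?_)) h6
    rw [if_pos hi]
    have h7 := cmp_mul w (hs2 i)
      (Submodule.sub_mem _ (hh i hi).2.1 (hE5 _ _ (hh i hi).2.1))
    have h8 := (hf i hi).1
    rw [show d i + (n - d i) = n by omega, hs3] at h7
    exact h7.symm
  have h6 := hl t _ h5 i hi
  simp only [if_pos hi] at h6
  rw [map_sub, (hh i hi).2.2, sub_eq_zero] at h6
  rw [h6]
  exact lead_of_mem w (hE1 _ (hh i hi).1) (hE5 _ _ (hh i hi).2.1)

theorem RC_top : RC w (⊤ : Subalgebra k (FreeAlgebra k X)) := by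
  intro I l d _ _ t n f hf _ i hi
  have h1 := (hf i hi).2
  rw [← cmp_of_hm w h1]
  exact lead_of_mem w trivial (hm_le_fl w _ h1)

/-- One step form. -/
theorem RC_of_retraction (S : Subalgebra k (FreeAlgebra k X))
    (E : FreeAlgebra k X → FreeAlgebra k X) (hE1 : ∀ f, E f ∈ S)
    (hE2 : ∀ f g, E (f + g) = E f + E g) (hE3 : ∀ s ∈ S, ∀ f, E (s * f) = s * E f)
    (hE4 : ∀ s ∈ S, E s = s) (hE5 : ∀ n, ∀ f ∈ fl w n, E f ∈ fl w n) : RC w S :=
  RC_of_step w S ⊤ le_top (RC_top w) E (fun f _ => hE1 f) hE2 hE3 hE4 hE5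

/-- The subalgebra fixed by a set of endomorphisms. -/
def fixedBy (G : Set (FreeAlgebra k X →ₐ[k] FreeAlgebra k X)) : Subalgebra k (FreeAlgebra k X) where
  carrier := {f | ∀ g ∈ G, g f = f}
  mul_mem' ha hb g hg := by rw [map_mul, ha g hg, hb g hg]
  add_mem' ha hb g hg := by rw [map_add, ha g hg, hb g hg]
  algebraMap_mem' c g _ := AlgHom.commutes g c

theorem mem_fixedBy {G : Set (FreeAlgebra k X →ₐ[k] FreeAlgebra k X)} {f : FreeAlgebra k X} :
    f ∈ fixedBy G ↔ ∀ g ∈ G, g f = f := Iff.rfl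

/-- A homogeneous fixed algebra is right closed. -/
theorem RC_of_homogeneous (G : Set (FreeAlgebra k X →ₐ[k] FreeAlgebra k X))
    (hS : ∀ f ∈ fixedBy G, ∀ n, cmp w n f ∈ fixedBy G) : RC w (fixedBy G) := by
  intro I l d hl hld t n f hf hsum i hi
  have h1 : ∀ n, ∀ z ∈ lead w (fixedBy G) n, z ∈ fixedBy G := by
    intro n z hz
    obtain ⟨s, hs, _, rfl⟩ := (mem_lead w).1 hz
    exact hS s hs n
  have h2 : f i ∈ fixedBy G := by
    intro g hg
    have h3 : ∑ i ∈ t, l i * (g (f i) - f i) = 0 := by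
      have h4 := h1 n _ hsum g hg
      rw [map_sum] at h4
      rw [← sub_eq_zero, ← Finset.sum_sub_distrib] at h4
      refine Eq.trans (Finset.sum_congr rfl (fun i _ => ?_)) h4
      rw [map_mul, h1 _ _ (hld i) g hg, mul_sub]
    exact sub_eq_zero.1 (hl t _ h3 i hi)
  have h3 := (hf i hi).2
  rw [← cmp_of_hm w h3]
  exact lead_of_mem w h2 (hm_le_fl w _ h3)

end Pool.Agent.Helper71.FreeApp
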