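import Mathlib

namespace Pool.Agent.Helper71.FreeCore

open Module

universe u v

variable {k : Type u} [Field k] {X : Type v}

/-- The monomial attached to a word. -/
noncomputable def mon (l : List X) : FreeAlgebra k X := (l.map (FreeAlgebra.ι k)).prod

theorem mon_nil : (mon ([] : List X) : FreeAlgebra k X) = 1 := by simp [mon]

theorem mon_cons (x : X) (l : List X) :
    (mon (x :: l) : FreeAlgebra k X) = FreeAlgebra.ι k x * mon l := by simp [mon]

theorem mon_append (l m : List X) :
    (mon (l ++ m) : FreeAlgebra k X) = mon l * mon m := by simp [mon]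

/-- The monomial basis. -/
noncomputable def bs : Basis (List X) k (FreeAlgebra k X) :=
  (FreeAlgebra.basisFreeMonoid k X).reindex FreeMonoid.toList

theorem bs_apply (l : List X) : (bs l : FreeAlgebra k X) = mon l := by
  unfold bs FreeAlgebra.basisFreeMonoid mon
  simp only [Basis.reindex_apply, Basis.map_apply, Finsupp.basisSingleOne,
    Basis.coe_ofRepr, LinearEquiv.refl_symm]
  simp only [LinearEquiv.trans_symm, LinearEquiv.trans_apply]
  change MonoidAlgebra.lift k (FreeAlgebra k X) (FreeMonoid X) (FreeMonoid.lift (FreeAlgebra.ι k))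
    (MonoidAlgebra.single (R := k) (FreeMonoid.ofList l) 1) = _
  rw [MonoidAlgebra.lift_single, one_smul, FreeMonoid.lift_ofList]

theorem coe_bs : (bs : List X → FreeAlgebra k X) = mon := funext bs_apply

theorem repr_mon (l : List X) : bs.repr (mon l : FreeAlgebra k X) = Finsupp.single l 1 := by
  rw [← bs_apply, Basis.repr_self]

theorem span_mon : Submodule.span k (Set.range (mon : List X → FreeAlgebra k X)) = ⊤ := by
  rw [← coe_bs]; exact bs.span_eq

theorem mon_ind {p : FreeAlgebra k X → Prop} (f : FreeAlgebra k X)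
    (hm : ∀ l, p (mon l)) (h0 : p 0) (ha : ∀ a b, p a → p b → p (a + b))
    (hs : ∀ (c : k) a, p a → p (c • a)) : p f := by
  have : f ∈ Submodule.span k (Set.range (mon : List X → FreeAlgebra k X)) := by
    rw [span_mon]; trivial
  refine Submodule.span_induction (p := fun x _ => p x) ?_ h0 ?_ ?_ this
  · rintro _ ⟨l, rfl⟩; exact hm l
  · intro a b _ _; exact ha a b
  · intro c a _; exact hs c a

/-- The weight of a word. -/
def wt (w : X → ℕ) (l : List X) : ℕ := (l.map w).sum

theorem wt_nil (w : X → ℕ) : wt w [] = 0 := by simp [wt]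
theorem wt_cons (w : X → ℕ) (x : X) (l : List X) : wt w (x :: l) = w x + wt w l := by simp [wt]
theorem wt_append (w : X → ℕ) (l m : List X) : wt w (l ++ m) = wt w l + wt w m := by simp [wt]

theorem wt_eq_zero {w : X → ℕ} (hw : ∀ x, 0 < w x) {l : List X} (h : wt w l = 0) : l = [] := by
  cases l with
  | nil => rfl
  | cons x l => rw [wt_cons] at h; have := hw x; omega

section
variable (w : X → ℕ)

/-- Elements all of whose words have weight `< n`. -/
noncomputable def fl (n : ℕ) : Submodule k (FreeAlgebra k X) :=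
  Submodule.span k (mon '' {l | wt w l < n})

/-- Elements all of whose words have weight `n`. -/
noncomputable def hm (n : ℕ) : Submodule k (FreeAlgebra k X) :=
  Submodule.span k (mon '' {l | wt w l = n})

theorem mem_fl {n : ℕ} {f : FreeAlgebra k X} :
    f ∈ fl w n ↔ ∀ l, bs.repr f l ≠ 0 → wt w l < n := by
  rw [fl, ← coe_bs, Basis.mem_span_image]
  constructor
  · intro h l hl
    exact h (by simpa using hl)
  · intro h l hl
    exact h l (by simpa using hl)

theorem mem_hm {n : ℕ} {f : FreeAlgebra k X} :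
    f ∈ hm w n ↔ ∀ l, bs.repr f l ≠ 0 → wt w l = n := by
  rw [hm, ← coe_bs, Basis.mem_span_image]
  constructor
  · intro h l hl
    exact h (by simpa using hl)
  · intro h l hl
    exact h l (by simpa using hl)

theorem mon_mem_fl {n : ℕ} {l : List X} (h : wt w l < n) : (mon l : FreeAlgebra k X) ∈ fl w n :=
  Submodule.subset_span ⟨l, h, rfl⟩

theorem mon_mem_hm {n : ℕ} {l : List X} (h : wt w l = n) : (mon l : FreeAlgebra k X) ∈ hm w n :=
  Submodule.subset_span ⟨l, h, rfl⟩

theorem fl_ind {n : ℕ} {p : FreeAlgebra k X → Prop} {f : FreeAlgebra k X} (hf : f ∈ fl w n)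
    (hm : ∀ l, wt w l < n → p (mon l)) (h0 : p 0) (ha : ∀ a b, p a → p b → p (a + b))
    (hs : ∀ (c : k) a, p a → p (c • a)) : p f := by
  refine Submodule.span_induction (p := fun x _ => p x) ?_ h0 ?_ ?_ hf
  · rintro _ ⟨l, hl, rfl⟩; exact hm l hl
  · intro a b _ _; exact ha a b
  · intro c a _; exact hs c a

theorem hm_ind {n : ℕ} {p : FreeAlgebra k X → Prop} {f : FreeAlgebra k X} (hf : f ∈ hm w n)
    (hm : ∀ l, wt w l = n → p (mon l)) (h0 : p 0) (ha : ∀ a b, p a → p b → p (a + b))
    (hs : ∀ (c : k) a, p a → p (c • a)) : p f := by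
  refine Submodule.span_induction (p := fun x _ => p x) ?_ h0 ?_ ?_ hf
  · rintro _ ⟨l, hl, rfl⟩; exact hm l hl
  · intro a b _ _; exact ha a b
  · intro c a _; exact hs c a

/-- The component of weight `n`. -/
noncomputable def cmp (n : ℕ) : FreeAlgebra k X →ₗ[k] FreeAlgebra k X :=
  bs.constr k (fun l => if wt w l = n then mon l else 0)

theorem cmp_mon (n : ℕ) (l : List X) :
    cmp w n (mon l : FreeAlgebra k X) = if wt w l = n then mon l else 0 := by
  rw [← bs_apply, cmp, Basis.constr_basis, bs_apply]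

theorem repr_cmp (n : ℕ) (f : FreeAlgebra k X) (l : List X) :
    bs.repr (cmp w n f) l = if wt w l = n then bs.repr f l else 0 := by
  refine mon_ind (p := fun f => bs.repr (cmp w n f) l = if wt w l = n then bs.repr f l else 0) f
    ?_ ?_ ?_ ?_
  · intro m
    rw [cmp_mon, repr_mon]
    by_cases hm : m = l
    · subst hm
      split_ifs <;> simp [repr_mon]
    · split_ifs <;> simp [repr_mon, hm]
  · simp
  · intro a b ha hb
    simp only [map_add, Finsupp.add_apply, ha, hb]
    split_ifs <;> simp
  · intro c a ha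
    simp only [map_smul, Finsupp.smul_apply, ha]
    split_ifs <;> simp

theorem ext_repr {f g : FreeAlgebra k X} (h : ∀ l, bs.repr f l = bs.repr g l) : f = g :=
  bs.repr.injective (Finsupp.ext h)

theorem cmp_mem_hm (n : ℕ) (f : FreeAlgebra k X) : cmp w n f ∈ hm w n := by
  rw [mem_hm]
  intro l hl
  rw [repr_cmp] at hl
  by_contra h
  exact hl (if_neg h)

theorem cmp_of_hm {n : ℕ} {f : FreeAlgebra k X} (h : f ∈ hm w n) : cmp w n f = f := by
  rw [mem_hm] at h
  apply ext_repr
  intro l
  rw [repr_cmp]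
  split_ifs with h1
  · rfl
  · by_contra h2
    exact h1 (h l (Ne.symm h2))

theorem cmp_of_hm_ne {n m : ℕ} {f : FreeAlgebra k X} (h : f ∈ hm w n) (hne : n ≠ m) :
    cmp w m f = 0 := by
  rw [mem_hm] at h
  apply ext_repr
  intro l
  rw [repr_cmp]
  split_ifs with h1
  · by_contra h2
    have : bs.repr f l ≠ 0 := by simpa using h2
    exact hne ((h l this).symm.trans h1)
  · simp

theorem hm_le_fl (n : ℕ) : (hm w n : Submodule k (FreeAlgebra k X)) ≤ fl w (n + 1) := by
  intro f hf
  rw [mem_hm] at hf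
  rw [mem_fl]
  intro l hl
  have := hf l hl
  omega

theorem fl_mono {m n : ℕ} (h : m ≤ n) : (fl w m : Submodule k (FreeAlgebra k X)) ≤ fl w n := by
  intro f hf
  rw [mem_fl] at hf ⊢
  intro l hl
  have := hf l hl
  omega

theorem fl_zero : (fl w 0 : Submodule k (FreeAlgebra k X)) = ⊥ := by
  rw [eq_bot_iff]
  intro f hf
  rw [mem_fl] at hf
  rw [Submodule.mem_bot]
  apply ext_repr
  intro l
  by_contra h
  have : bs.repr f l ≠ 0 := by simpa using h
  exact absurd (hf l this) (by omega)

theorem cmp_of_fl {n m : ℕ} {f : FreeAlgebra k X} (h : f ∈ fl w n) (hnm : n ≤ m) :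
    cmp w m f = 0 := by
  rw [mem_fl] at h
  apply ext_repr
  intro l
  rw [repr_cmp]
  split_ifs with h1
  · by_contra h2
    have : bs.repr f l ≠ 0 := by simpa using h2
    have := h l this
    omega
  · simp

theorem sub_cmp_mem {n : ℕ} {f : FreeAlgebra k X} (h : f ∈ fl w (n + 1)) :
    f - cmp w n f ∈ fl w n := by
  rw [mem_fl] at h ⊢
  intro l hl
  rw [map_sub, Finsupp.sub_apply, repr_cmp] at hl
  by_cases h1 : wt w l = n
  · rw [if_pos h1, sub_self] at hl
    exact absurd rfl hl
  · rw [if_neg h1, sub_zero] at hl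
    have := h l hl
    omega

theorem mem_fl_of_cmp {n : ℕ} {f : FreeAlgebra k X} (h : f ∈ fl w (n + 1)) (h0 : cmp w n f = 0) :
    f ∈ fl w n := by
  have := sub_cmp_mem w h
  rwa [h0, sub_zero] at this

theorem exists_fl (f : FreeAlgebra k X) : ∃ n, f ∈ fl w n := by
  refine mon_ind (p := fun f => ∃ n, f ∈ fl w n) f ?_ ?_ ?_ ?_
  · intro l; exact ⟨wt w l + 1, mon_mem_fl w (by omega)⟩
  · exact ⟨0, Submodule.zero_mem _⟩
  · rintro a b ⟨n, hn⟩ ⟨m, hm⟩
    exact ⟨max n m, Submodule.add_mem _ (fl_mono w (le_max_left _ _) hn)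
      (fl_mono w (le_max_right _ _) hm)⟩
  · rintro c a ⟨n, hn⟩
    exact ⟨n, Submodule.smul_mem _ _ hn⟩

theorem mul_mem_hm {m n : ℕ} {a b : FreeAlgebra k X} (ha : a ∈ hm w m) (hb : b ∈ hm w n) :
    a * b ∈ hm w (m + n) := by
  refine hm_ind w (p := fun a => a * b ∈ hm w (m + n)) ha ?_ ?_ ?_ ?_
  · intro l hl
    refine hm_ind w (p := fun b => mon l * b ∈ hm w (m + n)) hb ?_ ?_ ?_ ?_
    · intro l' hl'
      rw [← mon_append]
      exact mon_mem_hm w (by rw [wt_append, hl, hl'])
    · rw [mul_zero]; exact Submodule.zero_mem _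
    · intro a b h1 h2; rw [mul_add]; exact Submodule.add_mem _ h1 h2
    · intro c a h; rw [mul_smul_comm]; exact Submodule.smul_mem _ _ h
  · rw [zero_mul]; exact Submodule.zero_mem _
  · intro a b h1 h2; rw [add_mul]; exact Submodule.add_mem _ h1 h2
  · intro c a h; rw [smul_mul_assoc]; exact Submodule.smul_mem _ _ h

theorem mul_mem_fl' {m n : ℕ} {a b : FreeAlgebra k X} (ha : a ∈ fl w m) (hb : b ∈ fl w (n + 1)) :
    a * b ∈ fl w (m + n) := by
  refine fl_ind w (p := fun a => a * b ∈ fl w (m + n)) ha ?_ ?_ ?_ ?_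
  · intro l hl
    refine fl_ind w (p := fun b => mon l * b ∈ fl w (m + n)) hb ?_ ?_ ?_ ?_
    · intro l' hl'
      rw [← mon_append]
      exact mon_mem_fl w (by rw [wt_append]; omega)
    · rw [mul_zero]; exact Submodule.zero_mem _
    · intro a b h1 h2; rw [mul_add]; exact Submodule.add_mem _ h1 h2
    · intro c a h; rw [mul_smul_comm]; exact Submodule.smul_mem _ _ h
  · rw [zero_mul]; exact Submodule.zero_mem _
  · intro a b h1 h2; rw [add_mul]; exact Submodule.add_mem _ h1 h2
  · intro c a h; rw [smul_mul_assoc]; exact Submodule.smul_mem _ _ h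

theorem mul_mem_fl'' {m n : ℕ} {a b : FreeAlgebra k X} (ha : a ∈ fl w (m + 1)) (hb : b ∈ fl w n) :
    a * b ∈ fl w (m + n) := by
  refine fl_ind w (p := fun a => a * b ∈ fl w (m + n)) ha ?_ ?_ ?_ ?_
  · intro l hl
    refine fl_ind w (p := fun b => mon l * b ∈ fl w (m + n)) hb ?_ ?_ ?_ ?_
    · intro l' hl'
      rw [← mon_append]
      exact mon_mem_fl w (by rw [wt_append]; omega)
    · rw [mul_zero]; exact Submodule.zero_mem _
    · intro a b h1 h2; rw [mul_add]; exact Submodule.add_mem _ h1 h2
    · intro c a h; rw [mul_smul_comm]; exact Submodule.smul_mem _ _ h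
  · rw [zero_mul]; exact Submodule.zero_mem _
  · intro a b h1 h2; rw [add_mul]; exact Submodule.add_mem _ h1 h2
  · intro c a h; rw [smul_mul_assoc]; exact Submodule.smul_mem _ _ h

theorem mul_mem_fl {m n : ℕ} {a b : FreeAlgebra k X} (ha : a ∈ fl w (m + 1))
    (hb : b ∈ fl w (n + 1)) : a * b ∈ fl w (m + n + 1) := by
  have := mul_mem_fl'' w ha hb
  rwa [← add_assoc] at this

theorem cmp_mul {m n : ℕ} {a b : FreeAlgebra k X} (ha : a ∈ fl w (m + 1))
    (hb : b ∈ fl w (n + 1)) : cmp w (m + n) (a * b) = cmp w m a * cmp w n b := by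
  have h1 := sub_cmp_mem w ha
  have h2 := sub_cmp_mem w hb
  have h3 : a * b = cmp w m a * cmp w n b + ((a - cmp w m a) * b + cmp w m a * (b - cmp w n b)) := by
    noncomm_ring
  have h4 : (a - cmp w m a) * b + cmp w m a * (b - cmp w n b) ∈ fl w (m + n) :=
    Submodule.add_mem _ (mul_mem_fl' w h1 hb)
      (mul_mem_fl'' w (hm_le_fl w m (cmp_mem_hm w m a)) h2)
  rw [h3, map_add, cmp_of_fl w h4 le_rfl, add_zero]
  exact cmp_of_hm w (mul_mem_hm w (cmp_mem_hm w m a) (cmp_mem_hm w n b))

theorem cmp_hm_mul {m : ℕ} {a : FreeAlgebra k X} (ha : a ∈ hm w m) (N : ℕ) (b : FreeAlgebra k X) :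
    cmp w N (a * b) = if m ≤ N then a * cmp w (N - m) b else 0 := by
  refine mon_ind (p := fun b => cmp w N (a * b) = if m ≤ N then a * cmp w (N - m) b else 0) b
    ?_ ?_ ?_ ?_
  · intro l
    have h1 : a * mon l ∈ hm w (m + wt w l) := mul_mem_hm w ha (mon_mem_hm w rfl)
    rw [cmp_mon]
    split_ifs with h2 h3
    · have : N = m + wt w l := by omega
      rw [this]; exact cmp_of_hm w h1
    · rw [mul_zero]; exact cmp_of_hm_ne w h1 (by omega)
    · exact cmp_of_hm_ne w h1 (by omega)
  · simp
  · intro a b h1 h2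
    rw [mul_add, map_add, h1, h2]
    split_ifs <;> simp [mul_add]
  · intro c a h1
    rw [mul_smul_comm, map_smul, h1]
    split_ifs <;> simp

end

section Strip

open Classical in
/-- Remove the word `u` from the right end. -/
noncomputable def strip (u : List X) : FreeAlgebra k X →ₗ[k] FreeAlgebra k X :=
  bs.constr k (fun l => if u <:+ l then mon (l.take (l.length - u.length)) else 0)

theorem strip_append (u v : List X) : strip u (mon (v ++ u) : FreeAlgebra k X) = mon v := by
  rw [← bs_apply, strip, Basis.constr_basis, if_pos (List.suffix_append v u)]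
  simp

theorem strip_not {u l : List X} (h : ¬ u <:+ l) : strip u (mon l : FreeAlgebra k X) = 0 := by
  rw [← bs_apply, strip, Basis.constr_basis, if_neg h]

variable {w : X → ℕ} (hw : ∀ x, 0 < w x)

include hw in
theorem suffix_of_wt {u v c : List X} (h : u <:+ c ++ v) (hwt : wt w u ≤ wt w v) : u <:+ v := by
  rcases List.suffix_or_suffix_of_suffix h (List.suffix_append c v) with h1 | h1
  · exact h1
  · obtain ⟨t, rfl⟩ := h1
    rw [wt_append] at hwt
    have : wt w t = 0 := by omega
    rw [wt_eq_zero hw this]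
    exact List.suffix_rfl

include hw in
theorem strip_mul {u : List X} {m : ℕ} {f : FreeAlgebra k X} (hf : f ∈ hm w m) (hm' : wt w u ≤ m)
    (a : FreeAlgebra k X) : strip u (a * f) = a * strip u f := by
  refine mon_ind (p := fun a => strip u (a * f) = a * strip u f) a ?_ ?_ ?_ ?_
  · intro c
    refine hm_ind w (p := fun f => strip u (mon c * f) = mon c * strip u f) hf ?_ ?_ ?_ ?_
    · intro v hv
      rw [← mon_append]
      by_cases h : u <:+ v
      · obtain ⟨t, rfl⟩ := h
        rw [← List.append_assoc, strip_append, strip_append, mon_append]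
      · have h' : ¬ u <:+ c ++ v := fun h2 => h (suffix_of_wt hw h2 (by omega))
        rw [strip_not h, strip_not h', mul_zero]
    · simp
    · intro a b h1 h2; rw [mul_add, map_add, h1, h2, map_add, mul_add]
    · intro c a h1; rw [mul_smul_comm, map_smul, h1, map_smul, mul_smul_comm]
  · simp
  · intro a b h1 h2; rw [add_mul, map_add, h1, h2, add_mul]
  · intro c a h1; rw [smul_mul_assoc, map_smul, h1, smul_mul_assoc]

theorem strip_mem_hm {u : List X} {m : ℕ} {f : FreeAlgebra k X} (hf : f ∈ hm w m) :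
    strip u f ∈ hm w (m - wt w u) := by
  refine hm_ind w (p := fun f => strip u f ∈ hm w (m - wt w u)) hf ?_ ?_ ?_ ?_
  · intro v hv
    by_cases h : u <:+ v
    · obtain ⟨t, rfl⟩ := h
      rw [strip_append]
      refine mon_mem_hm w ?_
      rw [wt_append] at hv; omega
    · rw [strip_not h]; exact Submodule.zero_mem _
  · rw [map_zero]; exact Submodule.zero_mem _
  · intro a b h1 h2; rw [map_add]; exact Submodule.add_mem _ h1 h2
  · intro c a h1; rw [map_smul]; exact Submodule.smul_mem _ _ h1

include hw in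
theorem strip_top {u : List X} {f : FreeAlgebra k X} (hf : f ∈ hm w (wt w u)) :
    strip u f = (bs.repr f u) • 1 := by
  refine hm_ind w (p := fun f => strip u f = (bs.repr f u) • 1) hf ?_ ?_ ?_ ?_
  · intro v hv
    by_cases h : u <:+ v
    · obtain ⟨t, rfl⟩ := h
      rw [wt_append] at hv
      have : wt w t = 0 := by omega
      rw [wt_eq_zero hw this, strip_append, repr_mon]
      simp [mon_nil]
    · have hne : v ≠ u := by
        rintro rfl
        exact h List.suffix_rfl
      rw [strip_not h, repr_mon, Finsupp.single_eq_of_ne (Ne.symm hne), zero_smul]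
  · simp
  · intro a b h1 h2; rw [map_add, h1, h2, map_add, Finsupp.add_apply, add_smul]
  · intro c a h1; rw [map_smul, h1, map_smul, Finsupp.smul_apply, smul_eq_mul, mul_smul]

end Strip

end Pool.Agent.Helper71.FreeCore
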