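import Pool.Agent.Helper71.FreeCore

namespace Pool.Agent.Helper71.FreeCrit

open Module Pool.Agent.Helper71.FreeCore

universe u v

variable {k : Type u} [Field k] {X : Type v} (w : X → ℕ)

/-- The space of leading components of weight `n` of elements of `S`. -/
noncomputable def lead (S : Subalgebra k (FreeAlgebra k X)) (n : ℕ) :
    Submodule k (FreeAlgebra k X) :=
  (Subalgebra.toSubmodule S ⊓ fl w (n + 1)).map (cmp w n)

theorem mem_lead {S : Subalgebra k (FreeAlgebra k X)} {n : ℕ} {z : FreeAlgebra k X} :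
    z ∈ lead w S n ↔ ∃ s ∈ S, s ∈ fl w (n + 1) ∧ cmp w n s = z := by
  simp [lead, Submodule.mem_map, and_assoc]

theorem lead_le_hm (S : Subalgebra k (FreeAlgebra k X)) (n : ℕ) : lead w S n ≤ hm w n := by
  intro z hz
  obtain ⟨s, _, _, rfl⟩ := (mem_lead w).1 hz
  exact cmp_mem_hm w n s

/-- Right linear independence over the free algebra. -/
def RInd {I : Type*} (l : I → FreeAlgebra k X) : Prop :=
  ∀ (t : Finset I) (φ : I → FreeAlgebra k X), ∑ i ∈ t, l i * φ i = 0 → ∀ i ∈ t, φ i = 0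

/-- Right closedness of the leading components of `S`. -/
def RC (S : Subalgebra k (FreeAlgebra k X)) : Prop :=
  ∀ (I : Type (max u v)) (l : I → FreeAlgebra k X) (d : I → ℕ), RInd l →
    (∀ i, l i ∈ lead w S (d i)) →
    ∀ (t : Finset I) (n : ℕ) (f : I → FreeAlgebra k X),
      (∀ i ∈ t, d i ≤ n ∧ f i ∈ hm w (n - d i)) → ∑ i ∈ t, l i * f i ∈ lead w S n →
      ∀ i ∈ t, f i ∈ lead w S (n - d i)

/-- The part in weight `n` of the right ideal generated by lower leading components. -/
noncomputable def Dn (S : Subalgebra k (FreeAlgebra k X)) (n : ℕ) :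
    Submodule k (FreeAlgebra k X) :=
  Submodule.span k {z | ∃ j, 1 ≤ j ∧ j < n ∧ ∃ a ∈ lead w S j, ∃ f ∈ hm w (n - j), z = a * f}

theorem exists_basis (S : Subalgebra k (FreeAlgebra k X)) (n : ℕ) :
    ∃ b : Set (FreeAlgebra k X), (∀ y ∈ b, y ∈ lead w S n) ∧
      LinearIndependent k ((↑) : b → FreeAlgebra k X) ∧
      Disjoint (Submodule.span k b) (Dn w S n) ∧
      lead w S n ≤ Submodule.span k b ⊔ Dn w S n := by
  obtain ⟨C', hC'⟩ := exists_isCompl (Dn w S n ⊓ lead w S n)
  obtain ⟨b, hb1, hb2, hb3⟩ := exists_linearIndependent k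
    ((C' ⊓ lead w S n : Submodule k (FreeAlgebra k X)) : Set (FreeAlgebra k X))
  rw [Submodule.span_eq] at hb2
  refine ⟨b, fun y hy => (hb1 hy).2, hb3, ?_, ?_⟩
  · rw [hb2, disjoint_iff, eq_bot_iff]
    have := hC'.disjoint
    rw [disjoint_iff] at this
    rw [← this]
    rintro z ⟨⟨h1, h2⟩, h3⟩
    exact ⟨⟨h3, h2⟩, h1⟩
  · rw [hb2]
    have h1 : (Dn w S n ⊓ lead w S n) ⊔ (C' ⊓ lead w S n) = lead w S n := by
      rw [← sup_inf_assoc_of_le C' (inf_le_right : Dn w S n ⊓ lead w S n ≤ lead w S n),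
        hC'.codisjoint.eq_top, top_inf_eq]
    intro z hz
    rw [← h1] at hz
    rw [sup_comm]
    have h2 : (Dn w S n ⊓ lead w S n) ⊔ (C' ⊓ lead w S n) ≤ Dn w S n ⊔ (C' ⊓ lead w S n) :=
      sup_le_sup inf_le_left le_rfl
    exact h2 hz

section Main

variable {S : Subalgebra k (FreeAlgebra k X)} {b : ℕ → Set (FreeAlgebra k X)}

/-- Index type. -/
abbrev Idx (b : ℕ → Set (FreeAlgebra k X)) : Type (max u v) := Σ n : ℕ, (b (n + 1))

/-- The leading component attached to an index. -/
def ll (i : Idx b) : FreeAlgebra k X := (i.2 : FreeAlgebra k X)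

/-- The weight attached to an index. -/
def dd (i : Idx b) : ℕ := i.1 + 1

theorem linInd_fibre (hb2 : ∀ n, LinearIndependent k ((↑) : b n → FreeAlgebra k X)) (n : ℕ) :
    LinearIndependent k (fun i : {i : Idx b // dd i = n} => ll i.1) := by
  have h : ∀ i : {i : Idx b // dd i = n}, ll i.1 ∈ b n := by
    rintro ⟨⟨m, y, hy⟩, rfl⟩
    exact hy
  have := (hb2 n).comp (fun i : {i : Idx b // dd i = n} => (⟨ll i.1, h i⟩ : b n)) ?_
  · exact this
  · rintro ⟨⟨m, y, hy⟩, h1⟩ ⟨⟨m', y', hy'⟩, h2⟩ h3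
    simp only [dd] at h1 h2
    have : m = m' := by omega
    subst this
    have h4 : y = y' := congrArg Subtype.val h3
    subst h4
    rfl

theorem rind_hom (hw : ∀ x, 0 < w x) (hb1 : ∀ n, ∀ y ∈ b n, y ∈ lead w S n)
    (hb2 : ∀ n, LinearIndependent k ((↑) : b n → FreeAlgebra k X))
    (hb3 : ∀ n, Disjoint (Submodule.span k (b n)) (Dn w S n))
    (t : Finset (Idx b)) (φ : Idx b → FreeAlgebra k X) (N : ℕ)
    (hφ : ∀ i ∈ t, φ i ≠ 0 → dd i ≤ N ∧ φ i ∈ hm w (N - dd i))
    (h0 : ∑ i ∈ t, ll i * φ i = 0) : ∀ i ∈ t, φ i = 0 := by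
  classical
  by_contra hcon
  push Not at hcon
  obtain ⟨i0, hi0, hne0⟩ := hcon
  obtain ⟨i1, hi1, hmax⟩ := Finset.exists_max_image (t.filter (fun i => φ i ≠ 0)) dd
    ⟨i0, Finset.mem_filter.2 ⟨hi0, hne0⟩⟩
  rw [Finset.mem_filter] at hi1
  obtain ⟨hi1t, hne1⟩ := hi1
  obtain ⟨hd1, hh1⟩ := hφ i1 hi1t hne1
  obtain ⟨u, hu⟩ : ∃ u, bs.repr (φ i1) u ≠ 0 := by
    by_contra hc
    push Not at hc
    exact hne1 (ext_repr (fun l => by rw [hc l]; simp))
  have hwu : wt w u = N - dd i1 := (mem_hm w).1 hh1 u hu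
  have hmax' : ∀ i ∈ t, φ i ≠ 0 → dd i ≤ dd i1 := fun i hi hne =>
    hmax i (Finset.mem_filter.2 ⟨hi, hne⟩)
  have hl : ∀ i : Idx b, ll i ∈ lead w S (dd i) := fun i => hb1 _ _ i.2.2
  -- apply strip
  have h1 : ∑ i ∈ t, ll i * strip u (φ i) = 0 := by
    have h2 := congrArg (strip u) h0
    rw [map_sum, map_zero] at h2
    rw [← h2]
    refine Finset.sum_congr rfl (fun i hi => ?_)
    by_cases hne : φ i = 0
    · rw [hne]; simp
    · obtain ⟨h3, h4⟩ := hφ i hi hne
      have := hmax' i hi hne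
      rw [strip_mul hw h4 (by omega)]
  rw [← Finset.sum_filter_add_sum_filter_not t (fun i => dd i = dd i1)] at h1
  have hA : ∑ i ∈ t.filter (fun i => dd i = dd i1), ll i * strip u (φ i)
      = ∑ i ∈ t.filter (fun i => dd i = dd i1), (bs.repr (φ i) u) • ll i := by
    refine Finset.sum_congr rfl (fun i hi => ?_)
    rw [Finset.mem_filter] at hi
    by_cases hne : φ i = 0
    · rw [hne]; simp
    · obtain ⟨h3, h4⟩ := hφ i hi.1 hne
      rw [hi.2, ← hwu] at h4
      rw [strip_top hw h4, mul_smul_comm, mul_one]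
  have hB : ∑ i ∈ t.filter (fun i => ¬ dd i = dd i1), ll i * strip u (φ i) ∈ Dn w S (dd i1) := by
    refine Submodule.sum_mem _ (fun i hi => ?_)
    rw [Finset.mem_filter] at hi
    by_cases hne : φ i = 0
    · rw [hne, map_zero, mul_zero]; exact Submodule.zero_mem _
    · obtain ⟨h3, h4⟩ := hφ i hi.1 hne
      have h5 := hmax' i hi.1 hne
      have h6 : dd i < dd i1 := lt_of_le_of_ne h5 hi.2
      refine Submodule.subset_span ⟨dd i, by simp [dd], h6, ll i, hl i, strip u (φ i), ?_, rfl⟩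
      have h7 := strip_mem_hm (u := u) h4
      have h8 : N - dd i - wt w u = dd i1 - dd i := by omega
      rwa [h8] at h7
  rw [hA] at h1
  have hC : ∑ i ∈ t.filter (fun i => dd i = dd i1), (bs.repr (φ i) u) • ll i ∈
      Submodule.span k (b (dd i1)) := by
    refine Submodule.sum_mem _ (fun i hi => Submodule.smul_mem _ _ (Submodule.subset_span ?_))
    rw [Finset.mem_filter] at hi
    rw [← hi.2]
    exact i.2.2
  have hD : ∑ i ∈ t.filter (fun i => dd i = dd i1), (bs.repr (φ i) u) • ll i ∈ Dn w S (dd i1) := by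
    rw [eq_neg_of_add_eq_zero_left h1]
    exact Submodule.neg_mem _ hB
  have hE : ∑ i ∈ t.filter (fun i => dd i = dd i1), (bs.repr (φ i) u) • ll i = 0 := by
    have := (Submodule.disjoint_def.1 (hb3 (dd i1))) _ hC hD
    exact this
  have hF := linInd_fibre hb2 (dd i1)
  rw [linearIndependent_iff'] at hF
  have hG := hF ((t.filter (fun i => dd i = dd i1)).subtype (fun i => dd i = dd i1))
    (fun i => bs.repr (φ i.1) u) ?_ ⟨i1, rfl⟩ ?_
  · exact hu hG
  · rw [← hE]
    rw [Finset.sum_subtype_eq_sum_filter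
      (s := t.filter (fun i => dd i = dd i1)) (f := fun i => (bs.repr (φ i) u) • ll i)
      (p := fun i => dd i = dd i1)]
    rw [Finset.filter_filter]
    simp
  · rw [Finset.mem_subtype, Finset.mem_filter]
    exact ⟨hi1t, rfl⟩

theorem rind (hw : ∀ x, 0 < w x) (hb1 : ∀ n, ∀ y ∈ b n, y ∈ lead w S n)
    (hb2 : ∀ n, LinearIndependent k ((↑) : b n → FreeAlgebra k X))
    (hb3 : ∀ n, Disjoint (Submodule.span k (b n)) (Dn w S n)) :
    RInd (ll : Idx b → FreeAlgebra k X) := by
  classical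
  intro t φ h0 i hi
  have hl : ∀ i : Idx b, ll i ∈ hm w (dd i) := fun i => lead_le_hm w S _ (hb1 _ _ i.2.2)
  have key : ∀ N, ∀ i ∈ t, (if dd i ≤ N then cmp w (N - dd i) (φ i) else 0) = 0 := by
    intro N
    refine rind_hom w hw hb1 hb2 hb3 t
      (fun i => if dd i ≤ N then cmp w (N - dd i) (φ i) else 0) N ?_ ?_
    · intro i _ hne
      by_cases h : dd i ≤ N
      · refine ⟨h, ?_⟩
        rw [if_pos h]
        exact cmp_mem_hm w _ _
      · rw [if_neg h] at hne
        exact absurd rfl hne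
    · have h2 := congrArg (cmp w N) h0
      rw [map_sum, map_zero] at h2
      refine Eq.trans (Finset.sum_congr rfl (fun i _ => ?_)) h2
      rw [cmp_hm_mul w (hl i)]
      split_ifs <;> simp
  apply ext_repr
  intro l
  have h3 := key (dd i + wt w l) i hi
  rw [if_pos (by omega), show dd i + wt w l - dd i = wt w l by omega] at h3
  have h4 := congrArg (fun f => bs.repr f l) h3
  simp only [repr_cmp, if_true] at h4
  exact h4

/-- Every leading component is a right combination of the chosen ones. -/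
theorem lead_decomp (hb4 : ∀ n, lead w S n ≤ Submodule.span k (b n) ⊔ Dn w S n) :
    ∀ n, 1 ≤ n → ∀ z ∈ lead w S n, ∃ φ : Idx b →₀ FreeAlgebra k X,
      (∀ i, φ i ≠ 0 → dd i ≤ n ∧ φ i ∈ hm w (n - dd i)) ∧
      Finsupp.lsum k (fun i => LinearMap.mulLeft k (ll i)) φ = z := by
  classical
  intro n
  induction n using Nat.strong_induction_on with
  | _ n ih =>
    intro hn
    -- the set of good elements is a submodule
    let J : Submodule k (FreeAlgebra k X) :=
      { carrier := {z | ∃ φ : Idx b →₀ FreeAlgebra k X,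
          (∀ i, φ i ≠ 0 → dd i ≤ n ∧ φ i ∈ hm w (n - dd i)) ∧
          Finsupp.lsum k (fun i => LinearMap.mulLeft k (ll i)) φ = z}
        zero_mem' := ⟨0, by simp, by simp⟩
        add_mem' := by
          rintro _ _ ⟨φ, h1, rfl⟩ ⟨ψ, h2, rfl⟩
          refine ⟨φ + ψ, ?_, map_add _ _ _⟩
          intro i hi
          rw [Finsupp.add_apply] at hi ⊢
          by_cases h3 : φ i = 0
          · rw [h3, zero_add] at hi ⊢; exact h2 i hi
          · by_cases h4 : ψ i = 0
            · rw [h4, add_zero]; exact h1 i h3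
            · exact ⟨(h1 i h3).1, Submodule.add_mem _ (h1 i h3).2 (h2 i h4).2⟩
        smul_mem' := by
          rintro c _ ⟨φ, h1, rfl⟩
          refine ⟨c • φ, ?_, map_smul _ _ _⟩
          intro i hi
          rw [Finsupp.smul_apply] at hi ⊢
          have h3 : φ i ≠ 0 := fun h => hi (by rw [h, smul_zero])
          exact ⟨(h1 i h3).1, Submodule.smul_mem _ _ (h1 i h3).2⟩ }
    have hJ : ∀ (i : Idx b) (f : FreeAlgebra k X), dd i ≤ n → f ∈ hm w (n - dd i) →
        ll i * f ∈ J := by
      intro i f h1 h2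
      refine ⟨Finsupp.single i f, ?_, by simp⟩
      intro j hj
      by_cases h : j = i
      · subst h
        simp only [Finsupp.single_eq_same]
        exact ⟨h1, h2⟩
      · rw [Finsupp.single_eq_of_ne h] at hj
        exact absurd rfl hj
    have hle : Submodule.span k (b n) ⊔ Dn w S n ≤ J := by
      refine sup_le (Submodule.span_le.2 ?_) (Submodule.span_le.2 ?_)
      · intro y hy
        obtain ⟨m, rfl⟩ : ∃ m, n = m + 1 := ⟨n - 1, by omega⟩
        have := hJ ⟨m, y, hy⟩ 1 (le_of_eq (by simp [dd])) (by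
          simp only [dd, Nat.sub_self]
          rw [← mon_nil]; exact mon_mem_hm w (wt_nil w))
        rwa [mul_one] at this
      · rintro _ ⟨j, hj1, hj2, a, ha, f, hf, rfl⟩
        obtain ⟨φ, h1, h2⟩ := ih j hj2 hj1 a ha
        rw [← h2, Finsupp.lsum_apply, Finsupp.sum, Finset.sum_mul]
        refine Submodule.sum_mem _ (fun i hi => ?_)
        have hne : φ i ≠ 0 := by simpa using hi
        obtain ⟨h3, h4⟩ := h1 i hne
        rw [LinearMap.mulLeft_apply, mul_assoc]
        refine hJ i _ (by omega) ?_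
        have := mul_mem_hm w h4 hf
        rwa [show j - dd i + (n - j) = n - dd i by omega] at this
    intro z hz
    exact hle (hb4 n hz)

/-- Lifts of the leading components generate `S`. -/
theorem generate (hw : ∀ x, 0 < w x) (hb1 : ∀ n, ∀ y ∈ b n, y ∈ lead w S n)
    (hR : RInd (ll : Idx b → FreeAlgebra k X)) (hRC : RC w S)
    (hb4 : ∀ n, lead w S n ≤ Submodule.span k (b n) ⊔ Dn w S n)
    (σ : Idx b → FreeAlgebra k X) (hσ1 : ∀ i, σ i ∈ S) (hσ2 : ∀ i, σ i ∈ fl w (dd i + 1))
    (hσ3 : ∀ i, cmp w (dd i) (σ i) = ll i) :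
    ∀ n, ∀ s ∈ S, s ∈ fl w n → s ∈ Algebra.adjoin k (Set.range σ) := by
  classical
  intro n
  induction n using Nat.strong_induction_on with
  | _ n ih =>
    intro s hs hsn
    rcases n with _ | n
    · rw [fl_zero, Submodule.mem_bot] at hsn
      rw [hsn]; exact Subalgebra.zero_mem _
    rcases Nat.eq_zero_or_pos n with rfl | hn
    · refine fl_ind w (p := fun s => s ∈ Algebra.adjoin k (Set.range σ)) hsn ?_ ?_ ?_ ?_
      · intro l hl
        rw [wt_eq_zero hw (show wt w l = 0 by omega), mon_nil]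
        exact Subalgebra.one_mem _
      · exact Subalgebra.zero_mem _
      · intro a b ha hb; exact Subalgebra.add_mem _ ha hb
      · intro c a ha; exact Subalgebra.smul_mem _ ha c
    · have hlead : cmp w n s ∈ lead w S n := (mem_lead w).2 ⟨s, hs, hsn, rfl⟩
      obtain ⟨φ, h1, h2⟩ := lead_decomp w hb4 n hn _ hlead
      rw [Finsupp.lsum_apply, Finsupp.sum] at h2
      simp only [LinearMap.mulLeft_apply] at h2
      have h3 : ∀ i ∈ φ.support, φ i ∈ lead w S (n - dd i) := by
        refine hRC (Idx b) ll dd hR (fun i => hb1 _ _ i.2.2) φ.support n φ ?_ ?_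
        · intro i hi
          exact h1 i (by simpa using hi)
        · rw [h2]; exact hlead
      have h4 : ∀ i, ∃ g : FreeAlgebra k X, g ∈ Algebra.adjoin k (Set.range σ) ∧
          (i ∈ φ.support → g ∈ S ∧ g ∈ fl w (n - dd i + 1) ∧ cmp w (n - dd i) g = φ i) := by
        intro i
        by_cases hi : i ∈ φ.support
        · obtain ⟨g, hg1, hg2, hg3⟩ := (mem_lead w).1 (h3 i hi)
          refine ⟨g, ih (n - dd i + 1) (by simp only [dd]; omega) g hg1 hg2, fun _ => ⟨hg1, hg2, hg3⟩⟩
        · exact ⟨0, Subalgebra.zero_mem _, fun h => absurd h hi⟩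
      choose g hg1 hg2 using h4
      have h5 : ∑ i ∈ φ.support, σ i * g i ∈ Algebra.adjoin k (Set.range σ) :=
        Subalgebra.sum_mem _ (fun i _ => Subalgebra.mul_mem _
          (Algebra.subset_adjoin ⟨i, rfl⟩) (hg1 i))
      have h6 : ∑ i ∈ φ.support, σ i * g i ∈ S :=
        Subalgebra.sum_mem _ (fun i hi => Subalgebra.mul_mem _ (hσ1 i) (hg2 i hi).1)
      have h7 : ∀ i ∈ φ.support, dd i ≤ n := fun i hi => (h1 i (by simpa using hi)).1
      have h8 : ∑ i ∈ φ.support, σ i * g i ∈ fl w (n + 1) := by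
        refine Submodule.sum_mem _ (fun i hi => ?_)
        have := mul_mem_fl w (hσ2 i) (hg2 i hi).2.1
        have h9 := h7 i hi
        rwa [show dd i + (n - dd i) + 1 = n + 1 by omega] at this
      have h9 : cmp w n (∑ i ∈ φ.support, σ i * g i) = cmp w n s := by
        rw [map_sum, ← h2]
        refine Finset.sum_congr rfl (fun i hi => ?_)
        have h10 := cmp_mul w (hσ2 i) (hg2 i hi).2.1
        have h11 := h7 i hi
        rw [show dd i + (n - dd i) = n by omega] at h10
        rw [h10, hσ3, (hg2 i hi).2.2]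
      have h10 : s - ∑ i ∈ φ.support, σ i * g i ∈ fl w n :=
        mem_fl_of_cmp w (Submodule.sub_mem _ hsn h8) (by rw [map_sub, h9, sub_self])
      have h11 := ih n (Nat.lt_succ_self n) _ (Subalgebra.sub_mem _ hs h6) h10
      have h12 := Subalgebra.add_mem _ h11 h5
      rwa [sub_add_cancel] at h12

/-- The largest weight of a word of `f`. -/
noncomputable def topwt (f : FreeAlgebra k X) : ℕ := (bs.repr f).support.sup (wt w)

theorem mem_fl_topwt (f : FreeAlgebra k X) : f ∈ fl w (topwt w f + 1) := by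
  rw [mem_fl]
  intro l hl
  have : wt w l ≤ topwt w f := Finset.le_sup (f := wt w) (by simpa using hl)
  omega

theorem cmp_topwt {f : FreeAlgebra k X} (hf : f ≠ 0) : cmp w (topwt w f) f ≠ 0 := by
  have hne : (bs.repr f).support.Nonempty := by
    rw [Finsupp.support_nonempty_iff]
    intro h
    exact hf (bs.repr.injective (by rw [h, map_zero]))
  obtain ⟨l, hl1, hl2⟩ := Finset.exists_mem_eq_sup _ hne (wt w)
  intro h
  have h2 := congrArg (fun f => bs.repr f l) h
  simp only [repr_cmp, map_zero, Finsupp.coe_zero, Pi.zero_apply] at h2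
  rw [if_pos (show wt w l = topwt w f from hl2.symm)] at h2
  exact (by simpa using hl1 : bs.repr f l ≠ 0) h2

theorem indep_lift (hR : RInd (ll : Idx b → FreeAlgebra k X))
    (σ : Idx b → FreeAlgebra k X) (hσ2 : ∀ i, σ i ∈ fl w (dd i + 1))
    (hσ3 : ∀ i, cmp w (dd i) (σ i) = ll i)
    (t : Finset (Idx b)) (ψ : Idx b → FreeAlgebra k X) (c : k)
    (h0 : algebraMap k (FreeAlgebra k X) c + ∑ i ∈ t, σ i * ψ i = 0) :
    (∀ i ∈ t, ψ i = 0) ∧ c = 0 := by
  classical
  have h1 : ∀ i ∈ t, ψ i = 0 := by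
    by_contra hcon
    push Not at hcon
    obtain ⟨i0, hi0, hne0⟩ := hcon
    obtain ⟨i1, hi1, hmax⟩ := Finset.exists_max_image (t.filter (fun i => ψ i ≠ 0))
      (fun i => dd i + topwt w (ψ i)) ⟨i0, Finset.mem_filter.2 ⟨hi0, hne0⟩⟩
    rw [Finset.mem_filter] at hi1
    set N := dd i1 + topwt w (ψ i1) with hN
    have h2 := congrArg (cmp w N) h0
    rw [map_add, map_sum, map_zero] at h2
    have h3 : cmp w N (algebraMap k (FreeAlgebra k X) c) = 0 := by
      rw [Algebra.algebraMap_eq_smul_one, map_smul, ← mon_nil, cmp_mon, if_neg, smul_zero]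
      rw [wt_nil, hN]; simp only [dd]; omega
    rw [h3, zero_add] at h2
    have h4 : ∑ i ∈ t, ll i * (if ψ i = 0 then 0 else cmp w (N - dd i) (ψ i)) = 0 := by
      refine Eq.trans (Finset.sum_congr rfl (fun i hi => ?_)) h2
      by_cases h5 : ψ i = 0
      · rw [if_pos h5, h5]; simp
      · rw [if_neg h5]
        have h6 := hmax i (Finset.mem_filter.2 ⟨hi, h5⟩)
        change dd i + topwt w (ψ i) ≤ N at h6
        have h7 : ψ i ∈ fl w (N - dd i + 1) := fl_mono w (by omega) (mem_fl_topwt w (ψ i))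
        have h8 := cmp_mul w (hσ2 i) h7
        rw [show dd i + (N - dd i) = N by omega, hσ3] at h8
        exact h8.symm
    have h5 := hR t _ h4 i1 hi1.1
    simp only [if_neg hi1.2] at h5
    rw [show N - dd i1 = topwt w (ψ i1) by omega] at h5
    exact cmp_topwt w hi1.2 h5
  refine ⟨h1, ?_⟩
  rw [Finset.sum_eq_zero (fun i hi => by rw [h1 i hi, mul_zero]), add_zero] at h0
  exact (FreeAlgebra.algebraMap_eq_zero_iff c).1 h0

theorem decomp_first {I : Type*} (M : ℕ) (P : FreeAlgebra k I)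
    (hP : P ∈ fl (fun _ => 1) (M + 1)) :
    ∃ (c : k) (φ : I →₀ FreeAlgebra k I), (∀ i, φ i ∈ fl (fun _ => 1) M) ∧
      P = algebraMap k _ c + Finsupp.lsum k (fun i => LinearMap.mulLeft k (FreeAlgebra.ι k i)) φ := by
  classical
  refine fl_ind (fun _ => 1) (p := fun P => ∃ (c : k) (φ : I →₀ FreeAlgebra k I),
    (∀ i, φ i ∈ fl (fun _ => 1) M) ∧
      P = algebraMap k _ c + Finsupp.lsum k (fun i => LinearMap.mulLeft k (FreeAlgebra.ι k i)) φ)
    hP ?_ ?_ ?_ ?_
  · intro l hl
    rcases l with _ | ⟨x, l⟩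
    · exact ⟨1, 0, fun i => by simp, by simp [mon_nil]⟩
    · refine ⟨0, Finsupp.single x (mon l), fun i => ?_, by simp [mon_cons]⟩
      by_cases h : i = x
      · subst h
        rw [Finsupp.single_eq_same]
        refine mon_mem_fl _ ?_
        rw [wt_cons] at hl
        omega
      · rw [Finsupp.single_eq_of_ne h]
        exact Submodule.zero_mem _
  · exact ⟨0, 0, fun i => by simp, by simp⟩
  · rintro a b ⟨c1, φ1, h1, rfl⟩ ⟨c2, φ2, h2, rfl⟩
    refine ⟨c1 + c2, φ1 + φ2, fun i => Submodule.add_mem _ (h1 i) (h2 i), ?_⟩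
    rw [map_add, map_add]
    abel
  · rintro c a ⟨c1, φ1, h1, rfl⟩
    refine ⟨c * c1, c • φ1, fun i => Submodule.smul_mem _ _ (h1 i), ?_⟩
    rw [map_smul, smul_add, map_mul, Algebra.algebraMap_eq_smul_one c, smul_mul_assoc, one_mul]

theorem lift_injective (hR : RInd (ll : Idx b → FreeAlgebra k X))
    (σ : Idx b → FreeAlgebra k X) (hσ2 : ∀ i, σ i ∈ fl w (dd i + 1))
    (hσ3 : ∀ i, cmp w (dd i) (σ i) = ll i) :
    Function.Injective (FreeAlgebra.lift k σ) := by
  rw [injective_iff_map_eq_zero]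
  have key : ∀ M, ∀ P : FreeAlgebra k (Idx b), P ∈ fl (fun _ => 1) M →
      FreeAlgebra.lift k σ P = 0 → P = 0 := by
    intro M
    induction M with
    | zero =>
      intro P hP _
      rwa [fl_zero, Submodule.mem_bot] at hP
    | succ M ih =>
      intro P hP h0
      obtain ⟨c, φ, h1, rfl⟩ := decomp_first M P hP
      rw [map_add, AlgHom.commutes, Finsupp.lsum_apply, Finsupp.sum, map_sum] at h0
      simp only [LinearMap.mulLeft_apply, map_mul, FreeAlgebra.lift_ι_apply] at h0
      obtain ⟨h2, h3⟩ := indep_lift w hR σ hσ2 hσ3 φ.support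
        (fun i => FreeAlgebra.lift k σ (φ i)) c h0
      rw [h3, map_zero, zero_add, Finsupp.lsum_apply, Finsupp.sum]
      refine Finset.sum_eq_zero (fun i hi => ?_)
      rw [ih _ (h1 i) (h2 i hi), map_zero]
  intro P hP
  obtain ⟨M, hM⟩ := exists_fl (fun _ => 1) P
  exact key M P hM hP

end Main

/-- **Criterion.** A subalgebra of a free algebra whose leading components are right closed
is free. -/
theorem free_of_RC (hw : ∀ x, 0 < w x) (S : Subalgebra k (FreeAlgebra k X)) (h : RC w S) :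
    ∃ Y : Set S, Function.Bijective (FreeAlgebra.lift k (fun y : Y => (y : S))) := by
  choose b hb1 hb2 hb3 hb4 using exists_basis w S
  have hR : RInd (ll : Idx b → FreeAlgebra k X) := rind w hw hb1 hb2 hb3
  have hlift : ∀ i : Idx b, ∃ s ∈ S, s ∈ fl w (dd i + 1) ∧ cmp w (dd i) s = ll i :=
    fun i => (mem_lead w).1 (hb1 _ _ i.2.2)
  choose σ hσ1 hσ2 hσ3 using hlift
  have hinj := lift_injective w hR σ hσ2 hσ3
  have hgen := generate w hw hb1 hR h hb4 σ hσ1 hσ2 hσ3
  let τ : Idx b → S := fun i => ⟨σ i, hσ1 i⟩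
  have hτ : ∀ P : FreeAlgebra k (Idx b),
      ((FreeAlgebra.lift k τ P : S) : FreeAlgebra k X) = FreeAlgebra.lift k σ P := by
    intro P
    have : S.val.comp (FreeAlgebra.lift k τ) = FreeAlgebra.lift k σ := by
      apply FreeAlgebra.hom_ext
      funext i
      simp [τ]
    exact DFunLike.congr_fun this P
  have hbij : Function.Bijective (FreeAlgebra.lift k τ) := by
    constructor
    · intro P Q hPQ
      apply hinj
      rw [← hτ, ← hτ, hPQ]
    · intro s
      obtain ⟨n, hn⟩ := exists_fl w (s : FreeAlgebra k X)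
      have h1 := hgen n s s.2 hn
      rw [Algebra.adjoin_range_eq_range_freeAlgebra_lift] at h1
      obtain ⟨P, hP⟩ := h1
      exact ⟨P, Subtype.ext (by rw [hτ]; exact hP)⟩
  have hτinj : Function.Injective τ := by
    intro i j hij
    apply FreeAlgebra.ι_injective (R := k)
    apply hbij.1
    rw [FreeAlgebra.lift_ι_apply, FreeAlgebra.lift_ι_apply, hij]
  refine ⟨Set.range τ, ?_⟩
  let e : Idx b ≃ Set.range τ := Equiv.ofInjective τ hτinj
  let E : FreeAlgebra k (Idx b) →ₐ[k] FreeAlgebra k (Set.range τ) :=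
    FreeAlgebra.lift k (fun i => FreeAlgebra.ι k (e i))
  let E' : FreeAlgebra k (Set.range τ) →ₐ[k] FreeAlgebra k (Idx b) :=
    FreeAlgebra.lift k (fun y => FreeAlgebra.ι k (e.symm y))
  have hEE' : E'.comp E = AlgHom.id k _ := by
    apply FreeAlgebra.hom_ext
    funext i
    simp [E, E']
  have hE'E : E.comp E' = AlgHom.id k _ := by
    apply FreeAlgebra.hom_ext
    funext i
    simp [E, E']
  have hcomp : (FreeAlgebra.lift k (fun y : Set.range τ => (y : S))) =
      (FreeAlgebra.lift k τ).comp E' := by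
    apply FreeAlgebra.hom_ext
    funext y
    simp only [Function.comp_apply, FreeAlgebra.lift_ι_apply, AlgHom.comp_apply, E']
    obtain ⟨i, hi⟩ := e.surjective y
    rw [← hi, Equiv.symm_apply_apply]
    rfl
  rw [hcomp]
  have hE'bij : Function.Bijective E' := by
    constructor
    · intro P Q hPQ
      have := congrArg E hPQ
      have h1 := DFunLike.congr_fun hE'E P
      have h2 := DFunLike.congr_fun hE'E Q
      simp only [AlgHom.comp_apply, AlgHom.id_apply] at h1 h2
      rw [← h1, ← h2, this]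
    · intro P
      exact ⟨E P, DFunLike.congr_fun hEE' P⟩
  exact hbij.comp hE'bij

end Pool.Agent.Helper71.FreeCrit
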