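import Mathlib

namespace Pool.Agent.Helper71.FreeDefs

variable {k X : Type*} [Field k]

/-- The subalgebra of elements of `k⟨X⟩` fixed by every automorphism in `G`. -/
def invariants (G : Subgroup (FreeAlgebra k X ≃ₐ[k] FreeAlgebra k X)) :
    Subalgebra k (FreeAlgebra k X) where
  carrier := {f | ∀ g ∈ G, g f = f}
  mul_mem' ha hb g hg := by rw [map_mul, ha g hg, hb g hg]
  add_mem' ha hb g hg := by rw [map_add, ha g hg, hb g hg]
  algebraMap_mem' c g _ := AlgEquiv.commutes g c

/-- The subalgebra of elements of `k⟨X⟩` fixed by every endomorphism in the set `G`. -/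
def fixedAlgebra (G : Set (FreeAlgebra k X →ₐ[k] FreeAlgebra k X)) :
    Subalgebra k (FreeAlgebra k X) where
  carrier := {f | ∀ g ∈ G, g f = f}
  mul_mem' ha hb g hg := by rw [map_mul, ha g hg, hb g hg]
  add_mem' ha hb g hg := by rw [map_add, ha g hg, hb g hg]
  algebraMap_mem' c g _ := AlgHom.commutes g c

/-- The subalgebra `S` is a free algebra: some subset `Y` of `S` is a free generating set,
that is, the natural map `k⟨Y⟩ → S` is an isomorphism. -/
def IsFree (S : Subalgebra k (FreeAlgebra k X)) : Prop :=
  ∃ Y : Set S, Function.Bijective (FreeAlgebra.lift k (fun y : Y => (y : S)))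

/-- The component of weight `n` of `f`, where the variable `x` has weight `w x`: the coefficient
of `t ^ n` in the image of `f` under the algebra map `k⟨X⟩ → k⟨X⟩[t]`, `x ↦ x t ^ (w x)`. -/
noncomputable def component (w : X → ℕ) (n : ℕ) (f : FreeAlgebra k X) : FreeAlgebra k X :=
  (FreeAlgebra.lift k (fun x => Polynomial.monomial (w x) (FreeAlgebra.ι k x)) f).coeff n

end Pool.Agent.Helper71.FreeDefs
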