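import Pool.Agent.Helper71.FreeTrace

namespace Pool.Agent.Helper71.FreeInf

open Module Pool.Agent.Helper71.FreeCore Pool.Agent.Helper71.FreeCrit Pool.Agent.Helper71.FreeApp
  Pool.Agent.Helper71.FreeTrace

universe u v

variable {k : Type u} [Field k] {X : Type v}

theorem tra_ι (lam : X → k) (x : X) :
    tra lam (FreeAlgebra.ι k x) = FreeAlgebra.ι k x + algebraMap k _ (lam x) := by
  rw [tra, FreeAlgebra.lift_ι_apply]

theorem tra_tra (lam mu : X → k) (f : FreeAlgebra k X) :
    tra lam (tra mu f) = tra (lam + mu) f := by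
  have : (tra lam).comp (tra mu) = tra (lam + mu) := by
    apply FreeAlgebra.hom_ext
    funext x
    simp only [Function.comp_apply, AlgHom.comp_apply, tra_ι, map_add, AlgHom.commutes,
      Pi.add_apply]
    abel
  exact DFunLike.congr_fun this f

theorem tra_zero (f : FreeAlgebra k X) : tra (0 : X → k) f = f := by
  have : tra (0 : X → k) = AlgHom.id k _ := by
    apply FreeAlgebra.hom_ext
    funext x
    simp only [Function.comp_apply, tra_ι, Pi.zero_apply, map_zero, add_zero, AlgHom.id_apply]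
  exact DFunLike.congr_fun this f

/-- The subalgebra fixed by a set of translations. -/
def fixT (Λ : Set (X → k)) : Subalgebra k (FreeAlgebra k X) where
  carrier := {f | ∀ lam ∈ Λ, tra lam f = f}
  mul_mem' ha hb g hg := by rw [map_mul, ha g hg, hb g hg]
  add_mem' ha hb g hg := by rw [map_add, ha g hg, hb g hg]
  algebraMap_mem' c g _ := AlgHom.commutes _ c

theorem mem_fixT {Λ : Set (X → k)} {f : FreeAlgebra k X} :
    f ∈ fixT Λ ↔ ∀ lam ∈ Λ, tra lam f = f := Iff.rfl

section Vander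

theorem vander_mem {M : Type*} [AddCommGroup M] [Module k M] (W : Submodule k M) {N : ℕ}
    (v : Fin N → M) (c : Fin N → k) (hc : Function.Injective c)
    (h : ∀ i, ∑ j : Fin N, c i ^ (j : ℕ) • v j ∈ W) (j : Fin N) : v j ∈ W := by
  classical
  have hdet : IsUnit (Matrix.vandermonde c).det :=
    isUnit_iff_ne_zero.2 (Matrix.det_vandermonde_ne_zero_iff.2 hc)
  have hinv := Matrix.nonsing_inv_mul _ hdet
  have h1 : v j = ∑ i : Fin N, ((Matrix.vandermonde c)⁻¹ j i) •
      ∑ l : Fin N, c i ^ (l : ℕ) • v l := by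
    simp only [Finset.smul_sum, smul_smul]
    rw [Finset.sum_comm]
    have h2 : ∀ l : Fin N, ∑ i : Fin N, ((Matrix.vandermonde c)⁻¹ j i * c i ^ (l : ℕ)) • v l =
        ((1 : Matrix (Fin N) (Fin N) k) j l) • v l := by
      intro l
      rw [← Finset.sum_smul, ← hinv, Matrix.mul_apply]
      rfl
    simp only [h2, Matrix.one_apply, ite_smul, one_smul, zero_smul]
    simp
  rw [h1]
  exact Submodule.sum_mem _ (fun i _ => Submodule.smul_mem _ _ (h i))

end Vander

section CharZero

variable (w : X → ℕ)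

/-- Scaling. -/
noncomputable def sca (c : k) : FreeAlgebra k X →ₐ[k] FreeAlgebra k X :=
  FreeAlgebra.lift k (fun x => c • FreeAlgebra.ι k x)

theorem sca_mon (c : k) (l : List X) :
    sca c (mon l) = c ^ (wt (fun _ => 1) l) • (mon l : FreeAlgebra k X) := by
  induction l with
  | nil => simp [mon_nil, wt_nil]
  | cons x l ih =>
    rw [mon_cons, map_mul, ih, sca, FreeAlgebra.lift_ι_apply, wt_cons, pow_add, pow_one,
      smul_mul_assoc, mul_smul_comm, smul_smul]

theorem sca_eq (c : k) (N : ℕ) {f : FreeAlgebra k X} (hf : f ∈ fl (fun _ => 1) N) :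
    sca c f = ∑ j : Fin N, c ^ (j : ℕ) • cmp (fun _ => 1) j f := by
  refine fl_ind (fun _ => 1) (p := fun f => sca c f =
    ∑ j : Fin N, c ^ (j : ℕ) • cmp (fun _ => 1) j f) hf ?_ ?_ ?_ ?_
  · intro l hl
    rw [sca_mon, Finset.sum_eq_single (⟨wt (fun _ => 1) l, hl⟩ : Fin N)]
    · rw [cmp_mon, if_pos rfl]
    · intro j _ hj
      rw [cmp_mon, if_neg, smul_zero]
      intro h
      exact hj (Fin.ext h.symm)
    · intro h; exact absurd (Finset.mem_univ _) h
  · simp
  · intro a b ha hb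
    simp only [map_add, smul_add, Finset.sum_add_distrib, ha, hb]
  · intro d a ha
    simp only [map_smul, ha, Finset.smul_sum]
    exact Finset.sum_congr rfl (fun j _ => smul_comm _ _ _)

theorem tra_sca (lam : X → k) (c : k) (f : FreeAlgebra k X) :
    tra lam (sca c f) = sca c (tra (c • lam) f) := by
  have : (tra lam).comp (sca c) = (sca c).comp (tra (c • lam)) := by
    apply FreeAlgebra.hom_ext
    funext x
    simp only [Function.comp_apply, AlgHom.comp_apply, tra_ι, map_add, AlgHom.commutes, sca,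
      FreeAlgebra.lift_ι_apply, map_smul, smul_add, Pi.smul_apply, smul_eq_mul]
    rw [map_mul, Algebra.smul_def, Algebra.smul_def]
  exact DFunLike.congr_fun this f

theorem homogeneous_of_charZero [CharZero k] (Λ : AddSubgroup (X → k)) :
    ∀ f ∈ fixT (Λ : Set (X → k)), ∀ n, cmp (fun _ => 1) n f ∈ fixT (Λ : Set (X → k)) := by
  intro f hf n lam hlam
  obtain ⟨N, hN⟩ := exists_fl (fun _ => 1) f
  by_cases hn : n < N
  · have h1 : ∀ i : Fin N, ∑ j : Fin N, ((i : ℕ) : k) ^ (j : ℕ) • cmp (fun _ => 1) j f ∈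
        LinearMap.ker ((tra lam).toLinearMap - LinearMap.id) := by
      intro i
      rw [← sca_eq _ N hN, LinearMap.mem_ker, LinearMap.sub_apply, sub_eq_zero]
      change tra lam (sca ((i : ℕ) : k) f) = sca ((i : ℕ) : k) f
      rw [tra_sca]
      congr 1
      apply hf
      have : ((i : ℕ) : k) • lam = (i : ℕ) • lam := by
        funext x; simp
      rw [this]
      exact Λ.nsmul_mem hlam _
    have h2 := vander_mem (LinearMap.ker ((tra lam).toLinearMap - LinearMap.id))
      (fun j : Fin N => cmp (fun _ => 1) (j : ℕ) f) (fun i => ((i : ℕ) : k))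
      (fun i j hij => Fin.ext (Nat.cast_injective hij)) h1 ⟨n, hn⟩
    rw [LinearMap.mem_ker, LinearMap.sub_apply, sub_eq_zero] at h2
    exact h2
  · rw [cmp_of_fl _ hN (not_lt.1 hn), map_zero]

theorem RC_charZero [CharZero k] (Λ : AddSubgroup (X → k)) :
    RC (fun _ => 1) (fixT (Λ : Set (X → k))) := by
  have h1 : fixT (Λ : Set (X → k)) = fixedBy (tra '' (Λ : Set (X → k))) := by
    ext f
    rw [mem_fixT, mem_fixedBy]
    simp
  have h2 := homogeneous_of_charZero Λ
  rw [h1] at h2 ⊢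
  exact RC_of_homogeneous _ _ h2

end CharZero

section CharP

variable (w : X → ℕ)

/-- A finite additive group of translations has trace data. -/
theorem TD_add (hw : ∀ x, 0 < w x) (Λ : AddSubgroup (X → k)) [Fintype Λ] :
    ∃ (N : ℕ) (c : FreeAlgebra k X) (κ : k), κ ≠ 0 ∧ c ∈ fl w (N + 1) ∧
      ∑ lam : Λ, tra (lam : X → k) c = algebraMap k _ κ ∧
      ∀ n, ∀ f ∈ fl w (n + N), ∑ lam : Λ, tra (lam : X → k) f ∈ fl w n := by
  classical
  let ε : FreeAlgebra k X →ₐ[k] k := FreeAlgebra.lift k (fun _ => 0)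
  have hε : ∀ (lam : Λ) (f : FreeAlgebra k X),
      ε (tra (lam : X → k) f) = FreeAlgebra.lift k (lam : X → k) f := by
    intro lam f
    have : ε.comp (tra (lam : X → k)) = FreeAlgebra.lift k (lam : X → k) := by
      apply FreeAlgebra.hom_ext
      funext x
      simp [ε, tra]
    exact DFunLike.congr_fun this f
  have hne : ∃ f : FreeAlgebra k X, ε (∑ lam : Λ, tra (lam : X → k) f) ≠ 0 := by
    by_contra hcon
    push Not at hcon
    have hli := linearIndependent_monoidHom (FreeAlgebra k X) k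
    let ch : Λ → (FreeAlgebra k X →* k) := fun lam => ((FreeAlgebra.lift k (lam : X → k) :
      FreeAlgebra k X →ₐ[k] k) : FreeAlgebra k X →* k)
    have hchinj : Function.Injective ch := by
      intro s t hst
      apply Subtype.ext
      funext x
      have := DFunLike.congr_fun hst (FreeAlgebra.ι k x)
      simpa [ch] using this
    have h2 := hli.comp ch hchinj
    rw [Fintype.linearIndependent_iff] at h2
    have h3 := h2 (fun _ => 1) ?_ 0
    · exact one_ne_zero h3
    · funext f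
      have h4 := hcon f
      rw [map_sum] at h4
      simp only [hε] at h4
      simpa [ch] using h4
  have hne' : ∃ n, ∃ f ∈ fl w (n + 1), ε (∑ lam : Λ, tra (lam : X → k) f) ≠ 0 := by
    obtain ⟨f, hf⟩ := hne
    obtain ⟨n, hn⟩ := exists_fl w f
    exact ⟨n, f, fl_mono w (Nat.le_succ n) hn, hf⟩
  obtain ⟨c, hc1, hc2⟩ := Nat.find_spec hne'
  have hmin : ∀ f ∈ fl w (Nat.find hne'), ε (∑ lam : Λ, tra (lam : X → k) f) = 0 := by
    intro f hf
    by_contra hcon
    rcases Nat.eq_zero_or_pos (Nat.find hne') with h0 | h0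
    · rw [h0, fl_zero, Submodule.mem_bot] at hf
      rw [hf] at hcon
      simp at hcon
    · have h1 := Nat.find_min hne' (m := Nat.find hne' - 1) (by omega)
      apply h1
      refine ⟨f, ?_, hcon⟩
      rwa [show Nat.find hne' - 1 + 1 = Nat.find hne' by omega]
  have hlow : ∀ n, ∀ f ∈ fl w (n + Nat.find hne'), ∑ lam : Λ, tra (lam : X → k) f ∈ fl w n := by
    intro n f hf
    refine sum_tra_mem w Finset.univ (fun lam : Λ => (lam : X → k)) (Nat.find hne') ?_ n hf
    intro a ha
    have h1 := hmin (mon a) (mon_mem_fl w ha)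
    rw [map_sum] at h1
    simp only [hε, lift_mon] at h1
    exact h1
  have hc3 : ∑ lam : Λ, tra (lam : X → k) c ∈ fl w 1 := hlow 1 c (by rw [add_comm]; exact hc1)
  obtain ⟨κ, hκ⟩ := fl_one w hw hc3
  refine ⟨Nat.find hne', c, κ, ?_, hc1, hκ, hlow⟩
  rintro rfl
  rw [hκ, map_zero, map_zero] at hc2
  exact hc2 rfl

open Classical in
/-- The retraction killing the variables outside `Z`. -/
noncomputable def rho (Z : Set X) : FreeAlgebra k X →ₐ[k] FreeAlgebra k X :=
  FreeAlgebra.lift k (fun x => if x ∈ Z then FreeAlgebra.ι k x else 0)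

theorem rho_ι_mem {Z : Set X} {x : X} (h : x ∈ Z) :
    rho Z (FreeAlgebra.ι k x) = FreeAlgebra.ι k x := by
  rw [rho, FreeAlgebra.lift_ι_apply, if_pos h]

theorem rho_ι_not {Z : Set X} {x : X} (h : x ∉ Z) : rho Z (FreeAlgebra.ι k x) = 0 := by
  rw [rho, FreeAlgebra.lift_ι_apply, if_neg h]

theorem rho_mem (Z : Set X) (f : FreeAlgebra k X) :
    rho Z f ∈ Algebra.adjoin k (FreeAlgebra.ι k '' Z) := by
  refine mon_ind (p := fun f => rho Z f ∈ Algebra.adjoin k (FreeAlgebra.ι k '' Z)) f ?_ ?_ ?_ ?_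
  · intro l
    induction l with
    | nil => rw [mon_nil, map_one]; exact Subalgebra.one_mem _
    | cons x l ih =>
      rw [mon_cons, map_mul]
      refine Subalgebra.mul_mem _ ?_ ih
      by_cases h : x ∈ Z
      · rw [rho_ι_mem h]; exact Algebra.subset_adjoin ⟨x, h, rfl⟩
      · rw [rho_ι_not h]; exact Subalgebra.zero_mem _
  · rw [map_zero]; exact Subalgebra.zero_mem _
  · intro a b ha hb; rw [map_add]; exact Subalgebra.add_mem _ ha hb
  · intro c a ha; rw [map_smul]; exact Subalgebra.smul_mem _ ha _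

theorem eq_on_adjoin {Z : Set X} {g h : FreeAlgebra k X →ₐ[k] FreeAlgebra k X}
    (hgh : ∀ x ∈ Z, g (FreeAlgebra.ι k x) = h (FreeAlgebra.ι k x)) {f : FreeAlgebra k X}
    (hf : f ∈ Algebra.adjoin k (FreeAlgebra.ι k '' Z)) : g f = h f := by
  have h1 : Algebra.adjoin k (FreeAlgebra.ι k '' Z) ≤ AlgHom.equalizer g h := by
    rw [Algebra.adjoin_le_iff]
    rintro _ ⟨x, hx, rfl⟩
    exact hgh x hx
  exact h1 hf

theorem rho_of_mem {Z : Set X} {f : FreeAlgebra k X}
    (hf : f ∈ Algebra.adjoin k (FreeAlgebra.ι k '' Z)) : rho Z f = f :=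
  eq_on_adjoin (h := AlgHom.id k _) (fun _ hx => rho_ι_mem hx) hf

theorem tra_rho {Z : Set X} {lam : X → k} (h : ∀ x, x ∉ Z → lam x = 0) (f : FreeAlgebra k X) :
    tra lam (rho Z f) = rho Z (tra lam f) := by
  have : (tra lam).comp (rho Z) = (rho Z).comp (tra lam) := by
    apply FreeAlgebra.hom_ext
    funext x
    simp only [Function.comp_apply, AlgHom.comp_apply, tra_ι, map_add, AlgHom.commutes]
    by_cases hx : x ∈ Z
    · rw [rho_ι_mem hx, tra_ι]
    · rw [rho_ι_not hx, h x hx]; simp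
  exact DFunLike.congr_fun this f

theorem exists_support (f : FreeAlgebra k X) :
    ∃ Z : Finset X, f ∈ Algebra.adjoin k (FreeAlgebra.ι k '' (Z : Set X)) := by
  classical
  refine mon_ind (p := fun f => ∃ Z : Finset X,
    f ∈ Algebra.adjoin k (FreeAlgebra.ι k '' (Z : Set X))) f ?_ ?_ ?_ ?_
  · intro l
    refine ⟨l.toFinset, ?_⟩
    have : ∀ m : List X, (∀ y ∈ m, y ∈ l) →
        (mon m : FreeAlgebra k X) ∈ Algebra.adjoin k (FreeAlgebra.ι k '' (l.toFinset : Set X)) := by
      intro m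
      induction m with
      | nil => intro _; rw [mon_nil]; exact Subalgebra.one_mem _
      | cons x m ih =>
        intro h
        rw [mon_cons]
        refine Subalgebra.mul_mem _ (Algebra.subset_adjoin ⟨x, ?_, rfl⟩)
          (ih (fun y hy => h y (List.mem_cons_of_mem _ hy)))
        simpa using h x (by simp)
    exact this l (fun y hy => hy)
  · exact ⟨∅, Subalgebra.zero_mem _⟩
  · rintro a b ⟨Z1, h1⟩ ⟨Z2, h2⟩
    refine ⟨Z1 ∪ Z2, Subalgebra.add_mem _ (Algebra.adjoin_mono (Set.image_mono ?_) h1)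
      (Algebra.adjoin_mono (Set.image_mono ?_) h2)⟩
    · intro x hx; simp only [Finset.coe_union, Set.mem_union]; exact Or.inl hx
    · intro x hx; simp only [Finset.coe_union, Set.mem_union]; exact Or.inr hx
  · rintro c a ⟨Z, h⟩
    exact ⟨Z, Subalgebra.smul_mem _ h c⟩

/-- Truncation of a function to `Z`. -/
noncomputable def trunc (Z : Set X) : (X → k) →+ (X → k) where
  toFun lam := Set.indicator Z lam
  map_zero' := Set.indicator_zero _ _
  map_add' lam mu := Set.indicator_add _ lam mu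

theorem trunc_mem {Z : Set X} {lam : X → k} {x : X} (h : x ∈ Z) : trunc Z lam x = lam x :=
  Set.indicator_of_mem h lam

theorem trunc_not {Z : Set X} {lam : X → k} {x : X} (h : x ∉ Z) : trunc Z lam x = 0 :=
  Set.indicator_of_notMem h lam

theorem tra_trunc {Z : Set X} {lam : X → k} {f : FreeAlgebra k X}
    (hf : f ∈ Algebra.adjoin k (FreeAlgebra.ι k '' Z)) : tra (trunc Z lam) f = tra lam f :=
  eq_on_adjoin (fun x hx => by rw [tra_ι, tra_ι, trunc_mem hx]) hf

theorem finite_sup {M : Type*} [AddCommGroup M] (A B : AddSubgroup M) [Finite A] [Finite B] :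
    Finite (A ⊔ B : AddSubgroup M) := by
  refine Finite.of_surjective (fun p : A × B =>
    (⟨(p.1 : M) + p.2, AddSubgroup.add_mem_sup p.1.2 p.2.2⟩ : (A ⊔ B : AddSubgroup M))) ?_
  rintro ⟨x, hx⟩
  obtain ⟨y, hy, z, hz, rfl⟩ := AddSubgroup.mem_sup.1 hx
  exact ⟨⟨⟨y, hy⟩, ⟨z, hz⟩⟩, rfl⟩

theorem finite_words (Z : Finset X) (n : ℕ) (hw : ∀ x, 0 < w x) :
    {l : List X | (∀ y ∈ l, y ∈ Z) ∧ wt w l < n}.Finite := by
  have h1 : ((fun l : List Z => l.map Subtype.val) '' {l : List Z | l.length ≤ n}).Finite :=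
    (List.finite_length_le Z n).image _
  refine h1.subset ?_
  rintro l ⟨hl1, hl2⟩
  have hlen : ∀ l : List X, l.length ≤ wt w l := by
    intro l
    induction l with
    | nil => simp
    | cons x l ih => rw [wt_cons, List.length_cons]; have := hw x; omega
  refine ⟨l.attach.map (fun y => ⟨y.1, hl1 y.1 y.2⟩), ?_, ?_⟩
  · change (l.attach.map _).length ≤ n
    rw [List.length_map, List.length_attach]
    have := hlen l
    omega
  · simp only [List.map_map]
    conv_rhs => rw [← List.attach_map_subtype_val l]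
    rfl

theorem letters' {Z : Set X} {f : FreeAlgebra k X}
    (hf : f ∈ Algebra.adjoin k (FreeAlgebra.ι k '' Z)) :
    ∀ l, bs.repr f l ≠ 0 → ∀ y ∈ l, y ∈ Z := by
  intro l hl y hy
  by_contra hyZ
  have h1 : rho Z f = f := rho_of_mem hf
  have h2 : ∀ g : FreeAlgebra k X, bs.repr (rho Z g) l = 0 := by
    intro g
    refine mon_ind (p := fun g => bs.repr (rho Z g) l = 0) g ?_ ?_ ?_ ?_
    · intro m
      have h3 : (∀ z ∈ m, z ∈ Z) → rho Z (mon m : FreeAlgebra k X) = mon m := by
        intro h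
        refine rho_of_mem ?_
        induction m with
        | nil => rw [mon_nil]; exact Subalgebra.one_mem _
        | cons x m ih =>
          rw [mon_cons]
          exact Subalgebra.mul_mem _ (Algebra.subset_adjoin ⟨x, h x (by simp), rfl⟩)
            (ih (fun z hz => h z (List.mem_cons_of_mem _ hz)))
      have h4 : (¬ ∀ z ∈ m, z ∈ Z) → rho Z (mon m : FreeAlgebra k X) = 0 := by
        intro h
        clear h3
        induction m with
        | nil => exact absurd (by simp) h
        | cons x m ih =>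
          rw [mon_cons, map_mul]
          by_cases hx : x ∈ Z
          · rw [ih (fun h' => h (by simpa [hx] using h')), mul_zero]
          · rw [rho_ι_not hx, zero_mul]
      by_cases h : ∀ z ∈ m, z ∈ Z
      · rw [h3 h, repr_mon, Finsupp.single_eq_of_ne]
        rintro rfl
        exact hyZ (h y hy)
      · rw [h4 h]; simp
    · simp
    · intro a b ha hb; rw [map_add, map_add, Finsupp.add_apply, ha, hb, add_zero]
    · intro c a ha; rw [map_smul, map_smul, Finsupp.smul_apply, ha, smul_zero]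
  exact hl (by rw [← h1]; exact h2 f)

/-- A right closed subalgebra of the form `k⟨Z⟩ ∩ F^Λ`, with `Λ` finite. -/
theorem RC_finite (hw : ∀ x, 0 < w x) (Z : Set X) (Λ : AddSubgroup (X → k)) [Finite Λ]
    (hΛ : ∀ lam ∈ Λ, ∀ x, x ∉ Z → lam x = 0) :
    RC w (Algebra.adjoin k (FreeAlgebra.ι k '' Z) ⊓ fixT (Λ : Set (X → k))) := by
  let _ := Fintype.ofFinite Λ
  obtain ⟨N, c, κ, hκ, hc, htc, hlow⟩ := TD_add w hw Λ
  have hρ : ∀ {n : ℕ} {f : FreeAlgebra k X}, f ∈ fl w n → rho Z f ∈ fl w n := by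
    intro n f hf
    refine map_fl_of_filt w (fun x => ?_) hf
    by_cases hx : x ∈ Z
    · rw [rho_ι_mem hx]
      have : FreeAlgebra.ι k x = mon [x] := by rw [mon_cons, mon_nil, mul_one]
      rw [this]
      exact mon_mem_fl w (by rw [wt_cons, wt_nil]; omega)
    · rw [rho_ι_not hx]; exact Submodule.zero_mem _
  have hfix : ∀ f : FreeAlgebra k X, ∑ lam : Λ, tra (lam : X → k) f ∈ fixT (Λ : Set (X → k)) := by
    intro f mu hmu
    rw [map_sum]
    simp only [tra_tra]
    exact Fintype.sum_bijective (fun lam : Λ => (⟨mu, hmu⟩ : Λ) + lam)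
      (AddGroup.addLeft_bijective _) _ _ (fun _ => rfl)
  refine RC_of_retraction w _ (fun f => κ⁻¹ • rho Z (∑ lam : Λ, tra (lam : X → k) (f * c)))
    ?_ ?_ ?_ ?_ ?_
  · intro f
    refine Subalgebra.smul_mem _ (Algebra.mem_inf.2 ⟨rho_mem Z _, ?_⟩) _
    intro mu hmu
    rw [tra_rho (hΛ mu hmu), hfix _ mu hmu]
  · intro f g
    simp only [add_mul, map_add, Finset.sum_add_distrib, smul_add]
  · rintro s ⟨hs1, hs2⟩ f
    have h1 : ∑ lam : Λ, tra (lam : X → k) (s * f * c) =
        s * ∑ lam : Λ, tra (lam : X → k) (f * c) := by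
      rw [Finset.mul_sum]
      refine Finset.sum_congr rfl (fun lam _ => ?_)
      rw [mul_assoc, map_mul, hs2 lam lam.2]
    simp only [h1]
    rw [map_mul, rho_of_mem hs1, mul_smul_comm]
  · rintro s ⟨hs1, hs2⟩
    have h1 : ∑ lam : Λ, tra (lam : X → k) (s * c) = s * algebraMap k _ κ := by
      rw [← htc, Finset.mul_sum]
      refine Finset.sum_congr rfl (fun lam _ => ?_)
      rw [map_mul, hs2 lam lam.2]
    simp only [h1]
    rw [map_mul, rho_of_mem hs1, AlgHom.commutes, Algebra.algebraMap_eq_smul_one, mul_smul_comm,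
      mul_one, smul_smul, inv_mul_cancel₀ hκ, one_smul]
  · intro n f hf
    exact Submodule.smul_mem _ _ (hρ (hlow n _ (mul_mem_fl' w hf hc)))

theorem RC_charP (p : ℕ) [CharP k p] [Fact p.Prime] (hw : ∀ x, 0 < w x)
    (Λ : AddSubgroup (X → k)) : RC w (fixT (Λ : Set (X → k))) := by
  classical
  intro I l d hl hld t n f hf hsum i hi
  choose s hs1 hs2 hs3 using fun i => (mem_lead w).1 (hld i)
  obtain ⟨z, hz1, hz2, hz3⟩ := (mem_lead w).1 hsum
  choose Zs hZs using fun i => exists_support (s i)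
  obtain ⟨Zz, hZz⟩ := exists_support z
  let Z : Finset X := t.biUnion Zs ∪ Zz
  have hs4 : ∀ i ∈ t, s i ∈ Algebra.adjoin k (FreeAlgebra.ι k '' (Z : Set X)) := by
    intro i hi
    refine Algebra.adjoin_mono (Set.image_mono ?_) (hZs i)
    intro x hx
    simp only [Z, Finset.coe_union, Set.mem_union, Finset.mem_coe, Finset.mem_biUnion]
    exact Or.inl ⟨i, hi, hx⟩
  have hz4 : z ∈ Algebra.adjoin k (FreeAlgebra.ι k '' (Z : Set X)) := by
    refine Algebra.adjoin_mono (Set.image_mono ?_) hZz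
    intro x hx
    simp only [Z, Finset.coe_union, Set.mem_union, Finset.mem_coe]
    exact Or.inr hx
  let ΛZ : AddSubgroup (X → k) := Λ.map (trunc (Z : Set X))
  let W : Submodule k (FreeAlgebra k X) :=
    Subalgebra.toSubmodule (Algebra.adjoin k (FreeAlgebra.ι k '' (Z : Set X))) ⊓ fl w (n + 1)
  have hWfin : FiniteDimensional k W := by
    have hS := finite_words w Z (n + 1) hw
    have h1 : W ≤ Submodule.span k
        ((mon : List X → FreeAlgebra k X) '' {l | (∀ y ∈ l, y ∈ Z) ∧ wt w l < n + 1}) := by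
      rintro g ⟨hg1, hg2⟩
      rw [← coe_bs, Basis.mem_span_image]
      intro m hm
      have hm' : bs.repr g m ≠ 0 := by simpa using hm
      exact ⟨fun y hy => letters' hg1 m hm' y hy, (mem_fl w).1 hg2 m hm'⟩
    have : FiniteDimensional k (Submodule.span k
        ((mon : List X → FreeAlgebra k X) '' {l | (∀ y ∈ l, y ∈ Z) ∧ wt w l < n + 1})) :=
      FiniteDimensional.span_of_finite k (hS.image _)
    exact Submodule.finiteDimensional_of_le h1
  -- choose a finite subgroup with the fewest invariants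
  have hex : ∃ r : ℕ, ∃ Λ0 : AddSubgroup (X → k), Λ0 ≤ ΛZ ∧ Finite Λ0 ∧
      finrank k (W ⊓ Subalgebra.toSubmodule (fixT (Λ0 : Set (X → k))) :
        Submodule k (FreeAlgebra k X)) = r :=
    ⟨_, ⊥, bot_le, inferInstance, rfl⟩
  obtain ⟨Λ0, hΛ1, hΛ2, hΛ3⟩ := Nat.find_spec hex
  have hkey : ∀ g ∈ W, g ∈ fixT (Λ0 : Set (X → k)) → g ∈ fixT (ΛZ : Set (X → k)) := by
    intro g hgW hg lam hlam
    let Λ1 : AddSubgroup (X → k) := Λ0 ⊔ AddSubgroup.zmultiples lam
    have hfin1 : Finite (AddSubgroup.zmultiples lam) := by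
      have : IsOfFinAddOrder lam := by
        rw [isOfFinAddOrder_iff_nsmul_eq_zero]
        refine ⟨p, (Fact.out : p.Prime).pos, ?_⟩
        funext x
        simp
      exact this.finite_zmultiples.to_subtype
    have hfin2 : Finite Λ1 := finite_sup _ _
    have hle1 : Λ1 ≤ ΛZ := sup_le hΛ1 (by
      rw [AddSubgroup.zmultiples_le]; exact hlam)
    have h1 : Nat.find hex ≤ finrank k (W ⊓ Subalgebra.toSubmodule (fixT (Λ1 : Set (X → k))) :
        Submodule k (FreeAlgebra k X)) :=
      Nat.find_min' hex ⟨Λ1, hle1, hfin2, rfl⟩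
    have h2 : (W ⊓ Subalgebra.toSubmodule (fixT (Λ1 : Set (X → k))) :
        Submodule k (FreeAlgebra k X)) ≤ W ⊓ Subalgebra.toSubmodule (fixT (Λ0 : Set (X → k))) := by
      rintro h ⟨h3, h4⟩
      exact ⟨h3, fun mu hmu => h4 mu ((le_sup_left : Λ0 ≤ Λ1) hmu)⟩
    have hfd : FiniteDimensional k (W ⊓ Subalgebra.toSubmodule (fixT (Λ0 : Set (X → k))) :
        Submodule k (FreeAlgebra k X)) := Submodule.finiteDimensional_of_le inf_le_left
    have h3 := Submodule.eq_of_le_of_finrank_le h2 (by rw [hΛ3]; exact h1)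
    have h4 : g ∈ (W ⊓ Subalgebra.toSubmodule (fixT (Λ1 : Set (X → k))) :
        Submodule k (FreeAlgebra k X)) := by
      rw [h3]; exact ⟨hgW, hg⟩
    exact h4.2 lam ((le_sup_right : AddSubgroup.zmultiples lam ≤ Λ1)
      (AddSubgroup.mem_zmultiples lam))
  -- back and forth between `Λ` and its truncation
  have hto : ∀ g ∈ Algebra.adjoin k (FreeAlgebra.ι k '' (Z : Set X)),
      g ∈ fixT (Λ : Set (X → k)) → g ∈ fixT (Λ0 : Set (X → k)) := by
    intro g hg1 hg2 mu hmu
    obtain ⟨lam, hlam, rfl⟩ := hΛ1 hmu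
    rw [tra_trunc hg1]
    exact hg2 lam hlam
  have hfrom : ∀ g ∈ Algebra.adjoin k (FreeAlgebra.ι k '' (Z : Set X)),
      g ∈ fixT (ΛZ : Set (X → k)) → g ∈ fixT (Λ : Set (X → k)) := by
    intro g hg1 hg2 lam hlam
    rw [← tra_trunc hg1]
    exact hg2 _ ⟨lam, hlam, rfl⟩
  have hRC := RC_finite w hw (Z : Set X) Λ0 (by
    intro mu hmu x hx
    obtain ⟨lam, hlam, rfl⟩ := hΛ1 hmu
    exact trunc_not hx)
  have hRI : RInd (fun i : {i // i ∈ t} => l i.1) := by
    intro t' φ h0 i hi
    have h1 := hl (t'.map ⟨Subtype.val, Subtype.val_injective⟩)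
      (fun j => if h : j ∈ t then φ ⟨j, h⟩ else 0) ?_ i.1 (Finset.mem_map_of_mem _ hi)
    · simpa using h1
    · rw [Finset.sum_map]
      refine Eq.trans (Finset.sum_congr rfl (fun j _ => ?_)) h0
      simp
  have hfin := hRC {i // i ∈ t} (fun i => l i.1) (fun i => d i.1) hRI
    (fun i => (mem_lead w).2 ⟨s i.1, ⟨hs4 i.1 i.2, hto _ (hs4 i.1 i.2) (hs1 i.1)⟩, hs2 i.1,
      hs3 i.1⟩) Finset.univ n (fun i => f i.1) (fun i _ => hf i.1 i.2) ?_ ⟨i, hi⟩
      (Finset.mem_univ _)
  · obtain ⟨g, ⟨hg1, hg2⟩, hg3, hg4⟩ := (mem_lead w).1 hfin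
    refine (mem_lead w).2 ⟨g, hfrom g hg1 (hkey g ⟨hg1, fl_mono w (by omega) hg3⟩ hg2), hg3, hg4⟩
  · have h1 : ∑ i : {i // i ∈ t}, l i.1 * f i.1 = ∑ i ∈ t, l i * f i :=
      Finset.sum_coe_sort t (fun i => l i * f i)
    rw [h1, ← hz3]
    exact (mem_lead w).2 ⟨z, ⟨hz4, hto z hz4 hz1⟩, hz2, rfl⟩

end CharP

end Pool.Agent.Helper71.FreeInf
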