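import Pool.Agent.Helper71.FreeDefs
import Pool.Agent.Helper71.FreeAff
import Pool.Agent.Helper71.FreeTri

namespace Pool.Agent.Helper71.FreeThms

open Pool.Agent.Helper71.FreeDefs Pool.Agent.Helper71.FreeCore Pool.Agent.Helper71.FreeCrit
  Pool.Agent.Helper71.FreeApp Pool.Agent.Helper71.FreeTrace

universe u v

theorem affine {k : Type u} {X : Type v} [Field k]
    (G T : Subgroup (FreeAlgebra k X ≃ₐ[k] FreeAlgebra k X)) (hTG : T ≤ G)
    (hT : ∀ t ∈ T, ∀ x, ∃ c : k,
      t (FreeAlgebra.ι k x) = FreeAlgebra.ι k x + algebraMap k (FreeAlgebra k X) c)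
    (hG : ∀ g ∈ G, ∀ x, g (FreeAlgebra.ι k x) ∈
      Submodule.span k (insert 1 (Set.range (FreeAlgebra.ι k))))
    (hidx : (T.relIndex G : k) ≠ 0) : IsFree (invariants G) :=
  FreeAff.affine G T hTG hT hG hidx

theorem triangular {k : Type u} {X : Type v} [Field k] [LinearOrder X] [WellFoundedLT X]
    (G : Subgroup (FreeAlgebra k X ≃ₐ[k] FreeAlgebra k X)) [Finite G]
    (htri : ∀ g ∈ G, ∀ x, ∃ a : k, g (FreeAlgebra.ι k x) - a • FreeAlgebra.ι k x ∈
      Algebra.adjoin k (FreeAlgebra.ι k '' Set.Iio x))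
    (hfree : ∀ g ∈ G, g ≠ 1 →
      (∀ x, g (FreeAlgebra.ι k x) - FreeAlgebra.ι k x ∈
        Algebra.adjoin k (FreeAlgebra.ι k '' Set.Iio x)) →
      ∃ x, (∀ y, y < x → g (FreeAlgebra.ι k y) = FreeAlgebra.ι k y) ∧
        ∃ c : k, c ≠ 0 ∧
          g (FreeAlgebra.ι k x) = FreeAlgebra.ι k x + algebraMap k (FreeAlgebra k X) c) :
    IsFree (invariants G) :=
  FreeTri.triangular G htri hfree

theorem component_eq {k : Type u} {X : Type v} [Field k] (w : X → ℕ) (n : ℕ)
    (f : FreeAlgebra k X) : component w n f = cmp w n f := by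
  have h1 : ∀ l : List X, FreeAlgebra.lift k
      (fun x => Polynomial.monomial (w x) (FreeAlgebra.ι k x)) (mon l : FreeAlgebra k X) =
      Polynomial.monomial (wt w l) (mon l) := by
    intro l
    induction l with
    | nil => rw [mon_nil, map_one, wt_nil]; rfl
    | cons x l ih =>
      rw [mon_cons, map_mul, ih, FreeAlgebra.lift_ι_apply, Polynomial.monomial_mul_monomial,
        wt_cons]
  refine mon_ind (p := fun f => component w n f = cmp w n f) f ?_ ?_ ?_ ?_
  · intro l
    rw [component, h1, Polynomial.coeff_monomial, cmp_mon]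
  · rw [component, map_zero, map_zero, Polynomial.coeff_zero]
  · intro a b ha hb
    rw [component] at ha hb ⊢
    rw [map_add, Polynomial.coeff_add, ha, hb, map_add]
  · intro c a ha
    rw [component] at ha ⊢
    rw [map_smul, Polynomial.coeff_smul, ha, map_smul]

theorem homogeneous {k : Type u} {X : Type v} [Field k] (w : X → ℕ) (hw : ∀ x, 0 < w x)
    (G : Set (FreeAlgebra k X →ₐ[k] FreeAlgebra k X))
    (hG : ∀ f ∈ fixedAlgebra G, ∀ n, component w n f ∈ fixedAlgebra G) :
    IsFree (fixedAlgebra G) := by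
  refine free_of_RC w hw (fixedBy G) (RC_of_homogeneous w G ?_)
  intro f hf n
  have := hG f hf n
  rw [component_eq] at this
  exact this

end Pool.Agent.Helper71.FreeThms
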