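import Pool.Agent.Helper71.FreeApp

namespace Pool.Agent.Helper71.FreeTrace

open Module Pool.Agent.Helper71.FreeCore Pool.Agent.Helper71.FreeCrit Pool.Agent.Helper71.FreeApp

universe u v

variable {k : Type u} [Field k] {X : Type v} (w : X → ℕ)

/-- The automorphism group of the free algebra. -/
abbrev Au (k : Type u) [Field k] (X : Type v) := FreeAlgebra k X ≃ₐ[k] FreeAlgebra k X

/-- The trace of a finite group of automorphisms. -/
noncomputable def trc (Q : Subgroup (Au k X)) [Finite Q] (f : FreeAlgebra k X) : FreeAlgebra k X :=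
  letI := Fintype.ofFinite Q
  ∑ g : Q, (g : Au k X) f

theorem trc_eq (Q : Subgroup (Au k X)) [inst : Fintype Q] (f : FreeAlgebra k X) :
    trc Q f = ∑ g : Q, (g : Au k X) f := by
  unfold trc
  rw [Subsingleton.elim (Fintype.ofFinite Q) inst]

/-- The subalgebra of invariants. -/
def fixedG (G : Subgroup (Au k X)) : Subalgebra k (FreeAlgebra k X) where
  carrier := {f | ∀ g ∈ G, g f = f}
  mul_mem' ha hb g hg := by rw [map_mul, ha g hg, hb g hg]
  add_mem' ha hb g hg := by rw [map_add, ha g hg, hb g hg]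
  algebraMap_mem' c g _ := AlgEquiv.commutes g c

theorem trc_mem (Q : Subgroup (Au k X)) [Finite Q] (f : FreeAlgebra k X) : trc Q f ∈ fixedG Q := by
  let _ := Fintype.ofFinite Q
  intro h hh
  rw [trc_eq, map_sum]
  have : ∀ g : Q, h ((g : Au k X) f) = (((⟨h, hh⟩ : Q) * g : Q) : Au k X) f := fun g => rfl
  simp only [this]
  exact Fintype.sum_bijective (fun g => (⟨h, hh⟩ : Q) * g) (Group.mulLeft_bijective _) _ _
    (fun _ => rfl)

theorem trc_add (Q : Subgroup (Au k X)) [Finite Q] (f g : FreeAlgebra k X) :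
    trc Q (f + g) = trc Q f + trc Q g := by
  let _ := Fintype.ofFinite Q
  simp only [trc_eq, map_add, Finset.sum_add_distrib]

theorem trc_smul (Q : Subgroup (Au k X)) [Finite Q] (c : k) (f : FreeAlgebra k X) :
    trc Q (c • f) = c • trc Q f := by
  let _ := Fintype.ofFinite Q
  simp only [trc_eq, map_smul, Finset.smul_sum]

theorem trc_zero (Q : Subgroup (Au k X)) [Finite Q] : trc Q (0 : FreeAlgebra k X) = 0 := by
  let _ := Fintype.ofFinite Q
  simp only [trc_eq, map_zero, Finset.sum_const_zero]

theorem trc_mul (Q : Subgroup (Au k X)) [Finite Q] (s f : FreeAlgebra k X) (hs : s ∈ fixedG Q) :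
    trc Q (s * f) = s * trc Q f := by
  let _ := Fintype.ofFinite Q
  simp only [trc_eq, map_mul, Finset.mul_sum]
  exact Finset.sum_congr rfl (fun g _ => by rw [hs g g.2])

/-- Trace data: an element of weight at most `N` with nonzero constant trace, while the trace
lowers weights by at least `N`. -/
def TD (Q : Subgroup (Au k X)) [Finite Q] : Prop :=
  ∃ (N : ℕ) (c : FreeAlgebra k X) (κ : k), κ ≠ 0 ∧ c ∈ fl w (N + 1) ∧
    trc Q c = algebraMap k _ κ ∧ ∀ n, ∀ f ∈ fl w (n + N), trc Q f ∈ fl w n

theorem RC_of_TD (Q : Subgroup (Au k X)) [Finite Q] (h : TD w Q) : RC w (fixedG Q) := by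
  obtain ⟨N, c, κ, hκ, hc, htc, hlow⟩ := h
  refine RC_of_retraction w (fixedG Q) (fun f => κ⁻¹ • trc Q (f * c)) ?_ ?_ ?_ ?_ ?_
  · intro f
    exact Subalgebra.smul_mem _ (trc_mem Q _) _
  · intro f g
    simp only [add_mul, trc_add, smul_add]
  · intro s hs f
    simp only [mul_assoc, trc_mul Q s _ hs, mul_smul_comm]
  · intro s hs
    simp only [trc_mul Q s _ hs, htc]
    rw [Algebra.algebraMap_eq_smul_one, mul_smul_comm, mul_one, smul_smul, inv_mul_cancel₀ hκ,
      one_smul]
  · intro n f hf
    refine Submodule.smul_mem _ _ (hlow n _ ?_)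
    exact mul_mem_fl' w hf hc

theorem bij_transversal {A : Type*} [Group A] (Q' Q : Subgroup A) (hle : Q' ≤ Q) :
    Function.Bijective (fun p : (Q ⧸ Q'.subgroupOf Q) × Q' =>
      p.1.out * (⟨p.2, hle p.2.2⟩ : Q)) := by
  have hmk : ∀ (q : Q ⧸ Q'.subgroupOf Q) (h : Q'),
      (QuotientGroup.mk (q.out * (⟨h, hle h.2⟩ : Q)) : Q ⧸ Q'.subgroupOf Q) = q := by
    intro q h
    rw [QuotientGroup.mk_mul_of_mem _ (show (⟨h, hle h.2⟩ : Q) ∈ Q'.subgroupOf Q from h.2)]
    exact QuotientGroup.out_eq' q
  constructor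
  · rintro ⟨q, h⟩ ⟨q', h'⟩ heq
    have h1 : q = q' := by
      have := congrArg (QuotientGroup.mk (s := Q'.subgroupOf Q)) heq
      simpa only [hmk] using this
    subst h1
    have h2 := mul_left_cancel heq
    have h3 : h = h' := Subtype.ext (congrArg (fun g : Q => (g : A)) h2)
    rw [h3]
  · intro g
    have h1 : (QuotientGroup.mk g : Q ⧸ Q'.subgroupOf Q).out⁻¹ * g ∈ Q'.subgroupOf Q := by
      rw [← QuotientGroup.eq]
      exact QuotientGroup.out_eq' _
    refine ⟨⟨QuotientGroup.mk g, ⟨_, Subgroup.mem_subgroupOf.1 h1⟩⟩, ?_⟩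
    apply Subtype.ext
    simp

theorem trc_decomp (Q' Q : Subgroup (Au k X)) (hle : Q' ≤ Q) [Finite Q'] [Finite Q]
    [Fintype (Q ⧸ Q'.subgroupOf Q)] (f : FreeAlgebra k X) :
    trc Q f = ∑ q : Q ⧸ Q'.subgroupOf Q, ((q.out : Q) : Au k X) (trc Q' f) := by
  let _ := Fintype.ofFinite Q
  let _ := Fintype.ofFinite Q'
  rw [trc_eq, trc_eq]
  simp only [map_sum]
  rw [← Fintype.sum_prod_type']
  exact (Fintype.sum_bijective _ (bij_transversal Q' Q hle) _ _ (fun _ => rfl)).symm

theorem trc_const (Q : Subgroup (Au k X)) [Finite Q] (c : k) :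
    trc Q (algebraMap k _ c) = algebraMap k _ ((Nat.card Q : k) * c) := by
  let _ := Fintype.ofFinite Q
  rw [trc_eq]
  simp [Nat.card_eq_fintype_card, map_mul]

/-- Filtered automorphisms. -/
def Filt (g : Au k X) : Prop := ∀ x, g (FreeAlgebra.ι k x) ∈ fl w (w x + 1)

theorem map_fl_of_filt {g : FreeAlgebra k X →ₐ[k] FreeAlgebra k X}
    (hg : ∀ x, g (FreeAlgebra.ι k x) ∈ fl w (w x + 1)) {n : ℕ} {f : FreeAlgebra k X}
    (hf : f ∈ fl w n) : g f ∈ fl w n := by
  have key : ∀ l : List X, g (mon l) ∈ fl w (wt w l + 1) := by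
    intro l
    induction l with
    | nil => rw [mon_nil, map_one, ← mon_nil, wt_nil]; exact mon_mem_fl w (by rw [wt_nil]; omega)
    | cons x l ih =>
      rw [mon_cons, map_mul, wt_cons]
      exact mul_mem_fl w (hg x) ih
  refine fl_ind w (p := fun f => g f ∈ fl w n) hf ?_ ?_ ?_ ?_
  · intro l hl
    exact fl_mono w (by omega) (key l)
  · rw [map_zero]; exact Submodule.zero_mem _
  · intro a b ha hb; rw [map_add]; exact Submodule.add_mem _ ha hb
  · intro c a ha; rw [map_smul]; exact Submodule.smul_mem _ _ ha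

/-- Trace data passes to overgroups of invertible index consisting of filtered automorphisms. -/
theorem TD_of_index (Q' Q : Subgroup (Au k X)) (hle : Q' ≤ Q) [Finite Q'] [Finite Q]
    (hfilt : ∀ g ∈ Q, Filt w g) (hidx : (Q'.relIndex Q : k) ≠ 0) (h : TD w Q') : TD w Q := by
  classical
  let _ : Fintype (Q ⧸ Q'.subgroupOf Q) := Fintype.ofFinite _
  obtain ⟨N, c, κ, hκ, hc, htc, hlow⟩ := h
  refine ⟨N, c, (Q'.relIndex Q : k) * κ, mul_ne_zero hidx hκ, hc, ?_, ?_⟩
  · rw [trc_decomp Q' Q hle, htc]
    simp only [AlgEquiv.commutes, Finset.sum_const, Finset.card_univ]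
    have : Fintype.card (Q ⧸ Q'.subgroupOf Q) = Q'.relIndex Q := by
      rw [← Nat.card_eq_fintype_card]; rfl
    rw [this, map_mul, map_natCast, nsmul_eq_mul]
  · intro n f hf
    rw [trc_decomp Q' Q hle]
    refine Submodule.sum_mem _ (fun q _ => ?_)
    exact map_fl_of_filt w (g := ((q.out : Q) : Au k X).toAlgHom)
      (fun x => hfilt _ (q.out : Q).2 x) (hlow n f hf)

/-- The translation endomorphism. -/
noncomputable def tra (lam : X → k) : FreeAlgebra k X →ₐ[k] FreeAlgebra k X :=
  FreeAlgebra.lift k (fun x => FreeAlgebra.ι k x + algebraMap k _ (lam x))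

/-- All ways to split a word into a subword and its complement. -/
def splits : List X → List (List X × List X)
  | [] => [([], [])]
  | x :: l => (splits l).map (fun p => (x :: p.1, p.2)) ++ (splits l).map (fun p => (p.1, x :: p.2))

theorem wt_splits (l : List X) : ∀ p ∈ splits l, wt w p.1 + wt w p.2 = wt w l := by
  induction l with
  | nil => intro p hp; simp only [splits, List.mem_singleton] at hp; subst hp; simp [wt_nil]
  | cons x l ih =>
    intro p hp
    simp only [splits, List.mem_append, List.mem_map] at hp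
    rcases hp with ⟨q, hq, rfl⟩ | ⟨q, hq, rfl⟩
    · have := ih q hq
      simp only [wt_cons]; omega
    · have := ih q hq
      simp only [wt_cons]; omega

theorem tra_mon (lam : X → k) (l : List X) :
    tra lam (mon l) = ((splits l).map (fun p => (p.1.map lam).prod • mon p.2)).sum := by
  induction l with
  | nil => simp [splits, mon_nil]
  | cons x l ih =>
    rw [mon_cons, map_mul, ih, splits, List.map_append, List.sum_append, List.map_map,
      List.map_map]
    have h1 : tra lam (FreeAlgebra.ι k x) = algebraMap k _ (lam x) + FreeAlgebra.ι k x := by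
      rw [tra, FreeAlgebra.lift_ι_apply, add_comm]
    rw [h1, add_mul]
    congr 1
    · rw [← Algebra.smul_def, List.smul_sum, List.map_map]
      congr 1
      refine List.map_congr_left (fun p _ => ?_)
      simp [mul_smul]
    · rw [← List.sum_map_mul_left]
      congr 1
      refine List.map_congr_left (fun p _ => ?_)
      simp [mon_cons]

theorem sum_tra_mem {J : Type*} (M : Finset J) (lam : J → X → k) (N : ℕ)
    (h : ∀ a : List X, wt w a < N → ∑ j ∈ M, (a.map (lam j)).prod = 0) (n : ℕ)
    {f : FreeAlgebra k X} (hf : f ∈ fl w (n + N)) : ∑ j ∈ M, tra (lam j) f ∈ fl w n := by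
  refine fl_ind w (p := fun f => ∑ j ∈ M, tra (lam j) f ∈ fl w n) hf ?_ ?_ ?_ ?_
  · intro l hl
    have h1 : ∑ j ∈ M, tra (lam j) (mon l : FreeAlgebra k X) =
        ((splits l).map (fun p => (∑ j ∈ M, (p.1.map (lam j)).prod) • mon p.2)).sum := by
      simp only [tra_mon]
      generalize splits l = L
      induction L with
      | nil => simp
      | cons p L ih => simp only [List.map_cons, List.sum_cons, Finset.sum_add_distrib, ih,
          Finset.sum_smul]
    rw [h1]
    refine list_sum_mem ?_
    intro z hz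
    rw [List.mem_map] at hz
    obtain ⟨p, hp, rfl⟩ := hz
    by_cases h2 : wt w p.1 < N
    · rw [h _ h2, zero_smul]; exact Submodule.zero_mem _
    · refine Submodule.smul_mem _ _ (mon_mem_fl w ?_)
      have := wt_splits w l p hp
      omega
  · simp only [map_zero, Finset.sum_const_zero]; exact Submodule.zero_mem _
  · intro a b ha hb
    simp only [map_add, Finset.sum_add_distrib]
    exact Submodule.add_mem _ ha hb
  · intro c a ha
    simp only [map_smul]
    rw [← Finset.smul_sum]
    exact Submodule.smul_mem _ _ ha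

theorem fl_one (hw : ∀ x, 0 < w x) {f : FreeAlgebra k X} (hf : f ∈ fl w 1) :
    ∃ κ : k, f = algebraMap k _ κ := by
  refine fl_ind w (p := fun f => ∃ κ : k, f = algebraMap k _ κ) hf ?_ ?_ ?_ ?_
  · intro l hl
    rw [wt_eq_zero hw (show wt w l = 0 by omega), mon_nil]
    exact ⟨1, by simp⟩
  · exact ⟨0, by simp⟩
  · rintro a b ⟨c, rfl⟩ ⟨d, rfl⟩
    exact ⟨c + d, by simp⟩
  · rintro c a ⟨d, rfl⟩
    exact ⟨c * d, by rw [map_mul, Algebra.smul_def]⟩

theorem lift_mon (lam : X → k) (l : List X) :
    FreeAlgebra.lift k lam (mon l) = (l.map lam).prod := by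
  induction l with
  | nil => simp [mon_nil]
  | cons x l ih => rw [mon_cons, map_mul, ih]; simp

/-- A finite group of translations has trace data for all positive weights. -/
theorem TD_of_translations (hw : ∀ x, 0 < w x) (T : Subgroup (Au k X)) [Finite T]
    (hT : ∀ t ∈ T, ∀ x, ∃ c : k, t (FreeAlgebra.ι k x) = FreeAlgebra.ι k x + algebraMap k _ c) :
    TD w T := by
  classical
  let _ := Fintype.ofFinite T
  choose lam hlam using fun t : T => hT t t.2
  have htra : ∀ (t : T) (f : FreeAlgebra k X), (t : Au k X) f = tra (lam t) f := by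
    intro t f
    have : ((t : Au k X) : FreeAlgebra k X →ₐ[k] FreeAlgebra k X) = tra (lam t) := by
      apply FreeAlgebra.hom_ext
      funext x
      simp only [Function.comp_apply, tra, FreeAlgebra.lift_ι_apply]
      exact hlam t x
    exact DFunLike.congr_fun this f
  have hinj : Function.Injective lam := by
    intro s t hst
    apply Subtype.ext
    apply AlgEquiv.ext
    intro f
    rw [htra, htra, hst]
  -- the characters
  let ε : FreeAlgebra k X →ₐ[k] k := FreeAlgebra.lift k (fun _ => 0)
  have hε : ∀ (t : T) (f : FreeAlgebra k X), ε ((t : Au k X) f) = FreeAlgebra.lift k (lam t) f := by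
    intro t f
    rw [htra]
    have : ε.comp (tra (lam t)) = FreeAlgebra.lift k (lam t) := by
      apply FreeAlgebra.hom_ext
      funext x
      simp [ε, tra]
    exact DFunLike.congr_fun this f
  have hne : ∃ f : FreeAlgebra k X, ε (trc T f) ≠ 0 := by
    by_contra hcon
    push Not at hcon
    have hli := linearIndependent_monoidHom (FreeAlgebra k X) k
    let ch : T → (FreeAlgebra k X →* k) := fun t => ((FreeAlgebra.lift k (lam t) :
      FreeAlgebra k X →ₐ[k] k) : FreeAlgebra k X →* k)
    have hchinj : Function.Injective ch := by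
      intro s t hst
      apply hinj
      funext x
      have := DFunLike.congr_fun hst (FreeAlgebra.ι k x)
      simpa [ch] using this
    have h2 := hli.comp ch hchinj
    rw [Fintype.linearIndependent_iff] at h2
    have h3 := h2 (fun _ => 1) ?_ 1
    · exact one_ne_zero h3
    · funext f
      have h4 := hcon f
      rw [trc_eq, map_sum] at h4
      simp only [hε] at h4
      simpa [ch] using h4
  have hne' : ∃ n, ∃ f ∈ fl w (n + 1), ε (trc T f) ≠ 0 := by
    obtain ⟨f, hf⟩ := hne
    obtain ⟨n, hn⟩ := exists_fl w f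
    exact ⟨n, f, fl_mono w (Nat.le_succ n) hn, hf⟩
  obtain ⟨c, hc1, hc2⟩ := Nat.find_spec hne'
  have hmin : ∀ f ∈ fl w (Nat.find hne'), ε (trc T f) = 0 := by
    intro f hf
    by_contra hcon
    rcases Nat.eq_zero_or_pos (Nat.find hne') with h0 | h0
    · rw [h0, fl_zero, Submodule.mem_bot] at hf
      rw [hf, trc_zero, map_zero] at hcon
      exact hcon rfl
    · have h1 := Nat.find_min hne' (m := Nat.find hne' - 1) (by omega)
      apply h1
      refine ⟨f, ?_, hcon⟩
      rwa [show Nat.find hne' - 1 + 1 = Nat.find hne' by omega]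
  have hlow : ∀ n, ∀ f ∈ fl w (n + Nat.find hne'), trc T f ∈ fl w n := by
    intro n f hf
    rw [trc_eq]
    simp only [htra]
    refine sum_tra_mem w Finset.univ lam (Nat.find hne') ?_ n hf
    intro a ha
    have h1 := hmin (mon a) (mon_mem_fl w ha)
    rw [trc_eq, map_sum] at h1
    simp only [hε, lift_mon] at h1
    exact h1
  have hc3 : trc T c ∈ fl w 1 := hlow 1 c (by rw [add_comm]; exact hc1)
  obtain ⟨κ, hκ⟩ := fl_one w hw hc3
  refine ⟨Nat.find hne', c, κ, ?_, hc1, hκ, hlow⟩
  rintro rfl
  rw [hκ, map_zero, map_zero] at hc2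
  exact hc2 rfl

end Pool.Agent.Helper71.FreeTrace
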