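import Mathlib

set_option autoImplicit false

namespace Pool.Agent.Helper71

open Finset

section ElementaryOperators

variable {F D : Type*} [Field F] [DivisionRing D] [Algebra F D]

/-- If the `e i` are linearly independent over the centre and `∑ a i * x * e i = 0` for all `x`,
then all `a i` vanish. -/
theorem coeff_eq_zero (hZ : ∀ z : D, (∀ y, z * y = y * z) → z ∈ (algebraMap F D).range)
    {ι : Type*} [DecidableEq ι] (e : ι → D) (he : LinearIndependent F e) :
    ∀ (n : ℕ) (s : Finset ι), s.card = n → ∀ a : ι → D,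
      (∀ x : D, ∑ i ∈ s, a i * x * e i = 0) → ∀ i ∈ s, a i = 0 := by
  intro n
  induction n with
  | zero =>
    intro s hs a _ i hi
    rw [Finset.card_eq_zero] at hs
    subst hs
    simp at hi
  | succ n ih =>
    intro s hs a ha
    by_contra hcon
    push Not at hcon
    obtain ⟨i₀, hi₀, hai₀⟩ := hcon
    -- normalise
    set a' : ι → D := fun i => (a i₀)⁻¹ * a i with ha'
    have h1 : ∀ x : D, ∑ i ∈ s, a' i * x * e i = 0 := by
      intro x
      have := congrArg (fun t => (a i₀)⁻¹ * t) (ha x)
      simp only [Finset.mul_sum, mul_zero] at this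
      rw [← this]
      refine Finset.sum_congr rfl fun i _ => ?_
      simp only [ha', mul_assoc]
    have h1i : a' i₀ = 1 := by simp [ha', hai₀]
    have hcomm : ∀ i ∈ s, ∀ y, a' i * y = y * a' i := by
      intro i hi y
      by_cases hii : i = i₀
      · subst hii; rw [h1i]; simp
      · have key : ∀ x : D, ∑ i ∈ s.erase i₀, (a' i * y - y * a' i) * x * e i = 0 := by
          intro x
          have e1 := h1 (y * x)
          have e2 := congrArg (fun t => y * t) (h1 x)
          simp only [Finset.mul_sum, mul_zero] at e2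
          have e3 : ∑ i ∈ s, (a' i * y - y * a' i) * x * e i = 0 := by
            have : ∑ i ∈ s, (a' i * y - y * a' i) * x * e i
                = ∑ i ∈ s, a' i * (y * x) * e i - ∑ i ∈ s, y * (a' i * x * e i) := by
              rw [← Finset.sum_sub_distrib]
              refine Finset.sum_congr rfl fun i _ => ?_
              noncomm_ring
            rw [this, e1, e2, sub_zero]
          rw [← Finset.sum_erase_add _ _ hi₀] at e3
          simpa [h1i] using e3
        have hc : (s.erase i₀).card = n := by
          rw [Finset.card_erase_of_mem hi₀, hs]; rfl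
        have := ih (s.erase i₀) hc (fun i => a' i * y - y * a' i) key i
          (Finset.mem_erase.mpr ⟨hii, hi⟩)
        exact sub_eq_zero.mp this
    have hex : ∀ i ∈ s, ∃ c : F, algebraMap F D c = a' i := by
      intro i hi
      obtain ⟨c, hc⟩ := hZ (a' i) (hcomm i hi)
      exact ⟨c, hc⟩
    choose! c hc using hex
    have h2 := h1 1
    have h3 : ∑ i ∈ s, c i • e i = 0 := by
      rw [← h2]
      refine Finset.sum_congr rfl fun i hi => ?_
      rw [mul_one, ← hc i hi, Algebra.smul_def]
    have h4 := (linearIndependent_iff'.mp he) s c h3 i₀ hi₀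
    have h5 := hc i₀ hi₀
    rw [h4, map_zero, h1i] at h5
    exact zero_ne_one h5

/-- If `∑ a i * x * b i = 0` for all `x` then `∑ φ (b i) • a i = 0` for every linear
functional `φ`. -/
theorem sum_functional_eq_zero
    (hZ : ∀ z : D, (∀ y, z * y = y * z) → z ∈ (algebraMap F D).range)
    {ι : Type*} (s : Finset ι) (a b : ι → D)
    (h : ∀ x : D, ∑ i ∈ s, a i * x * b i = 0) (φ : D →ₗ[F] F) :
    ∑ i ∈ s, φ (b i) • a i = 0 := by
  classical
  let B := Module.Basis.ofVectorSpace F D
  -- common support
  let T : Finset (Module.Basis.ofVectorSpaceIndex F D) := s.biUnion fun i => (B.repr (b i)).support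
  have hb : ∀ i ∈ s, b i = ∑ l ∈ T, B.repr (b i) l • B l := by
    intro i hi
    conv_lhs => rw [← B.linearCombination_repr (b i)]
    rw [Finsupp.linearCombination_apply]
    refine Finsupp.sum_of_support_subset _ ?_ _ (by simp)
    exact Finset.subset_biUnion_of_mem (fun i => (B.repr (b i)).support) hi
  have h1 : ∀ x : D, ∑ l ∈ T, (∑ i ∈ s, B.repr (b i) l • a i) * x * B l = 0 := by
    intro x
    rw [← h x]
    have : ∑ i ∈ s, a i * x * b i = ∑ i ∈ s, ∑ l ∈ T, (B.repr (b i) l • a i) * x * B l := by
      refine Finset.sum_congr rfl fun i hi => ?_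
      conv_lhs => rw [hb i hi]
      rw [Finset.mul_sum]
      refine Finset.sum_congr rfl fun l _ => ?_
      simp only [mul_smul_comm, smul_mul_assoc]
    rw [this, Finset.sum_comm]
    refine Finset.sum_congr rfl fun l _ => ?_
    rw [Finset.sum_mul, Finset.sum_mul]
  have h2 := coeff_eq_zero hZ (fun l => B l) B.linearIndependent T.card T rfl _ h1
  have h3 : ∀ i ∈ s, φ (b i) = ∑ l ∈ T, B.repr (b i) l * φ (B l) := by
    intro i hi
    conv_lhs => rw [hb i hi]
    simp [map_sum]
  calc ∑ i ∈ s, φ (b i) • a i
      = ∑ i ∈ s, ∑ l ∈ T, φ (B l) • (B.repr (b i) l • a i) := by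
        refine Finset.sum_congr rfl fun i hi => ?_
        rw [h3 i hi, Finset.sum_smul]
        refine Finset.sum_congr rfl fun l _ => ?_
        rw [smul_smul, mul_comm]
    _ = ∑ l ∈ T, φ (B l) • ∑ i ∈ s, B.repr (b i) l • a i := by
        rw [Finset.sum_comm]
        refine Finset.sum_congr rfl fun l _ => ?_
        rw [Finset.smul_sum]
    _ = 0 := by
        refine Finset.sum_eq_zero fun l hl => ?_
        rw [h2 l hl, smul_zero]

/-- Converse direction in the form we need: if all the functionals kill then the operator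
vanishes. -/
theorem sum_eq_zero_of_functional {ι : Type*} (s : Finset ι) (a b : ι → D)
    (h : ∀ φ : D →ₗ[F] F, ∑ i ∈ s, φ (b i) • a i = 0) (x : D) :
    ∑ i ∈ s, a i * x * b i = 0 := by
  classical
  let B := Module.Basis.ofVectorSpace F D
  let T : Finset (Module.Basis.ofVectorSpaceIndex F D) := s.biUnion fun i => (B.repr (b i)).support
  have hb : ∀ i ∈ s, b i = ∑ l ∈ T, B.repr (b i) l • B l := by
    intro i hi
    conv_lhs => rw [← B.linearCombination_repr (b i)]
    rw [Finsupp.linearCombination_apply]
    refine Finsupp.sum_of_support_subset _ ?_ _ (by simp)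
    exact Finset.subset_biUnion_of_mem (fun i => (B.repr (b i)).support) hi
  have : ∑ i ∈ s, a i * x * b i = ∑ i ∈ s, ∑ l ∈ T, (B.repr (b i) l • a i) * x * B l := by
    refine Finset.sum_congr rfl fun i hi => ?_
    conv_lhs => rw [hb i hi]
    rw [Finset.mul_sum]
    refine Finset.sum_congr rfl fun l _ => ?_
    simp only [mul_smul_comm, smul_mul_assoc]
  rw [this, Finset.sum_comm]
  refine Finset.sum_eq_zero fun l _ => ?_
  rw [← Finset.sum_mul, ← Finset.sum_mul]
  have := h (B.coord l)
  simp only [Module.Basis.coord_apply] at this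
  rw [this]
  simp

/-- A nonzero elementary operator of finite rank forces finite dimension. -/
theorem finite_of_finite_rank
    (hZ : ∀ z : D, (∀ y, z * y = y * z) → z ∈ (algebraMap F D).range) :
    ∀ (n : ℕ) (a b : Fin n → D), (∃ y, ∑ i, a i * y * b i ≠ 0) →
      (∃ V : Submodule F D, FiniteDimensional F V ∧ ∀ y, ∑ i, a i * y * b i ∈ V) →
      FiniteDimensional F D := by
  intro n
  induction n with
  | zero =>
    rintro a b ⟨y, hy⟩ _
    simp at hy
  | succ n ih =>
    rintro a b ⟨y₀, hy₀⟩ ⟨V, hVfin, hV⟩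
    by_cases hb : LinearIndependent F b
    · -- some a i₀ ≠ 0
      have : ∃ i₀, a i₀ ≠ 0 := by
        by_contra hcon
        push Not at hcon
        exact hy₀ (by simp [hcon])
      obtain ⟨i₀, hi₀⟩ := this
      set a' : Fin (n+1) → D := fun i => (a i₀)⁻¹ * a i with ha'
      have h1i : a' i₀ = 1 := by simp [ha', hi₀]
      have hT : ∀ y, ∑ i, a' i * y * b i = (a i₀)⁻¹ * ∑ i, a i * y * b i := by
        intro y
        rw [Finset.mul_sum]
        refine Finset.sum_congr rfl fun i _ => ?_
        simp only [ha', mul_assoc]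
      set V' : Submodule F D := V.map (LinearMap.mulLeft F (a i₀)⁻¹) with hV'def
      have : FiniteDimensional F V' := by
        rw [hV'def]; infer_instance
      have hV' : ∀ y, ∑ i, a' i * y * b i ∈ V' := by
        intro y
        rw [hT y]
        exact ⟨_, hV y, rfl⟩
      by_cases hcomm : ∀ d y, ∑ i : Fin (n+1), (d * a' i - a' i * d) * y * b i = 0
      · -- all a' i central
        have hc : ∀ i, a' i ∈ (algebraMap F D).range := by
          intro i
          apply hZ
          intro d
          have := coeff_eq_zero hZ b hb (n+1) Finset.univ (by simp)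
            (fun i => d * a' i - a' i * d) (hcomm d) i (Finset.mem_univ i)
          exact (sub_eq_zero.mp this).symm
        choose c hc using hc
        set β : D := ∑ i, a' i * b i with hβ
        have hTy : ∀ y, ∑ i, a' i * y * b i = y * β := by
          intro y
          rw [hβ, Finset.mul_sum]
          refine Finset.sum_congr rfl fun i _ => ?_
          rw [← hc i, Algebra.commutes, mul_assoc, ]
        have hβ0 : β ≠ 0 := by
          intro h0
          apply hy₀
          have h2 := hT y₀
          rw [hTy, h0, mul_zero] at h2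
          have h3 := (mul_eq_zero.mp h2.symm)
          rcases h3 with h3 | h3
          · exact absurd h3 (inv_ne_zero hi₀)
          · exact h3
        have htop : V' = ⊤ := by
          rw [eq_top_iff]
          intro y _
          have := hV' (y * β⁻¹)
          rwa [hTy, mul_assoc, inv_mul_cancel₀ hβ0, mul_one] at this
        rw [htop] at this
        exact Module.finite_def.mpr (Module.Finite.iff_fg.mp this)
      · push Not at hcomm
        obtain ⟨d, y₁, hd⟩ := hcomm
        have hsplit : ∀ y, ∑ i : Fin (n+1), (d * a' i - a' i * d) * y * b i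
            = ∑ j : Fin n, (d * a' (i₀.succAbove j) - a' (i₀.succAbove j) * d) * y *
                b (i₀.succAbove j) := by
          intro y
          rw [Fin.sum_univ_succAbove _ i₀]
          simp [h1i]
        apply ih (fun j => d * a' (i₀.succAbove j) - a' (i₀.succAbove j) * d)
          (fun j => b (i₀.succAbove j))
        · exact ⟨y₁, by rw [← hsplit]; exact hd⟩
        · refine ⟨V'.map (LinearMap.mulLeft F d) ⊔ V', inferInstance, ?_⟩
          intro y
          rw [← hsplit]
          have : ∑ i : Fin (n+1), (d * a' i - a' i * d) * y * b i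
              = d * (∑ i, a' i * y * b i) - ∑ i, a' i * (d * y) * b i := by
            rw [Finset.mul_sum, ← Finset.sum_sub_distrib]
            refine Finset.sum_congr rfl fun i _ => ?_
            noncomm_ring
          rw [this]
          apply Submodule.sub_mem
          · exact Submodule.mem_sup_left ⟨_, hV' y, rfl⟩
          · exact Submodule.mem_sup_right (hV' _)
    · -- dependent: rewrite with fewer terms
      rw [Fintype.not_linearIndependent_iff] at hb
      obtain ⟨g, hg, i₀, hi₀⟩ := hb
      have hbi : b i₀ = ∑ j : Fin n, (-(g i₀)⁻¹ * g (i₀.succAbove j)) • b (i₀.succAbove j) := by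
        rw [Fin.sum_univ_succAbove _ i₀] at hg
        have h1 : g i₀ • b i₀ = - ∑ j : Fin n, g (i₀.succAbove j) • b (i₀.succAbove j) :=
          eq_neg_of_add_eq_zero_left hg
        have h2 : b i₀ = (g i₀)⁻¹ • (g i₀ • b i₀) := by
          rw [smul_smul, inv_mul_cancel₀ hi₀, one_smul]
        rw [h2, h1, smul_neg, Finset.smul_sum, ← Finset.sum_neg_distrib]
        refine Finset.sum_congr rfl fun j _ => ?_
        rw [smul_smul, neg_mul, neg_smul]
      have hsplit : ∀ y, ∑ i : Fin (n+1), a i * y * b i
          = ∑ j : Fin n, (a (i₀.succAbove j) + (-(g i₀)⁻¹ * g (i₀.succAbove j)) • a i₀) * y *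
              b (i₀.succAbove j) := by
        intro y
        rw [Fin.sum_univ_succAbove _ i₀]
        conv_lhs => rw [hbi]
        rw [Finset.mul_sum, ← Finset.sum_add_distrib]
        refine Finset.sum_congr rfl fun j _ => ?_
        rw [add_mul, add_mul, smul_mul_assoc, smul_mul_assoc, mul_smul_comm, add_comm]
      apply ih (fun j => a (i₀.succAbove j) + (-(g i₀)⁻¹ * g (i₀.succAbove j)) • a i₀)
        (fun j => b (i₀.succAbove j))
      · exact ⟨y₀, by rw [← hsplit]; exact hy₀⟩
      · exact ⟨V, hVfin, fun y => by rw [← hsplit]; exact hV y⟩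

end ElementaryOperators


theorem ofFn_update {A : Type*} {m : ℕ} (u : Fin m → A) (p : Fin m) (y : A) :
    List.ofFn (Function.update u p y) = (List.ofFn u).set p y := by
  apply List.ext_getElem
  · simp
  · intro i h1 h2
    simp only [List.getElem_ofFn, List.getElem_set]
    by_cases h : (p : ℕ) = i
    · subst h; simp
    · rw [if_neg h, Function.update_of_ne]
      intro h'
      apply h
      rw [← h']

theorem prod_update {D : Type*} [Monoid D] {m : ℕ} (u : Fin m → D) (p : Fin m) (y : D) :
    (List.ofFn (Function.update u p y)).prod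
      = ((List.ofFn u).take p).prod * y * ((List.ofFn u).drop (p+1)).prod := by
  rw [ofFn_update, List.prod_set, if_pos (by simp)]

theorem prod_two_updates {D : Type*} [Monoid D] {m : ℕ} (u : Fin m → D) (p q : Fin m)
    (hpq : p < q) :
    ∃ A B C : D, ∀ y x : D,
      (List.ofFn (Function.update (Function.update u p y) q x)).prod = A * y * B * x * C := by
  refine ⟨((List.ofFn u).take p).prod, (((List.ofFn u).take q).drop (p+1)).prod,
    ((List.ofFn u).drop (q+1)).prod, fun y x => ?_⟩
  have hpq' : (p : ℕ) < q := hpq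
  have hq := q.2
  rw [prod_update, ofFn_update, List.take_set, List.prod_set, if_pos (by simp; omega),
    List.take_take, List.drop_set_of_lt (by omega), min_eq_left (le_of_lt hpq')]

theorem perm_eq_of_order {m : ℕ} (σ τ : Equiv.Perm (Fin m))
    (h : ∀ i j, σ.symm i < σ.symm j → τ.symm i < τ.symm j) : σ = τ := by
  have hm : StrictMono (fun k => τ.symm (σ k)) := by
    intro a b hab
    exact h _ _ (by simpa using hab)
  have : (fun k => τ.symm (σ k)) = id := by
    have h2 : Set.range (fun k => τ.symm (σ k)) = Set.range (id : Fin m → Fin m) := by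
      have : (fun k => τ.symm (σ k)) = (σ.trans τ.symm : Fin m → Fin m) := rfl
      rw [this, Equiv.range_eq_univ, Set.range_id]
    exact (hm.range_inj strictMono_id).mp h2
  ext k : 1
  have := congrFun this k
  simp only [id] at this
  rw [Equiv.symm_apply_eq] at this
  exact this


/-- A multilinear identity `∑ c σ x_{σ 0} ... x_{σ (m-1)}`. -/
def MLId (F A : Type*) [CommRing F] [Ring A] [Algebra F A] (m : ℕ)
    (c : Equiv.Perm (Fin m) → F) : Prop :=
  ∀ x : Fin m → A, ∑ σ : Equiv.Perm (Fin m), c σ • (List.ofFn (fun i => x (σ i))).prod = 0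

/-- Kaplansky: a division ring with a nonzero multilinear identity over its centre is finite
dimensional over its centre. -/
theorem finite_of_mlid {F D : Type*} [Field F] [DivisionRing D] [Algebra F D]
    (hZ : ∀ z : D, (∀ y, z * y = y * z) → z ∈ (algebraMap F D).range)
    {m : ℕ} {c₀ : Equiv.Perm (Fin m) → F} (hc₀ : c₀ ≠ 0) (h₀ : MLId F D m c₀) :
    FiniteDimensional F D := by
  classical
  -- minimal support
  have hex : ∃ k, ∃ c : Equiv.Perm (Fin m) → F, c ≠ 0 ∧ MLId F D m c ∧
      (Finset.univ.filter (fun σ => c σ ≠ 0)).card = k := ⟨_, c₀, hc₀, h₀, rfl⟩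
  obtain ⟨c, hc, hid, hk⟩ := Nat.find_spec hex
  have hmin : ∀ c' : Equiv.Perm (Fin m) → F, c' ≠ 0 →
      (Finset.univ.filter (fun σ => c' σ ≠ 0)).card <
        (Finset.univ.filter (fun σ => c σ ≠ 0)).card → ¬ MLId F D m c' := by
    intro c' h1 h2 h3
    rw [hk] at h2
    exact Nat.find_min hex h2 ⟨c', h1, h3, rfl⟩
  obtain ⟨σ₀, hσ₀⟩ : ∃ σ₀, c σ₀ ≠ 0 := Function.ne_iff.mp hc
  -- a second permutation
  obtain ⟨τ₀, hτ₀, hne⟩ : ∃ τ₀, c τ₀ ≠ 0 ∧ τ₀ ≠ σ₀ := by
    by_contra hcon
    push Not at hcon
    have h1 := hid (fun _ => 1)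
    rw [Finset.sum_eq_single σ₀] at h1
    · simp at h1
      exact hσ₀ h1
    · intro τ _ hτ
      by_cases h2 : c τ = 0
      · rw [h2, zero_smul]
      · exact absurd (hcon τ h2) hτ
    · simp
  obtain ⟨i, j, hij, hji⟩ : ∃ i j, σ₀.symm i < σ₀.symm j ∧ ¬ τ₀.symm i < τ₀.symm j := by
    by_contra hcon
    push Not at hcon
    exact hne (perm_eq_of_order σ₀ τ₀ hcon).symm
  have hijne : i ≠ j := by rintro rfl; exact lt_irrefl _ hij
  set c' : Equiv.Perm (Fin m) → F := fun σ => if σ.symm i < σ.symm j then c σ else 0 with hc'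
  have hc'0 : c' ≠ 0 := by
    intro h0
    have := congrFun h0 σ₀
    simp only [hc', if_pos hij, Pi.zero_apply] at this
    exact hσ₀ this
  have hcard : (Finset.univ.filter (fun σ => c' σ ≠ 0)).card <
        (Finset.univ.filter (fun σ => c σ ≠ 0)).card := by
    apply Finset.card_lt_card
    rw [Finset.ssubset_iff_of_subset]
    · refine ⟨τ₀, by simp [hτ₀], ?_⟩
      simp only [Finset.mem_filter, Finset.mem_univ, true_and, hc', if_neg hji]
      simp
    · intro σ
      simp only [Finset.mem_filter, Finset.mem_univ, true_and, hc']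
      intro h1 h2
      apply h1
      rw [h2]; simp
  have hnot := hmin c' hc'0 hcard
  unfold MLId at hnot
  push Not at hnot
  obtain ⟨x₀, hx₀⟩ := hnot
  -- the updated tuple
  set X : D → D → Fin m → D := fun y x => Function.update (Function.update x₀ i y) j x with hX
  have hupd : ∀ (σ : Equiv.Perm (Fin m)) (y x : D), (fun k => X y x (σ k)) =
      Function.update (Function.update (fun k => x₀ (σ k)) (σ.symm i) y) (σ.symm j) x := by
    intro σ y x
    funext k
    simp only [hX, Function.update_apply, Equiv.eq_symm_apply]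
  have hupd' : ∀ (σ : Equiv.Perm (Fin m)) (y x : D), (fun k => X y x (σ k)) =
      Function.update (Function.update (fun k => x₀ (σ k)) (σ.symm j) x) (σ.symm i) y := by
    intro σ y x
    rw [hupd, Function.update_comm]
    intro h
    exact hijne (σ.symm.injective h)
  have hA1 : ∀ σ : Equiv.Perm (Fin m), ∃ A B C : D, σ.symm i < σ.symm j → ∀ y x : D,
      (List.ofFn (fun k => X y x (σ k))).prod = A * y * B * x * C := by
    intro σ
    by_cases h : σ.symm i < σ.symm j
    · obtain ⟨A, B, C, hABC⟩ := prod_two_updates (fun k => x₀ (σ k)) _ _ h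
      exact ⟨A, B, C, fun _ y x => by rw [hupd, hABC]⟩
    · exact ⟨0, 0, 0, fun h' => absurd h' h⟩
  have hA2 : ∀ σ : Equiv.Perm (Fin m), ∃ A B C : D, ¬ σ.symm i < σ.symm j → ∀ y x : D,
      (List.ofFn (fun k => X y x (σ k))).prod = A * x * B * y * C := by
    intro σ
    by_cases h : σ.symm i < σ.symm j
    · exact ⟨0, 0, 0, fun h' => absurd h h'⟩
    · have hlt : σ.symm j < σ.symm i := by
        refine lt_of_le_of_ne (not_lt.mp h) ?_
        intro h'
        exact hijne (σ.symm.injective h').symm
      obtain ⟨A, B, C, hABC⟩ := prod_two_updates (fun k => x₀ (σ k)) _ _ hlt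
      exact ⟨A, B, C, fun _ y x => by rw [hupd', hABC]⟩
  choose A₁ B₁ C₁ h1 using hA1
  choose A₂ B₂ C₂ h2 using hA2
  set S₁ := Finset.univ.filter (fun σ : Equiv.Perm (Fin m) => σ.symm i < σ.symm j) with hS₁
  set S₂ := Finset.univ.filter (fun σ : Equiv.Perm (Fin m) => ¬ σ.symm i < σ.symm j) with hS₂
  have htot : ∀ y x : D, ∑ σ ∈ S₁, (c σ • (A₁ σ * y * B₁ σ)) * x * C₁ σ
      + ∑ σ ∈ S₂, (c σ • A₂ σ) * x * (B₂ σ * y * C₂ σ) = 0 := by
    intro y x
    rw [← hid (X y x), ← Finset.sum_filter_add_sum_filter_not Finset.univ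
      (fun σ : Equiv.Perm (Fin m) => σ.symm i < σ.symm j)]
    congr 1
    · refine Finset.sum_congr rfl fun σ hσ => ?_
      rw [h1 σ (Finset.mem_filter.mp hσ).2]
      simp only [smul_mul_assoc]
    · refine Finset.sum_congr rfl fun σ hσ => ?_
      rw [h2 σ (Finset.mem_filter.mp hσ).2]
      simp only [smul_mul_assoc, mul_assoc]
  -- the functional consequence
  have hfun : ∀ (φ : D →ₗ[F] F) (y : D),
      ∑ σ ∈ S₁, φ (C₁ σ) • (c σ • (A₁ σ * y * B₁ σ))
        = - ∑ σ ∈ S₂, φ (B₂ σ * y * C₂ σ) • (c σ • A₂ σ) := by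
    intro φ y
    have key := sum_functional_eq_zero hZ (Finset.univ : Finset (Equiv.Perm (Fin m)))
      (fun σ => if σ.symm i < σ.symm j then c σ • (A₁ σ * y * B₁ σ) else c σ • A₂ σ)
      (fun σ => if σ.symm i < σ.symm j then C₁ σ else B₂ σ * y * C₂ σ) ?_ φ
    · rw [← Finset.sum_filter_add_sum_filter_not Finset.univ
        (fun σ : Equiv.Perm (Fin m) => σ.symm i < σ.symm j)] at key
      rw [eq_neg_iff_add_eq_zero, ← key]
      congr 1
      · refine Finset.sum_congr rfl fun σ hσ => ?_
        simp only [if_pos (Finset.mem_filter.mp hσ).2]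
      · refine Finset.sum_congr rfl fun σ hσ => ?_
        simp only [if_neg (Finset.mem_filter.mp hσ).2]
    · intro x
      rw [← htot y x, ← Finset.sum_filter_add_sum_filter_not Finset.univ
        (fun σ : Equiv.Perm (Fin m) => σ.symm i < σ.symm j)]
      congr 1
      · refine Finset.sum_congr rfl fun σ hσ => ?_
        simp only [if_pos (Finset.mem_filter.mp hσ).2]
      · refine Finset.sum_congr rfl fun σ hσ => ?_
        simp only [if_neg (Finset.mem_filter.mp hσ).2]
  -- some functional gives a nonzero operator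
  obtain ⟨φ, y₁, hφ⟩ : ∃ (φ : D →ₗ[F] F) (y : D),
      ∑ σ ∈ S₁, φ (C₁ σ) • (c σ • (A₁ σ * y * B₁ σ)) ≠ 0 := by
    by_contra hcon
    push Not at hcon
    apply hx₀
    have hXx : X (x₀ i) (x₀ j) = x₀ := by
      simp [hX]
    have hz := sum_eq_zero_of_functional S₁ (fun σ => c σ • (A₁ σ * (x₀ i) * B₁ σ)) C₁
      (fun φ => hcon φ (x₀ i)) (x₀ j)
    rw [← hz]
    have : ∀ σ : Equiv.Perm (Fin m), c' σ • (List.ofFn (fun k => x₀ (σ k))).prod
        = if σ.symm i < σ.symm j then (c σ • (A₁ σ * (x₀ i) * B₁ σ)) * (x₀ j) * C₁ σ else 0 := by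
      intro σ
      by_cases h : σ.symm i < σ.symm j
      · rw [if_pos h]
        simp only [hc', if_pos h]
        have := h1 σ h (x₀ i) (x₀ j)
        rw [hXx] at this
        rw [this]
        simp only [smul_mul_assoc]
      · simp only [hc', if_neg h, zero_smul]
    simp_rw [this]
    rw [← Finset.sum_filter]
  -- conclude
  let e := Fintype.equivFin (Equiv.Perm (Fin m))
  let a : Fin (Fintype.card (Equiv.Perm (Fin m))) → D := fun k =>
    if (e.symm k).symm i < (e.symm k).symm j
      then (φ (C₁ (e.symm k)) * c (e.symm k)) • A₁ (e.symm k) else 0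
  let b : Fin (Fintype.card (Equiv.Perm (Fin m))) → D := fun k => B₁ (e.symm k)
  have hab : ∀ y, ∑ k, a k * y * b k = ∑ σ ∈ S₁, φ (C₁ σ) • (c σ • (A₁ σ * y * B₁ σ)) := by
    intro y
    rw [hS₁, Finset.sum_filter]
    rw [← Equiv.sum_comp e.symm]
    refine Finset.sum_congr rfl fun k _ => ?_
    simp only [a, b]
    by_cases h : (e.symm k).symm i < (e.symm k).symm j
    · rw [if_pos h, if_pos h, smul_smul, smul_mul_assoc, smul_mul_assoc]
    · rw [if_neg h, if_neg h]; simp
  refine finite_of_finite_rank hZ _ a b ⟨y₁, by rw [hab]; exact hφ⟩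
    ⟨Submodule.span F (Set.range fun σ => A₂ σ), ?_, ?_⟩
  · exact FiniteDimensional.span_of_finite F (Set.finite_range _)
  · intro y
    rw [hab, hfun]
    apply Submodule.neg_mem
    refine Submodule.sum_mem _ fun σ _ => ?_
    refine Submodule.smul_mem _ _ (Submodule.smul_mem _ _ (Submodule.subset_span ⟨σ, rfl⟩))

end Pool.Agent.Helper71
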