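import Pool.Agent.Helper71.Centralizer

set_option autoImplicit false

namespace Pool.Agent.Helper71

open Finset

/-- Kaplansky's theorem for division rings. -/
theorem finite_of_pi {F X D : Type*} [Field F] [DivisionRing D] [Algebra F D]
    (hZ : ∀ z : D, (∀ y, z * y = y * z) → z ∈ (algebraMap F D).range)
    (f : FreeAlgebra F X) (hf : f ≠ 0) (h : ∀ a : X → D, FreeAlgebra.lift F a f = 0) :
    FiniteDimensional F D := by
  obtain ⟨m, c, hc, hid⟩ := exists_mlid f hf h
  exact finite_of_mlid hZ hc hid

/-- If the centralizer of an algebraic element is PI then `D` is finite dimensional. -/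
theorem finite_of_cent_mlid {F D : Type*} [Field F] [DivisionRing D] [Algebra F D]
    (hZ : ∀ z : D, (∀ y, z * y = y * z) → z ∈ (algebraMap F D).range) (a : D)
    (ha : IsAlgebraic F a) {m : ℕ} {c : Equiv.Perm (Fin m) → F} (hc : c ≠ 0)
    (hid : MLId F (Subalgebra.centralizer F {a} : Subalgebra F D) m c) :
    FiniteDimensional F D := by
  classical
  have hmem : ∀ r : F, algebraMap F D r ∈ cent a := fun r =>
    (mem_cent a _).mpr (Algebra.commutes r a).symm
  have hcen : ∀ r : F, (⟨algebraMap F D r, hmem r⟩ : cent a) ∈ Subring.center (cent a) := by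
    intro r
    rw [Subring.mem_center_iff]
    intro g
    apply Subtype.ext
    exact (Algebra.commutes r (g : D)).symm
  let L := Subring.center (cent a)
  let c' : Equiv.Perm (Fin m) → L := fun σ => ⟨⟨algebraMap F D (c σ), hmem (c σ)⟩, hcen (c σ)⟩
  have hc' : c' ≠ 0 := by
    intro h0
    apply hc
    funext σ
    have h1 := congrFun h0 σ
    have h2 : algebraMap F D (c σ) = 0 := congrArg (fun t : L => ((t : cent a) : D)) h1
    exact (map_eq_zero_iff _ (algebraMap F D).injective).mp h2
  have hid' : MLId L (cent a) m c' := by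
    intro x
    apply Subtype.ext
    have hx : ∀ i, (x i : D) ∈ Subalgebra.centralizer F {a} := by
      intro i
      rw [Subalgebra.mem_centralizer_iff]
      rintro g rfl
      exact (mem_cent g _).mp (x i).2
    have h1 := congrArg Subtype.val (hid (fun i => ⟨(x i : D), hx i⟩))
    have hL : ∀ (l : List (cent a)), ((l.prod : cent a) : D)
        = (l.map (fun t : cent a => (t : D))).prod := by
      intro l
      induction l with
      | nil => rfl
      | cons t l ih => rw [List.prod_cons, List.map_cons, List.prod_cons, ← ih]; rfl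
    have hR : ∀ (l : List (Subalgebra.centralizer F {a} : Subalgebra F D)),
        ((l.prod : (Subalgebra.centralizer F {a} : Subalgebra F D)) : D)
          = (l.map (fun t : (Subalgebra.centralizer F {a} : Subalgebra F D) => (t : D))).prod := by
      intro l
      induction l with
      | nil => rfl
      | cons t l ih => rw [List.prod_cons, List.map_cons, List.prod_cons, ← ih]; rfl
    have e1 : ((∑ σ : Equiv.Perm (Fin m), c' σ • (List.ofFn (fun i => x (σ i))).prod : cent a) : D)
        = ∑ σ : Equiv.Perm (Fin m), c σ • (List.ofFn (fun i => (x (σ i) : D))).prod := by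
      have : ∀ (s : Finset (Equiv.Perm (Fin m))) (g : Equiv.Perm (Fin m) → cent a),
          ((∑ σ ∈ s, g σ : cent a) : D) = ∑ σ ∈ s, (g σ : D) := by
        intro s g
        exact map_sum (cent a).subtype g s
      rw [this]
      refine Finset.sum_congr rfl fun σ _ => ?_
      have h3 : ((c' σ • (List.ofFn (fun i => x (σ i))).prod : cent a) : D)
          = algebraMap F D (c σ) * (((List.ofFn (fun i => x (σ i))).prod : cent a) : D) := rfl
      rw [h3, hL, List.map_ofFn, Algebra.smul_def]
      rfl
    have e2 : ((∑ σ : Equiv.Perm (Fin m), c σ •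
        (List.ofFn (fun i => (⟨(x (σ i) : D), hx (σ i)⟩ :
          (Subalgebra.centralizer F {a} : Subalgebra F D)))).prod :
          (Subalgebra.centralizer F {a} : Subalgebra F D)) : D)
        = ∑ σ : Equiv.Perm (Fin m), c σ • (List.ofFn (fun i => (x (σ i) : D))).prod := by
      have : ∀ (s : Finset (Equiv.Perm (Fin m)))
          (g : Equiv.Perm (Fin m) → (Subalgebra.centralizer F {a} : Subalgebra F D)),
          ((∑ σ ∈ s, g σ : (Subalgebra.centralizer F {a} : Subalgebra F D)) : D)
            = ∑ σ ∈ s, (g σ : D) := by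
        intro s g
        exact map_sum (Subalgebra.centralizer F {a} : Subalgebra F D).val g s
      rw [this]
      refine Finset.sum_congr rfl fun σ _ => ?_
      rw [Subalgebra.coe_smul, hR, List.map_ofFn]
      rfl
    rw [e1, ← e2]
    exact h1
  have hZ' : ∀ z : cent a, (∀ y, z * y = y * z) → z ∈ (algebraMap L (cent a)).range := by
    intro z hz
    exact ⟨⟨z, Subring.mem_center_iff.mpr fun g => (hz g).symm⟩, rfl⟩
  have h1 : Module.Finite L (cent a) := finite_of_mlid hZ' hc' hid'
  have h2 : Module.Finite (cent a) D := finite_over_cent a ha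
  have h3 : Module.Finite L D := Module.Finite.trans (cent a) D
  have h4 : IsScalarTower L D D := ⟨fun x y z => mul_assoc _ _ _⟩
  obtain ⟨m', c₂, hc₂, hid₂⟩ := exists_mlid_of_finite (F := F) (L := L) (D := D)
  exact finite_of_mlid hZ hc₂ hid₂


/-- the evaluation of a multilinear polynomial as a linear function of its coefficients -/
noncomputable def evalML (F : Type*) {D : Type*} [Field F] [Ring D] [Algebra F D] {m : ℕ}
    (x : Fin m → D) : (Equiv.Perm (Fin m) → F) →ₗ[F] D where
  toFun c := ∑ σ : Equiv.Perm (Fin m), c σ • (List.ofFn (fun i => x (σ i))).prod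
  map_add' c c' := by simp [add_smul, Finset.sum_add_distrib]
  map_smul' r c := by simp [Finset.smul_sum, smul_smul]

/-- finitely many tuples detect all multilinear non-identities of a given degree -/
theorem exists_finite_witness {F D : Type*} [Field F] [Ring D] [Algebra F D] (m : ℕ)
    (h : ∀ c : Equiv.Perm (Fin m) → F, c ≠ 0 → ¬ MLId F D m c) :
    ∃ T : Finset (Fin m → D), ∀ c : Equiv.Perm (Fin m) → F,
      (∀ x ∈ T, evalML F x c = 0) → c = 0 := by
  classical
  let W : Finset (Fin m → D) → Submodule F (Equiv.Perm (Fin m) → F) :=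
    fun T => ⨅ x ∈ T, LinearMap.ker (evalML F x)
  have hW : ∀ T c, c ∈ W T ↔ ∀ x ∈ T, evalML F x c = 0 := by
    intro T c
    simp [W, Submodule.mem_iInf]
  have hex : ∃ k, ∃ T, Module.finrank F (W T) = k := ⟨_, ∅, rfl⟩
  obtain ⟨T, hT⟩ := Nat.find_spec hex
  have hmin : ∀ T', ¬ Module.finrank F (W T') < Module.finrank F (W T) := by
    intro T' h1
    rw [hT] at h1
    exact Nat.find_min hex h1 ⟨T', rfl⟩
  refine ⟨T, fun c hc => ?_⟩
  by_contra hc0
  have h1 := h c hc0
  unfold MLId at h1
  push Not at h1
  obtain ⟨x, hx⟩ := h1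
  apply hmin (insert x T)
  apply Submodule.finrank_lt_finrank_of_lt
  refine lt_of_le_of_ne ?_ ?_
  · intro c' hc'
    rw [hW] at hc' ⊢
    intro y hy
    exact hc' y (Finset.mem_insert_of_mem hy)
  · intro heq
    have h2 : c ∈ W T := (hW T c).mpr hc
    rw [← heq, hW] at h2
    exact hx (h2 x (Finset.mem_insert_self x T))

/-- A non-PI algebra over a field has a countably generated subalgebra without multilinear
identities. -/
theorem exists_countable {F D : Type*} [Field F] [Ring D] [Algebra F D]
    (h : ∀ (m : ℕ) (c : Equiv.Perm (Fin m) → F), c ≠ 0 → ¬ MLId F D m c) :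
    ∃ S : Set D, S.Countable ∧ ∀ (m : ℕ) (c : Equiv.Perm (Fin m) → F), c ≠ 0 →
      ¬ MLId F (Algebra.adjoin F S) m c := by
  classical
  choose T hT using fun m => exists_finite_witness (F := F) (D := D) m (h m)
  refine ⟨⋃ m, ⋃ x ∈ T m, Set.range x, ?_, ?_⟩
  · refine Set.countable_iUnion fun m => ?_
    refine Set.Countable.biUnion (Finset.countable_toSet _) fun x _ => Set.countable_range x
  · intro m c hc hid
    apply hc
    apply hT m c
    intro x hx
    have hmem : ∀ i, x i ∈ Algebra.adjoin F (⋃ m, ⋃ x ∈ T m, Set.range x) := by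
      intro i
      apply Algebra.subset_adjoin
      exact Set.mem_iUnion.mpr ⟨m, Set.mem_iUnion₂.mpr ⟨x, hx, ⟨i, rfl⟩⟩⟩
    have h1 := congrArg Subtype.val (hid (fun i => ⟨x i, hmem i⟩))
    have hR : ∀ (l : List (Algebra.adjoin F (⋃ m, ⋃ x ∈ T m, Set.range x))),
        ((l.prod : (Algebra.adjoin F (⋃ m, ⋃ x ∈ T m, Set.range x))) : D)
          = (l.map (fun t : (Algebra.adjoin F (⋃ m, ⋃ x ∈ T m, Set.range x)) => (t : D))).prod := by
      intro l
      induction l with
      | nil => rfl
      | cons t l ih => rw [List.prod_cons, List.map_cons, List.prod_cons, ← ih]; rfl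
    have e2 : ((∑ σ : Equiv.Perm (Fin m), c σ •
        (List.ofFn (fun i => (⟨x (σ i), hmem (σ i)⟩ :
          (Algebra.adjoin F (⋃ m, ⋃ x ∈ T m, Set.range x))))).prod :
          (Algebra.adjoin F (⋃ m, ⋃ x ∈ T m, Set.range x))) : D)
        = ∑ σ : Equiv.Perm (Fin m), c σ • (List.ofFn (fun i => x (σ i))).prod := by
      have : ∀ (s : Finset (Equiv.Perm (Fin m)))
          (g : Equiv.Perm (Fin m) → (Algebra.adjoin F (⋃ m, ⋃ x ∈ T m, Set.range x))),
          ((∑ σ ∈ s, g σ : (Algebra.adjoin F (⋃ m, ⋃ x ∈ T m, Set.range x))) : D)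
            = ∑ σ ∈ s, (g σ : D) := by
        intro s g
        exact map_sum (Algebra.adjoin F (⋃ m, ⋃ x ∈ T m, Set.range x)).val g s
      rw [this]
      refine Finset.sum_congr rfl fun σ _ => ?_
      rw [Subalgebra.coe_smul, hR, List.map_ofFn]
      rfl
    show ∑ σ : Equiv.Perm (Fin m), c σ • (List.ofFn (fun i => x (σ i))).prod = 0
    rw [← e2]
    exact h1

/-- In a division algebra, a transcendental element gives a linearly independent family indexed
by the base field. -/
theorem linearIndependent_of_transcendental {F D : Type*} [Field F] [DivisionRing D]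
    [Algebra F D] (a : D) (ha : Transcendental F a) :
    LinearIndependent F (fun r : F => (a - algebraMap F D r)⁻¹) := by
  have hmem : ∀ r : F, algebraMap F D r ∈ cent a := fun r =>
    (mem_cent a _).mpr (Algebra.commutes r a).symm
  have hcen : ∀ r : F, (⟨algebraMap F D r, hmem r⟩ : cent a) ∈ Subring.center (cent a) := by
    intro r
    rw [Subring.mem_center_iff]
    intro g
    apply Subtype.ext
    exact (Algebra.commutes r (g : D)).symm
  let L := Subring.center (cent a)
  let _ : Algebra F L := RingHom.toAlgebra
    { toFun := fun r => ⟨⟨algebraMap F D r, hmem r⟩, hcen r⟩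
      map_one' := by apply Subtype.ext; apply Subtype.ext; exact map_one _
      map_mul' := fun x y => by apply Subtype.ext; apply Subtype.ext; exact map_mul _ _ _
      map_zero' := by apply Subtype.ext; apply Subtype.ext; exact map_zero _
      map_add' := fun x y => by apply Subtype.ext; apply Subtype.ext; exact map_add _ _ _ }
  let φ : L →ₐ[F] D :=
    { toFun := fun x => ((x : cent a) : D)
      map_one' := rfl
      map_mul' := fun _ _ => rfl
      map_zero' := rfl
      map_add' := fun _ _ => rfl
      commutes' := fun _ => rfl }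
  have haC : a ∈ cent a := (mem_cent a a).mpr rfl
  have haL : (⟨a, haC⟩ : cent a) ∈ Subring.center (cent a) := by
    rw [Subring.mem_center_iff]
    intro g
    apply Subtype.ext
    exact ((mem_cent a _).mp g.2).symm
  let a' : L := ⟨⟨a, haC⟩, haL⟩
  have hφ : Function.Injective φ := φ.toRingHom.injective
  have ha' : Transcendental F a' := by
    intro h
    exact ha ((isAlgebraic_algHom_iff φ hφ).mpr h)
  have h1 := ha'.linearIndependent_sub_inv
  have h2 := h1.map' φ.toLinearMap (LinearMap.ker_eq_bot.mpr hφ)
  have h3 : (φ.toLinearMap ∘ fun r => (a' - algebraMap F L r)⁻¹)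
      = fun r : F => (a - algebraMap F D r)⁻¹ := by
    funext r
    show φ (a' - algebraMap F L r)⁻¹ = (a - algebraMap F D r)⁻¹
    rw [map_inv₀, map_sub, AlgHom.commutes]
    rfl
  rw [h3] at h2
  exact h2

/-- Main theorem: an uncountable division algebra, infinite dimensional over its centre, has a
proper subalgebra satisfying no nonzero polynomial identity. -/
theorem uncountable_main {F D : Type*} [Field F] [DivisionRing D] [Algebra F D]
    (hcen : Subalgebra.center F D ≤ ⊥) (hinf : ¬ FiniteDimensional F D) [Uncountable D] :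
    ∃ A : Subalgebra F D, A ≠ ⊤ ∧ ∀ (n : ℕ) (f : FreeAlgebra F (Fin n)), f ≠ 0 →
      ∃ a : Fin n → A, FreeAlgebra.lift F a f ≠ 0 := by
  classical
  have hZ : ∀ z : D, (∀ y, z * y = y * z) → z ∈ (algebraMap F D).range := by
    intro z hz
    have h1 : z ∈ Subalgebra.center F D := by
      rw [Subalgebra.mem_center_iff]
      exact fun b => (hz b).symm
    exact Algebra.mem_bot.mp (hcen h1)
  by_contra hcon
  push Not at hcon
  have hPI : ∀ A : Subalgebra F D, A ≠ ⊤ → ∃ (m : ℕ) (c : Equiv.Perm (Fin m) → F),
      c ≠ 0 ∧ MLId F A m c := by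
    intro A hA
    obtain ⟨n, f, hf, h⟩ := hcon A hA
    exact exists_mlid f hf h
  have hD : ∀ (m : ℕ) (c : Equiv.Perm (Fin m) → F), c ≠ 0 → ¬ MLId F D m c :=
    fun m c hc hid => hinf (finite_of_mlid hZ hc hid)
  obtain ⟨S, hS, hSid⟩ := exists_countable hD
  have htop : Algebra.adjoin F S = ⊤ := by
    by_contra hne
    obtain ⟨m, c, hc, hid⟩ := hPI _ hne
    exact hSid m c hc hid
  -- D is spanned by a countable set
  have hspan : ∃ T : Set D, T.Countable ∧ Submodule.span F T = ⊤ := by
    refine ⟨(Submonoid.closure S : Set D), ?_, ?_⟩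
    · have := hS.to_subtype
      have : Countable (Submonoid.closure S) := by
        have h1 : Function.Surjective (fun l : FreeMonoid S =>
            (⟨FreeMonoid.lift (fun s : S => (s : D)) l, by
              rw [Submonoid.closure_eq_mrange]; exact ⟨l, rfl⟩⟩ : Submonoid.closure S)) := by
          rintro ⟨x, hx⟩
          have hx' := hx
          rw [Submonoid.closure_eq_mrange] at hx'
          obtain ⟨l, hl⟩ := hx'
          exact ⟨l, Subtype.ext hl⟩
        have : Countable (FreeMonoid S) := inferInstanceAs (Countable (List S))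
        exact h1.countable
      exact this.to_set
    · rw [← Algebra.adjoin_eq_span, htop]; rfl
  obtain ⟨T, hT, hTspan⟩ := hspan
  have hrank : Module.rank F D ≤ Cardinal.aleph0 := by
    have h1 := rank_span_le (R := F) T
    rw [hTspan, rank_top] at h1
    exact h1.trans (Cardinal.le_aleph0_iff_set_countable.mpr hT)
  have hF : Uncountable F := by
    by_contra hF
    rw [not_uncountable_iff] at hF
    have : Countable D := by
      have := hT.to_subtype
      have h1 : Function.Surjective (fun g : T →₀ F => Finsupp.linearCombination F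
          (fun t : T => (t : D)) g) := by
        intro x
        have hx : x ∈ Submodule.span F (Set.range (fun t : T => (t : D))) := by
          rw [Subtype.range_coe, hTspan]; trivial
        rw [← Finsupp.range_linearCombination] at hx
        exact hx
      exact h1.countable
    exact not_countable this
  have halg : ∀ a : D, IsAlgebraic F a := by
    intro a
    by_contra ha
    have h1 := linearIndependent_of_transcendental a ha
    have h2 := h1.cardinal_lift_le_rank
    have h3 : Cardinal.lift.{_} (Cardinal.mk F) ≤ Cardinal.aleph0 :=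
      h2.trans ((Cardinal.lift_le.mpr hrank).trans (by simp))
    rw [Cardinal.lift_le_aleph0] at h3
    exact not_countable (Cardinal.mk_le_aleph0_iff.mp h3)
  -- a noncentral element
  obtain ⟨a, ha⟩ : ∃ a : D, ¬ ∀ y, a * y = y * a := by
    by_contra hall
    push Not at hall
    apply hinf
    have : (⊤ : Subalgebra F D) = ⊥ := by
      rw [eq_bot_iff]
      intro z _
      exact Algebra.mem_bot.mpr (hZ z (hall z))
    have h2 : FiniteDimensional F (⊤ : Subalgebra F D) := by
      rw [this]; infer_instance
    exact Module.Finite.of_surjective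
      (Subalgebra.val (⊤ : Subalgebra F D)).toLinearMap (fun x => ⟨⟨x, trivial⟩, rfl⟩)
  have hne : (Subalgebra.centralizer F {a} : Subalgebra F D) ≠ ⊤ := by
    intro h
    apply ha
    intro y
    have : y ∈ (Subalgebra.centralizer F {a} : Subalgebra F D) := by rw [h]; trivial
    exact (Subalgebra.mem_centralizer_iff F).mp this a rfl
  obtain ⟨m, c, hc, hid⟩ := hPI _ hne
  exact hinf (finite_of_cent_mlid hZ a (halg a) hc hid)


/-- A division algebra, infinite dimensional over its centre, with a noncentral algebraic element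
has a proper subalgebra (the centralizer of this element) without polynomial identities. -/
theorem algebraic_main {F D : Type*} [Field F] [DivisionRing D] [Algebra F D]
    (hcen : Subalgebra.center F D ≤ ⊥) (hinf : ¬ FiniteDimensional F D)
    (a : D) (ha : a ∉ Subalgebra.center F D) (halg : IsAlgebraic F a) :
    ∃ A : Subalgebra F D, A ≠ ⊤ ∧ ∀ (n : ℕ) (f : FreeAlgebra F (Fin n)), f ≠ 0 →
      ∃ a : Fin n → A, FreeAlgebra.lift F a f ≠ 0 := by
  classical
  have hZ : ∀ z : D, (∀ y, z * y = y * z) → z ∈ (algebraMap F D).range := by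
    intro z hz
    have h1 : z ∈ Subalgebra.center F D := by
      rw [Subalgebra.mem_center_iff]
      exact fun b => (hz b).symm
    exact Algebra.mem_bot.mp (hcen h1)
  refine ⟨Subalgebra.centralizer F {a}, ?_, ?_⟩
  · intro h
    apply ha
    rw [Subalgebra.mem_center_iff]
    intro y
    have : y ∈ (Subalgebra.centralizer F {a} : Subalgebra F D) := by rw [h]; trivial
    exact ((Subalgebra.mem_centralizer_iff F).mp this a rfl).symm
  · intro n f hf
    by_contra hcon
    push Not at hcon
    obtain ⟨m, c, hc, hid⟩ := exists_mlid f hf hcon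
    exact hinf (finite_of_cent_mlid hZ a halg hc hid)

end Pool.Agent.Helper71
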