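import Pool.Agent.Helper71.Kaplansky

set_option autoImplicit false

namespace Pool.Agent.Helper71

open Finset

/-- the coefficients of a noncommutative polynomial -/
noncomputable def coeffs {F X : Type*} [CommSemiring F] (f : FreeAlgebra F X) :
    FreeMonoid X →₀ F := (FreeAlgebra.equivMonoidAlgebraFreeMonoid f).coeff

theorem lift_eq_sum {F X A : Type*} [Field F] [Ring A] [Algebra F A] (a : X → A)
    (f : FreeAlgebra F X) :
    FreeAlgebra.lift F a f = (coeffs f).sum (fun w r => r • (w.toList.map a).prod) := by
  have h : FreeAlgebra.lift F a =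
      (MonoidAlgebra.lift F A (FreeMonoid X) (FreeMonoid.lift a)).comp
        (FreeAlgebra.equivMonoidAlgebraFreeMonoid (R := F) (X := X)).toAlgHom := by
    apply FreeAlgebra.hom_ext
    funext x
    simp [FreeAlgebra.equivMonoidAlgebraFreeMonoid]
  rw [h]
  simp only [AlgHom.comp_apply]
  rw [MonoidAlgebra.lift_apply]
  simp only [FreeMonoid.lift_apply]
  rfl

theorem coeffs_ne_zero {F X : Type*} [Field F] (f : FreeAlgebra F X) (hf : f ≠ 0) :
    coeffs f ≠ 0 := by
  intro h
  apply hf
  have : FreeAlgebra.equivMonoidAlgebraFreeMonoid f = 0 := by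
    have h2 : (FreeAlgebra.equivMonoidAlgebraFreeMonoid f).coeff = (0 : MonoidAlgebra F (FreeMonoid X)).coeff := h
    exact MonoidAlgebra.coeff_injective h2
  exact (map_eq_zero_iff _ (AlgEquiv.injective _)).mp this


theorem inc_sum {d l : ℕ} (κ : Fin l → Fin d) :
    ∑ S : Finset (Fin d), (if (∀ j, κ j ∈ S) then (-1 : ℤ) ^ S.card else 0)
      = if Function.Surjective κ then (-1 : ℤ) ^ d else 0 := by
  classical
  by_cases hs : Function.Surjective κ
  · rw [if_pos hs, Finset.sum_eq_single Finset.univ]
    · simp
    · intro S _ hS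
      rw [if_neg]
      intro h
      apply hS
      rw [Finset.eq_univ_iff_forall]
      intro k
      obtain ⟨j, rfl⟩ := hs k
      exact h j
    · simp
  · rw [if_neg hs]
    unfold Function.Surjective at hs
    push Not at hs
    obtain ⟨k, hk⟩ := hs
    have hiff : ∀ S : Finset (Fin d), (∀ j, κ j ∈ insert k S) ↔ (∀ j, κ j ∈ S.erase k) := by
      intro S
      constructor
      · intro h j
        rw [Finset.mem_erase]
        refine ⟨hk j, ?_⟩
        rcases Finset.mem_insert.mp (h j) with h1 | h1
        · exact absurd h1 (hk j)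
        · exact h1
      · intro h j
        exact Finset.mem_insert_of_mem (Finset.mem_of_mem_erase (h j))
    refine Finset.sum_involution (fun S _ => if k ∈ S then S.erase k else insert k S) ?_ ?_ ?_ ?_
    · intro S _
      by_cases hkS : k ∈ S
      · simp only [if_pos hkS]
        have h1 : insert k S = S := Finset.insert_eq_of_mem hkS
        have h2 := hiff S
        rw [h1] at h2
        have h3 : S.card = (S.erase k).card + 1 := (Finset.card_erase_add_one hkS).symm
        by_cases h4 : ∀ j, κ j ∈ S
        · rw [if_pos h4, if_pos (h2.mp h4), h3, pow_succ]; ring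
        · rw [if_neg h4, if_neg (fun h5 => h4 (h2.mpr h5))]; rfl
      · simp only [if_neg hkS]
        have h1 : S.erase k = S := Finset.erase_eq_of_notMem hkS
        have h2 := hiff S
        rw [h1] at h2
        have h3 : (insert k S).card = S.card + 1 := Finset.card_insert_of_notMem hkS
        by_cases h4 : ∀ j, κ j ∈ S
        · rw [if_pos h4, if_pos (h2.mpr h4), h3, pow_succ]; ring
        · rw [if_neg h4, if_neg (fun h5 => h4 (h2.mp h5))]; rfl
    · intro S _ _
      by_cases hkS : k ∈ S
      · simp only [if_pos hkS]
        intro h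
        rw [← h] at hkS
        simp at hkS
      · simp only [if_neg hkS]
        intro h
        apply hkS
        rw [← h]
        simp
    · intro S _; exact Finset.mem_univ _
    · intro S _
      by_cases hkS : k ∈ S
      · simp only [if_pos hkS, Finset.mem_erase, ne_eq, not_true_eq_false, false_and, if_false]
        exact Finset.insert_erase hkS
      · simp only [if_neg hkS, Finset.mem_insert_self, if_true]
        exact Finset.erase_insert hkS

theorem polar_word {X A : Type*} [DecidableEq X] [Ring A] {d l : ℕ} (iota : Fin d → X)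
    (z : Fin d → A) (u : Fin l → X) :
    ∑ S : Finset (Fin d), ((-1 : ℤ) ^ S.card) •
        ((List.ofFn u).map (fun x => ∑ k ∈ S.filter (fun k => iota k = x), z k)).prod
      = ∑ κ : Fin l → Fin d, if Function.Surjective κ ∧ iota ∘ κ = u then
          ((-1 : ℤ) ^ d) • (List.ofFn (fun j => z (κ j))).prod else 0 := by
  classical
  have h1 : ∀ S : Finset (Fin d),
      ((List.ofFn u).map (fun x => ∑ k ∈ S.filter (fun k => iota k = x), z k)).prod
      = ∑ κ : Fin l → Fin d, if (∀ j, κ j ∈ S) ∧ iota ∘ κ = u then
          (List.ofFn (fun j => z (κ j))).prod else 0 := by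
    intro S
    rw [List.map_ofFn]
    have := MultilinearMap.map_sum_finset (MultilinearMap.mkPiAlgebraFin ℤ l A)
      (fun (_ : Fin l) (k : Fin d) => z k) (fun j => S.filter (fun k => iota k = u j))
    simp only [MultilinearMap.mkPiAlgebraFin_apply] at this
    have h2 : ((fun x => ∑ k ∈ S.filter (fun k => iota k = x), z k) ∘ u)
        = fun j => ∑ k ∈ S.filter (fun k => iota k = u j), z k := rfl
    rw [h2, this, ← Finset.sum_filter]
    refine Finset.sum_congr ?_ fun _ _ => rfl
    ext κ
    simp only [Fintype.mem_piFinset, Finset.mem_filter, Finset.mem_univ, true_and, funext_iff,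
      Function.comp_apply]
    exact forall_and
  simp_rw [h1, Finset.smul_sum]
  rw [Finset.sum_comm]
  refine Finset.sum_congr rfl fun κ _ => ?_
  by_cases hκ : iota ∘ κ = u
  · simp only [hκ, and_true]
    have h3 : ∑ S : Finset (Fin d), ((-1 : ℤ) ^ S.card) •
        (if (∀ j, κ j ∈ S) then (List.ofFn (fun j => z (κ j))).prod else 0)
        = (∑ S : Finset (Fin d), (if (∀ j, κ j ∈ S) then (-1 : ℤ) ^ S.card else 0)) •
          (List.ofFn (fun j => z (κ j))).prod := by
      rw [Finset.sum_smul]
      refine Finset.sum_congr rfl fun S _ => ?_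
      by_cases h4 : ∀ j, κ j ∈ S
      · rw [if_pos h4, if_pos h4]
      · rw [if_neg h4, if_neg h4, smul_zero, zero_smul]
    rw [h3, inc_sum]
    by_cases h5 : Function.Surjective κ
    · rw [if_pos h5, if_pos h5]
    · rw [if_neg h5, if_neg h5, zero_smul]
  · simp [hκ]

theorem sum_surj_eq_sum_perm {M : Type*} [AddCommMonoid M] {d : ℕ} (φ : (Fin d → Fin d) → M) :
    ∑ κ : Fin d → Fin d, (if Function.Surjective κ then φ κ else 0)
      = ∑ σ : Equiv.Perm (Fin d), φ σ := by
  classical
  rw [← Finset.sum_filter]
  symm
  refine Finset.sum_bij (fun (σ : Equiv.Perm (Fin d)) _ => (σ : Fin d → Fin d)) ?_ ?_ ?_ ?_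
  · intro σ _
    simp [σ.surjective]
  · intro σ _ τ _ h
    exact DFunLike.coe_injective h
  · intro κ hκ
    have hs : Function.Surjective κ := (Finset.mem_filter.mp hκ).2
    exact ⟨Equiv.ofBijective κ ⟨Finite.injective_iff_surjective.mpr hs, hs⟩,
      Finset.mem_univ _, rfl⟩
  · intro σ _; rfl


/-- Full polarisation: an algebra with a nonzero identity has a nonzero multilinear identity. -/
theorem exists_mlid {F X A : Type*} [Field F] [Ring A] [Algebra F A]
    (f : FreeAlgebra F X) (hf : f ≠ 0) (h : ∀ a : X → A, FreeAlgebra.lift F a f = 0) :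
    ∃ (m : ℕ) (c : Equiv.Perm (Fin m) → F), c ≠ 0 ∧ MLId F A m c := by
  classical
  have hg : coeffs f ≠ 0 := coeffs_ne_zero f hf
  set g := coeffs f with hgdef
  obtain ⟨w₀, hw₀, hmax⟩ := Finset.exists_max_image g.support (fun w => w.toList.length)
    (Finsupp.support_nonempty_iff.mpr hg)
  set d := w₀.toList.length with hd
  let iota : Fin d → X := fun k => w₀.toList.get k
  have hiota : List.ofFn iota = w₀.toList := List.ofFn_get _
  refine ⟨d, fun σ => g (FreeMonoid.ofList (List.ofFn (iota ∘ σ))), ?_, ?_⟩
  · intro h0
    have h1 := congrFun h0 1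
    simp only [Equiv.Perm.coe_one, Function.comp_id, Pi.zero_apply] at h1
    rw [hiota] at h1
    exact (Finsupp.mem_support_iff.mp hw₀) h1
  · intro z
    -- the inclusion-exclusion sum
    have hzero : ∑ S : Finset (Fin d), ((-1 : ℤ) ^ S.card) •
        FreeAlgebra.lift F (fun x => ∑ k ∈ S.filter (fun k => iota k = x), z k) f = 0 := by
      refine Finset.sum_eq_zero fun S _ => ?_
      rw [h, smul_zero]
    simp_rw [lift_eq_sum, Finsupp.sum, Finset.smul_sum] at hzero
    rw [Finset.sum_comm] at hzero
    have hw : ∀ w ∈ g.support, ∑ S : Finset (Fin d), ((-1 : ℤ) ^ S.card) •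
        (g w • (w.toList.map (fun x => ∑ k ∈ S.filter (fun k => iota k = x), z k)).prod)
        = ((-1 : ℤ) ^ d) • ∑ σ : Equiv.Perm (Fin d),
          (if FreeMonoid.ofList (List.ofFn (iota ∘ σ)) = w then
            g w • (List.ofFn (fun j => z (σ j))).prod else 0) := by
      intro w hw
      have hlen : w.toList.length ≤ d := hmax w hw
      obtain ⟨l, u, hu⟩ : ∃ (l : ℕ) (u : Fin l → X), w.toList = List.ofFn u :=
        ⟨_, _, (List.ofFn_get w.toList).symm⟩
      have hl : l ≤ d := by
        rw [hu] at hlen; simpa using hlen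
      have h1 : ∑ S : Finset (Fin d), ((-1 : ℤ) ^ S.card) •
        (g w • (w.toList.map (fun x => ∑ k ∈ S.filter (fun k => iota k = x), z k)).prod)
        = g w • ∑ S : Finset (Fin d), ((-1 : ℤ) ^ S.card) •
        (w.toList.map (fun x => ∑ k ∈ S.filter (fun k => iota k = x), z k)).prod := by
        rw [Finset.smul_sum]
        refine Finset.sum_congr rfl fun S _ => ?_
        rw [smul_comm]
      rw [h1, hu, polar_word iota z u]
      rcases hl.lt_or_eq with hlt | heq
      · -- no surjections, and no word of length d equals w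
        have h2 : ∀ κ : Fin l → Fin d, ¬ (Function.Surjective κ ∧ iota ∘ κ = u) := by
          rintro κ ⟨hs, _⟩
          have := Fintype.card_le_of_surjective κ hs
          simp at this
          omega
        have h3 : ∀ σ : Equiv.Perm (Fin d), FreeMonoid.ofList (List.ofFn (iota ∘ σ)) ≠ w := by
          intro σ hσ
          have : (FreeMonoid.toList (FreeMonoid.ofList (List.ofFn (iota ∘ σ)))).length
              = w.toList.length := by rw [hσ]
          rw [hu] at this
          simp at this
          omega
        simp [h2, h3]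
      · subst heq
        have h4 : ∀ κ : Fin d → Fin d, (if Function.Surjective κ ∧ iota ∘ κ = u then
          ((-1 : ℤ) ^ d) • (List.ofFn (fun j => z (κ j))).prod else 0) =
          if Function.Surjective κ then (if iota ∘ κ = u then
            ((-1 : ℤ) ^ d) • (List.ofFn (fun j => z (κ j))).prod else 0) else 0 := by
          intro κ
          by_cases h5 : Function.Surjective κ <;> simp [h5]
        simp_rw [h4]
        rw [sum_surj_eq_sum_perm (fun κ => (if iota ∘ κ = u then
            ((-1 : ℤ) ^ d) • (List.ofFn (fun j => z (κ j))).prod else 0))]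
        rw [Finset.smul_sum, Finset.smul_sum]
        refine Finset.sum_congr rfl fun σ _ => ?_
        have h6 : (FreeMonoid.ofList (List.ofFn (iota ∘ σ)) = w) ↔ iota ∘ σ = u := by
          constructor
          · intro h7
            have h8 : List.ofFn (iota ∘ σ) = w.toList := by rw [← h7]; rfl
            rw [hu] at h8
            exact List.ofFn_injective h8
          · intro h7
            rw [h7, ← hu]; rfl
        by_cases h7 : iota ∘ σ = u
        · rw [if_pos h7, if_pos (h6.mpr h7), smul_comm]
        · rw [if_neg h7, if_neg (fun h8 => h7 (h6.mp h8)), smul_zero, smul_zero]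
    rw [Finset.sum_congr rfl hw, ← Finset.smul_sum] at hzero
    have hzero2 : ∑ w ∈ g.support, ∑ σ : Equiv.Perm (Fin d),
          (if FreeMonoid.ofList (List.ofFn (iota ∘ σ)) = w then
            g w • (List.ofFn (fun j => z (σ j))).prod else 0) = 0 := by
      have := congrArg (fun t => ((-1 : ℤ) ^ d) • t) hzero
      simp only [smul_smul, smul_zero] at this
      rw [← pow_add, ← two_mul, pow_mul] at this
      simpa using this
    rw [Finset.sum_comm] at hzero2
    rw [← hzero2]
    refine Finset.sum_congr rfl fun σ _ => ?_
    by_cases h9 : FreeMonoid.ofList (List.ofFn (iota ∘ σ)) ∈ g.support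
    · rw [Finset.sum_eq_single (FreeMonoid.ofList (List.ofFn (iota ∘ σ)))]
      · rw [if_pos rfl]
      · intro w _ hne
        rw [if_neg (Ne.symm hne)]
      · intro h10; exact absurd h9 h10
    · have h10 : g (FreeMonoid.ofList (List.ofFn (iota ∘ σ))) = 0 := by
        simpa using h9
      beta_reduce
      rw [h10, zero_smul]
      symm
      refine Finset.sum_eq_zero fun w hw' => ?_
      rw [if_neg]
      rintro rfl
      exact h9 hw'

end Pool.Agent.Helper71
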